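import Pool.Agent.Lib_BVM.Uf

/-! # Piece AF: almost all -/

namespace Pool.Agent.BVM

variable {B : Type} [CompleteBooleanAlgebra B] {I : Type}

/-- the Boolean value of: `g i` for all but finitely many `i` -/
def af (g : I → B) : B := ⨆ s : Finset I, ⨅ i : {i : I // i ∉ s}, g i.1

theorem af_mono {g h : I → B} (H : ∀ i, g i ≤ h i) : af g ≤ af h :=
  iSup_mono fun _ => iInf_mono fun i => H i.1

theorem af_inf (g h : I → B) : af (fun i => g i ⊓ h i) = af g ⊓ af h := by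
  classical
  apply le_antisymm
  · exact le_inf (af_mono fun _ => inf_le_left) (af_mono fun _ => inf_le_right)
  · show (⨆ s : Finset I, ⨅ i : {i : I // i ∉ s}, g i.1) ⊓
      (⨆ t : Finset I, ⨅ i : {i : I // i ∉ t}, h i.1) ≤ _
    rw [iSup_inf_eq]
    refine iSup_le fun s => ?_
    rw [inf_iSup_eq]
    refine iSup_le fun t => ?_
    refine le_iSup_of_le (s ∪ t) (le_iInf fun i => ?_)
    have hi := i.2
    rw [Finset.mem_union, not_or] at hi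
    exact inf_le_inf (iInf_le (fun i : {i : I // i ∉ s} => g i.1) ⟨i.1, hi.1⟩)
      (iInf_le (fun i : {i : I // i ∉ t} => h i.1) ⟨i.1, hi.2⟩)

theorem le_af (g : I → B) : ⨅ i, g i ≤ af g :=
  le_iSup_of_le ∅ (le_iInf fun i => iInf_le g i.1)

/-- `c` and `af g` are disjoint if every finite set misses some `i` in the support of `gᶜ` above
`c` -/
theorem af_inf_eq_bot {g : I → B} {c : B}
    (H : ∀ s : Finset I, c ≤ ⨆ i : {i : I // i ∉ s}, (g i.1)ᶜ) : c ⊓ af g = ⊥ := by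
  show c ⊓ (⨆ s : Finset I, ⨅ i : {i : I // i ∉ s}, g i.1) = ⊥
  rw [inf_iSup_eq]
  refine le_bot_iff.1 (iSup_le fun s => ?_)
  calc c ⊓ ⨅ i : {i : I // i ∉ s}, g i.1
      ≤ (⨆ i : {i : I // i ∉ s}, (g i.1)ᶜ) ⊓ ⨅ i : {i : I // i ∉ s}, g i.1 :=
        inf_le_inf_right _ (H s)
    _ = (⨅ i : {i : I // i ∉ s}, g i.1)ᶜ ⊓ ⨅ i : {i : I // i ∉ s}, g i.1 := by rw [compl_iInf]
    _ = ⊥ := compl_inf_eq_bot

/-- the countable chain condition -/
def CCC (B : Type) [CompleteBooleanAlgebra B] : Prop :=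
  ∀ S : Set B, ⊥ ∉ S → (∀ a ∈ S, ∀ b ∈ S, a ≠ b → a ⊓ b = ⊥) → S.Countable

/-- a disjoint family has only countably many nonzero members -/
theorem CCC.countable_of_disjoint (hB : CCC B) (a : I → B)
    (h : ∀ i j, i ≠ j → a i ⊓ a j = ⊥) : {i | a i ≠ ⊥}.Countable := by
  have hinj : Set.InjOn a {i | a i ≠ ⊥} := by
    intro i hi j _ hij
    by_contra hne
    have h1 := h i j hne
    rw [← hij, inf_idem] at h1
    exact hi h1
  refine Set.countable_of_injective_of_countable_image hinj (hB _ ?_ ?_)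
  · rintro ⟨i, hi, hi0⟩
    exact hi hi0
  · rintro _ ⟨i, _, rfl⟩ _ ⟨j, _, rfl⟩ hij
    exact h i j (fun e => hij (by rw [e]))

/-- **CCC limit.** Proof. Call `p ≠ ⊥` small if `p ⊓ ⨆ i ∈ T \ S, a i = ⊥` for some countable `S`.
Take a maximal disjoint set `𝒜` of small elements (Zorn), countable by `hB`; let `S₀` be the union
of the corresponding countable sets and `i ∈ T \ S₀`. Then `a i ⊓ p = ⊥` for all `p ∈ 𝒜`. If
`a i ≤ ⨆ j ∈ T \ S, a j` failed for a countable (finite) `S`, then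
`a i ⊓ (⨆ j ∈ T \ S, a j)ᶜ` would be small and disjoint from `𝒜`, contradiction. -/
theorem CCC.limit (hB : CCC B) (a : I → B) (T : Set I) (hT : ¬ T.Countable)
    (h : ∀ i ∈ T, a i ≠ ⊥) :
    ∃ i ∈ T, ∀ s : Set I, s.Countable → a i ≤ ⨆ j : {j : I // j ∈ T ∧ j ∉ s}, a j.1 := by
  classical
  obtain ⟨A, hA⟩ := zorn_subset
    {A : Set B | (∀ p ∈ A, p ≠ ⊥ ∧ ∃ s : Set I, s.Countable ∧ ∀ j ∈ T, j ∉ s → a j ⊓ p = ⊥) ∧
      ∀ p ∈ A, ∀ q ∈ A, p ≠ q → p ⊓ q = ⊥} (by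
      intro c hc hchain
      refine ⟨⋃₀ c, ⟨?_, ?_⟩, fun s hs => Set.subset_sUnion_of_mem hs⟩
      · rintro p ⟨s, hs, hp⟩
        exact (hc hs).1 p hp
      · rintro p ⟨s, hs, hp⟩ q ⟨t, ht, hq⟩ hpq
        rcases hchain.total hs ht with hst | hst
        · exact (hc ht).2 p (hst hp) q hq hpq
        · exact (hc hs).2 p hp q (hst hq) hpq)
  have hA1 := hA.prop.1
  have hA2 := hA.prop.2
  have hAc : A.Countable := hB A (fun h0 => (hA1 ⊥ h0).1 rfl) hA2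
  choose! S hS1 hS2 using fun p hp => (hA1 p hp).2
  have hS0 : (⋃ p ∈ A, S p).Countable := hAc.biUnion hS1
  obtain ⟨i, hiT, hiS⟩ : ∃ i ∈ T, i ∉ ⋃ p ∈ A, S p := by
    by_contra hcon
    push Not at hcon
    exact hT (hS0.mono hcon)
  have hdis : ∀ p ∈ A, a i ⊓ p = ⊥ := by
    intro p hp
    refine hS2 p hp i hiT fun hi => hiS ?_
    exact Set.mem_biUnion hp hi
  refine ⟨i, hiT, ?_⟩
  intro s hs
  by_contra hle
  obtain ⟨X, hX⟩ : ∃ X, X = ⨆ j : {j : I // j ∈ T ∧ j ∉ s}, a j.1 := ⟨_, rfl⟩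
  rw [← hX] at hle
  have hne : a i ⊓ Xᶜ ≠ ⊥ := by
    intro h0
    exact hle (by rwa [← sdiff_eq, sdiff_eq_bot_iff] at h0)
  have hsmall : ∃ s : Set I, s.Countable ∧ ∀ j ∈ T, j ∉ s → a j ⊓ (a i ⊓ Xᶜ) = ⊥ := by
    refine ⟨s, hs, fun j hj hjs => ?_⟩
    have h1 : a j ≤ X := by
      rw [hX]
      exact le_iSup (fun j : {j : I // j ∈ T ∧ j ∉ s} => a j.1) ⟨j, hj, hjs⟩
    refine le_bot_iff.1 ?_
    calc a j ⊓ (a i ⊓ Xᶜ) ≤ X ⊓ Xᶜ := inf_le_inf h1 inf_le_right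
      _ = ⊥ := inf_compl_eq_bot
  have hdis' : ∀ p ∈ A, (a i ⊓ Xᶜ) ⊓ p = ⊥ := by
    intro p hp
    refine le_bot_iff.1 ?_
    calc (a i ⊓ Xᶜ) ⊓ p ≤ a i ⊓ p := inf_le_inf_right _ inf_le_left
      _ = ⊥ := hdis p hp
  have hmem : insert (a i ⊓ Xᶜ) A ∈
      {A : Set B | (∀ p ∈ A, p ≠ ⊥ ∧ ∃ s : Set I, s.Countable ∧ ∀ j ∈ T, j ∉ s → a j ⊓ p = ⊥) ∧
      ∀ p ∈ A, ∀ q ∈ A, p ≠ q → p ⊓ q = ⊥} := by
    refine ⟨?_, ?_⟩
    · rintro p (rfl | hp)
      · exact ⟨hne, hsmall⟩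
      · exact hA1 p hp
    · rintro p (rfl | hp) q (rfl | hq) hpq
      · exact absurd rfl hpq
      · exact hdis' q hq
      · rw [inf_comm]
        exact hdis' p hp
      · exact hA2 p hp q hq hpq
  have hsub := hA.le_of_ge hmem (Set.subset_insert _ _)
  have hin : a i ⊓ Xᶜ ∈ A := hsub (Set.mem_insert _ _)
  have := hdis' _ hin
  rw [inf_idem] at this
  exact hne this

end Pool.Agent.BVM
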