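import Pool.Agent.Lib_BVM.Af

/-! # The Cohen algebra: the properties which are used -/

namespace Pool.Agent.BVM

/-- The properties of the algebra adding `I` Cohen reals (regular open sets of `2 ^ I`). -/
structure CohenAlg (I B : Type) [CompleteBooleanAlgebra B] where
  /-- the automorphism flipping the coordinate `i` -/
  σ : I → B ≃o B
  invol : ∀ i b, σ i (σ i b) = b
  /-- the generic set: the Boolean value of `i ∈ G` -/
  c : I → B
  flip : ∀ i, σ i (c i) = (c i)ᶜ
  dense : ∀ b : B, b ≠ ⊥ → ∃ p, p ≠ ⊥ ∧ p ≤ b ∧ {i | σ i p ≠ p}.Finite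
  ccc : CCC B
  nontriv : (⊥ : B) ≠ ⊤

end Pool.Agent.BVM
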