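import Pool.Agent.Lib_BVM.FinC
import Pool.Agent.Lib_BVM.CohenDef

/-! # Piece AUTO: the automorphism of `P(ω₁) / Fin` -/

namespace Pool.Agent.BVM

variable {B : Type} [CompleteBooleanAlgebra B] {I : Type}

/-- the `i`-th coordinate of `fl A` is the Boolean value of `i ∈ A` after flipping the `i`-th Cohen
real -/
def CohenAlg.fl (C : CohenAlg I B) (A : I → B) : I → B := fun i => C.σ i (A i)

theorem CohenAlg.fl_fl (C : CohenAlg I B) (A : I → B) : C.fl (C.fl A) = A := by
  funext i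
  exact C.invol i _

theorem auto_af_le (C : CohenAlg I B) (g : I → B) : af g ≤ af (C.fl g) := by
  refine iSup_le fun s => ?_
  by_contra hcon
  have hne : (⨅ i : {i : I // i ∉ s}, g i.1) ⊓ (af (C.fl g))ᶜ ≠ ⊥ := by
    intro h0
    exact hcon (disjoint_compl_right_iff.1 (disjoint_iff.2 h0))
  obtain ⟨p, hp, hpb, hfin⟩ := C.dense _ hne
  apply hp
  have h1 : p ≤ af (C.fl g) := by
    classical
    refine le_iSup_of_le (s ∪ hfin.toFinset) (le_iInf fun i => ?_)
    have h2 : i.1 ∉ s := fun h => i.2 (Finset.mem_union_left _ h)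
    have h3 : C.σ i.1 p = p := by
      by_contra h
      exact i.2 (Finset.mem_union_right _ (hfin.mem_toFinset.2 h))
    have h4 : p ≤ g i.1 := hpb.trans (inf_le_left.trans (iInf_le (fun i : {i : I // i ∉ s} => g i.1) ⟨i.1, h2⟩))
    have h5 : C.σ i.1 p ≤ C.σ i.1 (g i.1) := (C.σ i.1).monotone h4
    rw [h3] at h5
    exact h5
  have h6 : p ≤ (af (C.fl g))ᶜ := hpb.trans inf_le_right
  have h7 : p ≤ af (C.fl g) ⊓ (af (C.fl g))ᶜ := le_inf h1 h6
  rw [inf_compl_self] at h7
  exact le_bot_iff.1 h7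

/-- Proof. By `fl_fl` it is enough that `af g ≤ af (C.fl g)`, i.e. for a finset `s` that
`b := ⨅ i ∉ s, g i ≤ af (C.fl g)`. Otherwise `b ⊓ (af (C.fl g))ᶜ ≠ ⊥`; take `p` below it as in
`C.dense`, `t = {i | σ i p ≠ p}` finite. For `i ∉ s ∪ t`, `p = σ i p ≤ σ i (g i)`, so
`p ≤ ⨅ i ∉ s ∪ t, C.fl g i ≤ af (C.fl g)`, contradiction. -/
theorem CohenAlg.af_fl (C : CohenAlg I B) (g : I → B) : af (C.fl g) = af g := by
  refine le_antisymm ?_ (auto_af_le C g)
  have h := auto_af_le C (C.fl g)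
  rwa [C.fl_fl] at h

theorem auto_fl_himp (C : CohenAlg I B) (A A' : I → B) :
    (fun i => C.fl A i ⇨ C.fl A' i) = C.fl (fun i => A i ⇨ A' i) := by
  funext i
  exact (map_himp (C.σ i) (A i) (A' i)).symm

theorem auto_fl_inf (C : CohenAlg I B) (A A' : I → B) :
    (fun i => C.fl A i ⊓ C.fl A' i) = C.fl (fun i => A i ⊓ A' i) := by
  funext i
  exact (map_inf (C.σ i) (A i) (A' i)).symm

variable [LinearOrder I] [WellFoundedLT I]

/-- the name of the relation inducing the automorphism -/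
noncomputable def autN (C : CohenAlg I B) : Nm B :=
  .mk (I → B) (fun A => opN (subN A) (subN (C.fl A))) (fun _ => ⊤)

theorem oMem_autN (C : CohenAlg I B) (U : UF B) (A : I → B) :
    OMem (EU U) (nm U (autN C)) (nm U (subN A)) (nm U (subN (C.fl A))) := by
  refine ⟨nm U (opN (subN A) (subN (C.fl A))), ?_, isOPair_opN U _ _⟩
  rw [EU_nm]
  exact U.mono (bmem_mk (fun A : I → B => opN (subN A) (subN (C.fl A))) (fun _ => ⊤) A) U.top_mem

/-- `FDef.ball` for the property `∀ x y, IsOPair p x y → Sub x l ∧ Sub y l` of `p` -/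
theorem sub_of_oMem_autN (C : CohenAlg I B) (U : UF B) {x y : Mod U}
    (h : OMem (EU U) (nm U (autN C)) x y) :
    Sub (EU U) x (nm U (setN B I)) ∧ Sub (EU U) y (nm U (setN B I)) := by
  obtain ⟨p, hp, hxy⟩ := h
  have hdef := FDef.all 2 (FDef.all 3 (FDef.imp (FDef.isOPair 0 2 3) (FDef.and (FDef.sub 2 1) (FDef.sub 3 1))))
  have key := FDef.ball hdef 0 (fun _ => setN B I) (fun A : I → B => opN (subN A) (subN (C.fl A))) (fun _ => ⊤) ⊤ ?_ U
    U.top_mem p hp
  · have h1 := key x y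
    simp only [Function.update_apply] at h1
    simpa using h1 (by simpa using hxy)
  · intro U' A _ _ x y hxy
    have h2 : IsOPair (EU U') (nm U' (opN (subN A) (subN (C.fl A)))) x y := by simpa [Function.update_apply] using hxy
    obtain ⟨rfl, rfl⟩ := IsOPair.inj (eu_pair U') (eu_ext U') (isOPair_opN U' _ _) h2
    have h3 := sub_setN U' A
    have h4 := sub_setN U' (C.fl A)
    simpa [Function.update_apply] using And.intro h3 h4

/-- `FDef.ball` for the property `∀ y, IsOPair p a y → EqFin d y` of `p`, with the parameters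
`a = subN A`, `d = subN (C.fl A)`: for `p = opN (subN A₁) (subN (C.fl A₁))` in the model of `U'` this
says that `subN A = subN A₁` implies `EqFin (subN (C.fl A)) (subN (C.fl A₁))`: by `eq_subN`,
`(⨅ i, A i ⇔ A₁ i) ∈ U'`, so `af (A ⇔ A₁) ∈ U'`, so `af (C.fl (A ⇔ A₁)) ∈ U'` by `af_fl`. -/
theorem eqFin_of_oMem_autN (C : CohenAlg I B) (U : UF B) {A : I → B} {y : Mod U}
    (h : OMem (EU U) (nm U (autN C)) (nm U (subN A)) y) :
    EqFin (EU U) (nm U (subN (C.fl A))) y := by
  obtain ⟨p, hp, hxy⟩ := h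
  have hdef := FDef.all 2 (FDef.imp (FDef.isOPair 0 1 2) (FDef.eqFin 3 2))
  have key := FDef.ball hdef 0 (fun k => if k = 1 then subN A else subN (C.fl A))
    (fun A : I → B => opN (subN A) (subN (C.fl A))) (fun _ => ⊤) ⊤ ?_ U U.top_mem p hp
  · have h1 := key y
    simp only [Function.update_apply] at h1
    simpa using h1 (by simpa using hxy)
  · intro U' A₁ _ _ y hxy
    have h2 : IsOPair (EU U') (nm U' (opN (subN A₁) (subN (C.fl A₁)))) (nm U' (subN A)) y := by
      simpa [Function.update_apply] using hxy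
    obtain ⟨h3, rfl⟩ := IsOPair.inj (eu_pair U') (eu_ext U') (isOPair_opN U' _ _) h2
    have h4 : EqFin (EU U') (nm U' (subN (C.fl A))) (nm U' (subN (C.fl A₁))) := by
      rw [eqFin_subN]
      have h5 : (fun i => (C.fl A i ⇨ C.fl A₁ i) ⊓ (C.fl A₁ i ⇨ C.fl A i)) =
          C.fl (fun i => (A i ⇨ A₁ i) ⊓ (A₁ i ⇨ A i)) := by
        rw [← auto_fl_inf C (fun i => A i ⇨ A₁ i) (fun i => A₁ i ⇨ A i), ← auto_fl_himp, ← auto_fl_himp]
      rw [h5, C.af_fl]
      exact U'.mono (le_af _) ((eq_subN U' A A₁).1 h3.symm)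
    simpa [Function.update_apply] using h4

theorem subFin_fl (C : CohenAlg I B) (U : UF B) (A A' : I → B) :
    SubFin (EU U) (nm U (subN (C.fl A))) (nm U (subN (C.fl A'))) ↔
      SubFin (EU U) (nm U (subN A)) (nm U (subN A')) := by
  rw [subFin_subN, subFin_subN, auto_fl_himp, C.af_fl]

theorem auto_subFin_trans (U : UF B) {X Y Z : I → B} (h1 : SubFin (EU U) (nm U (subN X)) (nm U (subN Y)))
    (h2 : SubFin (EU U) (nm U (subN Y)) (nm U (subN Z))) :
    SubFin (EU U) (nm U (subN X)) (nm U (subN Z)) := by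
  rw [subFin_subN] at h1 h2 ⊢
  have h3 := U.inf_mem.2 ⟨h1, h2⟩
  rw [← af_inf] at h3
  exact U.mono (af_mono fun i => himp_triangle (X i) (Y i) (Z i)) h3

/-- from the previous theorems (all subsets are `subN`, use `exists_subN`, `subFin_subN`,
`eqFin_subN`, `af_inf`, `af_mono`) -/
theorem inducesAut_autN (C : CohenAlg I B) (U : UF B) :
    InducesAut (EU U) (nm U (autN C)) (nm U (setN B I)) := by
  refine ⟨fun a b h => sub_of_oMem_autN C U h, ?_, ?_, ?_⟩
  · intro a ha
    obtain ⟨A, rfl⟩ := exists_subN U ha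
    exact ⟨_, oMem_autN C U A⟩
  · intro b hb
    obtain ⟨A, rfl⟩ := exists_subN U hb
    have h := oMem_autN C U (C.fl A)
    rw [C.fl_fl] at h
    exact ⟨_, h⟩
  · intro a b a' b' h h'
    obtain ⟨ha, hb⟩ := sub_of_oMem_autN C U h
    obtain ⟨ha', hb'⟩ := sub_of_oMem_autN C U h'
    obtain ⟨A, rfl⟩ := exists_subN U ha
    obtain ⟨A', rfl⟩ := exists_subN U ha'
    obtain ⟨X, rfl⟩ := exists_subN U hb
    obtain ⟨X', rfl⟩ := exists_subN U hb'
    obtain ⟨h1, h2⟩ := eqFin_of_oMem_autN C U h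
    obtain ⟨h3, h4⟩ := eqFin_of_oMem_autN C U h'
    rw [← subFin_fl C U A A']
    constructor
    · intro h5
      exact auto_subFin_trans U h2 (auto_subFin_trans U h5 h3)
    · intro h5
      exact auto_subFin_trans U h1 (auto_subFin_trans U h5 h4)

end Pool.Agent.BVM
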