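import Pool.Agent.Lib_BVM.CohenDef

/-! # Piece COHEN: existence of the Cohen algebra -/

namespace Pool.Agent.BVM

open TopologicalSpace

/-- complete Boolean algebra of regular open sets -/
@[instance_reducible] noncomputable def cohen_cba (X : Type) [TopologicalSpace X] :
    CompleteBooleanAlgebra (Heyting.Regular (Opens X)) :=
  { (inferInstance : BooleanAlgebra (Heyting.Regular (Opens X))) with
    sSup := fun s => Heyting.Regular.toRegular (sSup (Heyting.Regular.val '' s))
    isLUB_sSup := fun s => Heyting.Regular.gi.isLUB_of_u_image (isLUB_sSup _)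
    sInf := fun s => Heyting.Regular.toRegular (sSup (Heyting.Regular.val '' (lowerBounds s)))
    isGLB_sInf := fun s => isLUB_lowerBounds.mp
      (Heyting.Regular.gi.isLUB_of_u_image (isLUB_sSup _)) }

/-- an order isomorphism acts on the regular elements -/
def cohen_lift {α : Type} [HeytingAlgebra α] (e : α ≃o α) :
    Heyting.Regular α ≃o Heyting.Regular α where
  toFun a := ⟨e a.val, by rw [Heyting.IsRegular, ← map_compl, ← map_compl, a.prop.eq]⟩
  invFun a := ⟨e.symm a.val, by rw [Heyting.IsRegular, ← map_compl, ← map_compl, a.prop.eq]⟩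
  left_inv a := Heyting.Regular.coe_injective (e.symm_apply_apply _)
  right_inv a := Heyting.Regular.coe_injective (e.apply_symm_apply _)
  map_rel_iff' := e.map_rel_iff'

/-- a continuous involution acts on the open sets -/
def cohen_opens {X : Type} [TopologicalSpace X] (T : X → X) (hT : Continuous T)
    (hTT : ∀ x, T (T x) = x) : Opens X ≃o Opens X where
  toFun U := ⟨T ⁻¹' (U : Set X), U.isOpen.preimage hT⟩
  invFun U := ⟨T ⁻¹' (U : Set X), U.isOpen.preimage hT⟩
  left_inv U := by
    ext x
    show T (T x) ∈ (U : Set X) ↔ x ∈ (U : Set X)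
    rw [hTT]
  right_inv U := by
    ext x
    show T (T x) ∈ (U : Set X) ↔ x ∈ (U : Set X)
    rw [hTT]
  map_rel_iff' := by
    intro U V
    refine ⟨fun h x hx => ?_, fun h x hx => h hx⟩
    have h1 : T x ∈ T ⁻¹' (U : Set X) := by
      show T (T x) ∈ (U : Set X)
      rw [hTT]; exact hx
    have h2 : T x ∈ T ⁻¹' (V : Set X) := h h1
    have h3 : T (T x) ∈ (V : Set X) := h2
    rw [hTT] at h3
    exact h3

theorem cohen_isCompl {X : Type} [TopologicalSpace X] (s t : Set X) (hs : IsOpen s)
    (ht : IsOpen t) (h : ∀ x, x ∈ t ↔ x ∉ s) : IsCompl (⟨s, hs⟩ : Opens X) ⟨t, ht⟩ := by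
  refine IsCompl.of_eq ?_ ?_
  · ext x
    show (x ∈ s ∧ x ∈ t) ↔ x ∈ (∅ : Set X)
    rw [h x]
    simp
  · ext x
    show (x ∈ s ∨ x ∈ t) ↔ x ∈ (Set.univ : Set X)
    rw [h x]
    simp [em]

/-- clopen sets are regular -/
theorem cohen_regular {X : Type} [TopologicalSpace X] (s t : Set X) (hs : IsOpen s)
    (ht : IsOpen t) (h : ∀ x, x ∈ t ↔ x ∉ s) : Heyting.IsRegular (⟨s, hs⟩ : Opens X) := by
  have h1 := cohen_isCompl s t hs ht h
  rw [Heyting.IsRegular, h1.compl_eq, h1.symm.compl_eq]

/-- flipping a coordinate -/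
def cohen_T {I : Type} [DecidableEq I] (i : I) (x : I → Bool) : I → Bool :=
  Function.update x i (!x i)

theorem cohen_T_cont {I : Type} [DecidableEq I] (i : I) : Continuous (cohen_T i) := by
  unfold cohen_T
  exact continuous_id.update i ((continuous_of_discreteTopology (f := fun b : Bool => !b)).comp
    (continuous_apply i : Continuous fun p : I → Bool => p i))

theorem cohen_TT {I : Type} [DecidableEq I] (i : I) (x : I → Bool) :
    cohen_T i (cohen_T i x) = x := by
  unfold cohen_T
  rw [Function.update_self, Function.update_idem, Bool.not_not, Function.update_eq_self]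

theorem cohen_cyl_open {I : Type} (s : Finset I) (x : I → Bool) :
    IsOpen {y : I → Bool | ∀ j ∈ s, y j = x j} := by
  have h : {y : I → Bool | ∀ j ∈ s, y j = x j} = ⋂ j ∈ s, {y | y j = x j} := by
    ext y; simp
  rw [h]
  refine isOpen_biInter_finset fun j _ => ?_
  exact (isOpen_discrete ({x j} : Set Bool)).preimage (continuous_apply j : Continuous fun p : I → Bool => p j)

theorem cohen_cyl_compl_open {I : Type} (s : Finset I) (x : I → Bool) :
    IsOpen {y : I → Bool | ¬ ∀ j ∈ s, y j = x j} := by
  have h : {y : I → Bool | ¬ ∀ j ∈ s, y j = x j} = ⋃ j ∈ s, {y | y j ≠ x j} := by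
    ext y; simp
  rw [h]
  refine isOpen_biUnion fun j _ => ?_
  exact (isOpen_discrete ({x j}ᶜ : Set Bool)).preimage (continuous_apply j : Continuous fun p : I → Bool => p j)

theorem cohen_cyl_sub {I : Type} (U : Set (I → Bool)) (hU : IsOpen U) (x : I → Bool)
    (hx : x ∈ U) : ∃ s : Finset I, {y : I → Bool | ∀ j ∈ s, y j = x j} ⊆ U := by
  obtain ⟨s, u, hu, hsub⟩ := isOpen_pi_iff.mp hU x hx
  refine ⟨s, fun y hy => hsub ?_⟩
  intro j hj
  rw [hy j hj]
  exact (hu j hj).2

theorem cohen_separable {I : Type} (r : I → ℕ → Bool) (hr : Function.Injective r) :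
    SeparableSpace (I → Bool) := by
  classical
  let F : (Σ n : ℕ, ((_root_.Fin n → Bool) → Bool)) → (I → Bool) := fun p i => p.2 (fun k => r i k)
  refine ⟨⟨Set.range F, Set.countable_range F, ?_⟩⟩
  rw [dense_iff_inter_open]
  rintro U hU ⟨x, hx⟩
  obtain ⟨s, hs⟩ := cohen_cyl_sub U hU x hx
  have hex : ∀ j j' : I, ∃ k : ℕ, j ≠ j' → r j k ≠ r j' k := by
    intro j j'
    by_cases h : j = j'
    · exact ⟨0, fun h' => absurd h h'⟩
    · obtain ⟨k, hk⟩ := Function.ne_iff.mp (fun h' => h (hr h'))
      exact ⟨k, fun _ => hk⟩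
  choose K hK using hex
  obtain ⟨n, hn⟩ : ∃ n : ℕ, ∀ j ∈ s, ∀ j' ∈ s, K j j' < n := by
    refine ⟨(s ×ˢ s).sup (fun p => K p.1 p.2) + 1, fun j hj j' hj' => Nat.lt_succ_of_le ?_⟩
    exact Finset.le_sup (f := fun p : I × I => K p.1 p.2) (Finset.mk_mem_product hj hj')
  let v : (_root_.Fin n → Bool) → Bool := fun w => decide (∃ j ∈ s, (∀ k : _root_.Fin n, r j k = w k) ∧ x j = true)
  refine ⟨F ⟨n, v⟩, hs ?_, ⟨n, v⟩, rfl⟩
  intro j hj
  show v (fun k => r j k) = x j
  cases hxj : x j with
  | true =>
    exact decide_eq_true ⟨j, hj, fun _ => rfl, hxj⟩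
  | false =>
    refine decide_eq_false ?_
    rintro ⟨j', hj', hk, hx'⟩
    have hne : j' ≠ j := by
      rintro rfl
      rw [hxj] at hx'
      exact Bool.noConfusion hx'
    exact hK j' j hne (hk ⟨K j' j, hn j' hj' j hj⟩)

/-- Proof. `B = Heyting.Regular (TopologicalSpace.Opens (I → Bool))`, a complete Boolean algebra
(`Heyting.Regular` is a Boolean algebra; completeness from `Heyting.Regular.gi.liftCompleteLattice`;
`CompleteBooleanAlgebra` extends both). `σ i` is induced by the homeomorphism
`x ↦ Function.update x i (!x i)` of `I → Bool` (an order isomorphism of `Opens`, hence of the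
regular elements). `c i = {x | x i = true}`, clopen. `dense`: a nonempty open set contains a
nonempty basic clopen set `p = {x | ∀ j ∈ s, x j = y j}`, `s` finite, and `σ i p = p` for `i ∉ s`.
`ccc`: `I → Bool` is separable: the countable set of all `fun i => v (fun k : Fin n => r i k)`,
`v : (Fin n → Bool) → Bool`, is dense (finitely many distinct `i` have distinct `r i` restricted to
a large `n`); a disjoint family of nonempty open sets is countable
(`Set.PairwiseDisjoint.countable_of_isOpen`). -/
theorem cohen_nonempty (I : Type) (r : I → ℕ → Bool) (hr : Function.Injective r) :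
    Nonempty (@CohenAlg I (Heyting.Regular (Opens (I → Bool))) (cohen_cba (I → Bool))) := by
  classical
  have hsep := cohen_separable r hr
  refine ⟨?_⟩
  letI := cohen_cba (I → Bool)
  have hctrue : ∀ i : I, IsOpen {x : I → Bool | x i = true} := fun i =>
    (isOpen_discrete ({true} : Set Bool)).preimage (continuous_apply i : Continuous fun p : I → Bool => p i)
  have hcfalse : ∀ i : I, IsOpen {x : I → Bool | x i = false} := fun i =>
    (isOpen_discrete ({false} : Set Bool)).preimage (continuous_apply i : Continuous fun p : I → Bool => p i)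
  have hcf : ∀ i : I, ∀ x : I → Bool, x ∈ {x : I → Bool | x i = false} ↔
      x ∉ {x : I → Bool | x i = true} := by
    intro i x
    show x i = false ↔ ¬ x i = true
    simp
  exact {
    σ := fun i => cohen_lift (cohen_opens (cohen_T i) (cohen_T_cont i) (cohen_TT i))
    invol := by
      intro i b
      apply Heyting.Regular.coe_injective
      ext x
      show cohen_T i (cohen_T i x) ∈ (b.val : Set (I → Bool)) ↔ x ∈ (b.val : Set (I → Bool))
      rw [cohen_TT]
    c := fun i => ⟨⟨{x : I → Bool | x i = true}, hctrue i⟩,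
      cohen_regular _ _ (hctrue i) (hcfalse i) (hcf i)⟩
    flip := by
      intro i
      apply Heyting.Regular.coe_injective
      have h1 := (cohen_isCompl _ _ (hctrue i) (hcfalse i) (hcf i)).compl_eq
      show _ = (⟨{x : I → Bool | x i = true}, hctrue i⟩ : Opens (I → Bool))ᶜ
      rw [h1]
      ext x
      show cohen_T i x i = true ↔ x i = false
      rw [cohen_T, Function.update_self]
      cases x i <;> simp
    dense := by
      intro b hb
      have hne : ∃ x, x ∈ (b.val : Set (I → Bool)) := by
        by_contra hcon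
        apply hb
        apply Heyting.Regular.coe_injective
        ext x
        show x ∈ (b.val : Set (I → Bool)) ↔ x ∈ (∅ : Set (I → Bool))
        exact ⟨fun h => (hcon ⟨x, h⟩).elim, fun h => (Set.notMem_empty x h).elim⟩
      obtain ⟨x, hx⟩ := hne
      obtain ⟨s, hs⟩ := cohen_cyl_sub _ b.val.isOpen x hx
      have hreg : Heyting.IsRegular (⟨{y : I → Bool | ∀ j ∈ s, y j = x j},
          cohen_cyl_open s x⟩ : Opens (I → Bool)) :=
        cohen_regular _ _ (cohen_cyl_open s x) (cohen_cyl_compl_open s x) (fun _ => Iff.rfl)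
      refine ⟨⟨_, hreg⟩, ?_, ?_, ?_⟩
      · intro h
        have h1 : (⟨{y : I → Bool | ∀ j ∈ s, y j = x j}, cohen_cyl_open s x⟩ :
            Opens (I → Bool)) = ⊥ := congrArg Heyting.Regular.val h
        have h2 : x ∈ ((⟨{y : I → Bool | ∀ j ∈ s, y j = x j}, cohen_cyl_open s x⟩ :
            Opens (I → Bool)) : Set (I → Bool)) := fun j _ => rfl
        rw [h1] at h2
        exact h2
      · exact fun y hy => hs hy
      · refine s.finite_toSet.subset fun i hi => ?_
        by_contra his
        apply hi
        apply Heyting.Regular.coe_injective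
        ext y
        show (∀ j ∈ s, cohen_T i y j = x j) ↔ ∀ j ∈ s, y j = x j
        have h1 : ∀ j ∈ s, cohen_T i y j = y j := by
          intro j hj
          have hji : j ≠ i := fun h => his (h ▸ hj)
          exact Function.update_of_ne hji _ _
        exact ⟨fun h j hj => (h1 j hj) ▸ h j hj, fun h j hj => (h1 j hj).trans (h j hj)⟩
    ccc := by
      intro S hS hdis
      refine Set.PairwiseDisjoint.countable_of_isOpen
        (s := fun b : Heyting.Regular (Opens (I → Bool)) => (b.val : Set (I → Bool)))
        ?_ (fun b _ => b.val.isOpen) ?_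
      · intro a ha b hb hab
        have h1 := congrArg Heyting.Regular.val (hdis a ha b hb hab)
        have h2 : a.val ⊓ b.val = ⊥ := h1
        show Disjoint (a.val : Set (I → Bool)) (b.val : Set (I → Bool))
        rw [Set.disjoint_iff]
        intro x hx
        have h3 : x ∈ ((a.val ⊓ b.val : Opens (I → Bool)) : Set (I → Bool)) := hx
        rw [h2] at h3
        exact h3
      · intro b hb
        by_contra hcon
        apply hS
        have : b = ⊥ := by
          apply Heyting.Regular.coe_injective
          ext x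
          show x ∈ (b.val : Set (I → Bool)) ↔ x ∈ (∅ : Set (I → Bool))
          exact ⟨fun h => (hcon ⟨x, h⟩).elim, fun h => (Set.notMem_empty x h).elim⟩
        rw [← this]
        exact hb
    nontriv := by
      intro h
      have h1 : (⊥ : Opens (I → Bool)) = ⊤ := congrArg Heyting.Regular.val h
      have h2 : (fun _ => true : I → Bool) ∈ ((⊤ : Opens (I → Bool)) : Set (I → Bool)) := trivial
      rw [← h1] at h2
      exact h2 }

theorem exists_cohen (I : Type) (r : I → ℕ → Bool) (hr : Function.Injective r) :
    ∃ (B : Type) (_ : CompleteBooleanAlgebra B), Nonempty (CohenAlg I B) :=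
  ⟨_, cohen_cba (I → Bool), cohen_nonempty I r hr⟩

end Pool.Agent.BVM
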