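import Pool.Agent.Lib_BVM.Uf

/-! # Piece NW2: countable supports and a ground model set splitting a sequence of pairs -/

namespace Pool.Agent.BVM

variable {B : Type} [CompleteBooleanAlgebra B] {I : Type}

/-- countable supports: for every countable set `S` there is a countable set `Q` of nonzero
elements which is dense below every nonzero infimum of elements of `S` -/
def CSupp (B : Type) [CompleteBooleanAlgebra B] : Prop :=
  ∀ S : Set B, S.Countable → ∃ Q : Set B, Q.Countable ∧ ⊥ ∉ Q ∧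
    ∀ T : Set B, T ⊆ S → sInf T ≠ ⊥ → ∃ q ∈ Q, q ≤ sInf T

/-- the finset of all coordinates of the pairs chosen before `n` -/
def nw2_st [DecidableEq I] (F : ℕ → Finset I → I × I) : ℕ → Finset I
  | 0 => ∅
  | n + 1 => insert (F n (nw2_st F n)).1 (insert (F n (nw2_st F n)).2 (nw2_st F n))

theorem nw2_mono [DecidableEq I] (F : ℕ → Finset I → I × I) {k n : ℕ} (h : k ≤ n) :
    nw2_st F k ⊆ nw2_st F n := by
  induction n, h using Nat.le_induction with
  | base => exact Finset.Subset.refl _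
  | succ n _ ih =>
    intro x hx
    rw [nw2_st]
    exact Finset.mem_insert_of_mem (Finset.mem_insert_of_mem (ih hx))

theorem nw2_fst [DecidableEq I] (F : ℕ → Finset I → I × I) {k n : ℕ} (h : k < n) :
    (F k (nw2_st F k)).1 ∈ nw2_st F n := by
  refine nw2_mono F h ?_
  rw [nw2_st]
  exact Finset.mem_insert_self _ _

theorem nw2_snd [DecidableEq I] (F : ℕ → Finset I → I × I) {k n : ℕ} (h : k < n) :
    (F k (nw2_st F k)).2 ∈ nw2_st F n := by
  refine nw2_mono F h ?_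
  rw [nw2_st]
  exact Finset.mem_insert_of_mem (Finset.mem_insert_self _ _)

theorem exists_split (hS : CSupp B) (P : Set (I × I)) (hP : P.Countable)
    (hne : ∀ p ∈ P, p.1 ≠ p.2) (m : I → I → B) (c : B)
    (h : ∀ s : Finset I, c ≤ ⨆ p : {p : I × I // p ∈ P ∧ p.1 ∉ s ∧ p.2 ∉ s}, m p.1.1 p.1.2) :
    ∃ D : Set I, ∀ s : Finset I,
      c ≤ ⨆ p : {p : I × I // p.1 ∈ D ∧ p.2 ∉ D ∧ p.2 ∉ s}, m p.1.1 p.1.2 := by
  classical
  obtain ⟨Q, hQc, hQ0, hQ⟩ := hS (insert c ((fun p : I × I => (m p.1 p.2)ᶜ) '' P))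
    ((hP.image _).insert c)
  set Q' : Set B := {q | q ∈ Q ∧ q ≤ c} with hQ'
  have hQ'c : Q'.Countable := hQc.mono fun q hq => hq.1
  by_cases hemp : Q' = ∅
  · refine ⟨∅, fun s => ?_⟩
    have hc : c = ⊥ := by
      by_contra hc
      have h1 : sInf ({c} : Set B) ≠ ⊥ := by rwa [sInf_singleton]
      obtain ⟨q, hq, hqc⟩ := hQ {c} (by
        intro x hx
        rw [Set.mem_singleton_iff] at hx
        rw [hx]
        exact Set.mem_insert _ _) h1
      rw [sInf_singleton] at hqc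
      have : q ∈ Q' := ⟨hq, hqc⟩
      rw [hemp] at this
      exact this
    rw [hc]
    exact bot_le
  obtain ⟨q, hq⟩ := hQ'c.exists_eq_range (Set.nonempty_iff_ne_empty.2 hemp)
  have hqm : ∀ n, q n ∈ Q' := fun n => by
    rw [hq]
    exact Set.mem_range_self n
  have key : ∀ (n : ℕ) (s : Finset I), ∃ p : I × I, p ∈ P ∧ p.1 ∉ s ∧ p.2 ∉ s ∧
      q n.unpair.1 ⊓ m p.1 p.2 ≠ ⊥ := by
    intro n s
    by_contra hcon
    push Not at hcon
    have h1 : q n.unpair.1 ≤ q n.unpair.1 ⊓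
        ⨆ p : {p : I × I // p ∈ P ∧ p.1 ∉ s ∧ p.2 ∉ s}, m p.1.1 p.1.2 :=
      le_inf le_rfl ((hqm _).2.trans (h s))
    rw [inf_iSup_eq] at h1
    have h2 : (⨆ p : {p : I × I // p ∈ P ∧ p.1 ∉ s ∧ p.2 ∉ s},
        q n.unpair.1 ⊓ m p.1.1 p.1.2) = ⊥ :=
      iSup_eq_bot.2 fun p => hcon p.1 p.2.1 p.2.2.1 p.2.2.2
    rw [h2, le_bot_iff] at h1
    exact hQ0 (h1 ▸ (hqm _).1)
  choose F hF1 hF2 hF3 hF4 using key
  set p : ℕ → I × I := fun n => F n (nw2_st F n) with hp
  refine ⟨Set.range fun n => (p n).1, fun s => ?_⟩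
  have hpD : ∀ n, (p n).2 ∉ Set.range fun n => (p n).1 := by
    rintro n ⟨k, hk⟩
    rcases lt_trichotomy k n with h1 | h1 | h1
    · have h2 := nw2_fst F h1
      have h3 : (p k).1 = (p n).2 := hk
      exact hF3 n (nw2_st F n) (h3 ▸ h2)
    · subst h1
      exact hne _ (hF1 k (nw2_st F k)) hk
    · have h2 := nw2_snd F h1
      have h3 : (p k).1 = (p n).2 := hk
      exact hF2 k (nw2_st F k) (by
        show (p k).1 ∈ _
        rw [h3]
        exact h2)
  have hinj : Function.Injective fun n => (p n).2 := by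
    intro k n hkn
    have hkn' : (p k).2 = (p n).2 := hkn
    rcases lt_trichotomy k n with h1 | h1 | h1
    · have h2 : (p k).2 ∈ nw2_st F n := nw2_snd F h1
      rw [hkn'] at h2
      exact (hF3 n _ h2).elim
    · exact h1
    · have h2 : (p n).2 ∈ nw2_st F k := nw2_snd F h1
      rw [← hkn'] at h2
      exact (hF3 k _ h2).elim
  by_contra hcon
  set D : Set I := Set.range fun n => (p n).1 with hD
  set T : Set B := insert c ((fun p : I × I => (m p.1 p.2)ᶜ) ''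
    {p | p ∈ P ∧ p.1 ∈ D ∧ p.2 ∉ D ∧ p.2 ∉ s}) with hT
  have hTS : T ⊆ insert c ((fun p : I × I => (m p.1 p.2)ᶜ) '' P) :=
    Set.insert_subset_insert (Set.image_mono fun p hp => hp.1)
  have hTle : c ⊓ (⨆ p : {p : I × I // p.1 ∈ D ∧ p.2 ∉ D ∧ p.2 ∉ s}, m p.1.1 p.1.2)ᶜ ≤ sInf T := by
    refine le_sInf fun x hx => ?_
    rcases hx with rfl | ⟨r, hr, rfl⟩
    · exact inf_le_left
    · refine inf_le_right.trans (compl_le_compl ?_)
      exact le_iSup (fun p : {p : I × I // p.1 ∈ D ∧ p.2 ∉ D ∧ p.2 ∉ s} => m p.1.1 p.1.2)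
        ⟨r, hr.2⟩
  have hTne : sInf T ≠ ⊥ := by
    intro h0
    rw [h0, le_bot_iff] at hTle
    apply hcon
    have h1 := le_compl_iff_disjoint_right.2 (disjoint_iff.2 hTle)
    rwa [compl_compl] at h1
  obtain ⟨q₀, hq₀, hq₀T⟩ := hQ T hTS hTne
  have hq₀' : q₀ ∈ Q' := ⟨hq₀, hq₀T.trans (sInf_le (Set.mem_insert _ _))⟩
  rw [hq] at hq₀'
  obtain ⟨k, hk⟩ := hq₀'
  have hex : ∃ l : ℕ, (p (Nat.pair k l)).2 ∉ s := by
    by_contra hall
    push Not at hall
    have h1 : Function.Injective fun l : ℕ => (p (Nat.pair k l)).2 := by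
      intro l l' hl
      exact (Nat.pair_eq_pair.1 (hinj hl)).2
    exact (Set.infinite_of_injective_forall_mem h1 (s := (↑s : Set I)) hall) s.finite_toSet
  obtain ⟨l, hl⟩ := hex
  set n := Nat.pair k l with hn
  have hun : n.unpair.1 = k := by rw [hn, Nat.unpair_pair]
  have h1 := hF4 n (nw2_st F n)
  rw [hun, hk] at h1
  apply h1
  have h2 : q₀ ≤ (m (p n).1 (p n).2)ᶜ :=
    hq₀T.trans (sInf_le (Set.mem_insert_of_mem _ ⟨p n, ⟨hF1 n _, ⟨n, rfl⟩, hpD n, hl⟩, rfl⟩))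
  exact disjoint_iff.1 (le_compl_iff_disjoint_right.1 h2)

end Pool.Agent.BVM
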