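import Pool.Agent.Lib_BVM.Af

/-! # Piece NW4: countable suprema and reduction to countable sets -/

namespace Pool.Agent.BVM

variable {B : Type} [CompleteBooleanAlgebra B]

/-- under the countable chain condition every supremum is a countable supremum -/
theorem CCC.countable_sup (hB : CCC B) {J : Type} (a : J → B) :
    ∃ K : Set J, K.Countable ∧ ⨆ j, a j ≤ ⨆ j : {j : J // j ∈ K}, a j.1 := by
  classical
  obtain ⟨_, _⟩ := exists_wellFoundedLT J
  set a' : J → B := fun j => a j ⊓ (⨆ k : {k : J // k < j}, a k.1)ᶜ with ha'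
  have hdis : ∀ i j, i < j → a' i ⊓ a' j = ⊥ := by
    intro i j hij
    have h1 : a' i ≤ ⨆ k : {k : J // k < j}, a k.1 :=
      inf_le_left.trans (le_iSup (fun k : {k : J // k < j} => a k.1) ⟨i, hij⟩)
    have h2 : a' j ≤ (⨆ k : {k : J // k < j}, a k.1)ᶜ := inf_le_right
    exact le_bot_iff.1 ((inf_le_inf h1 h2).trans inf_compl_eq_bot.le)
  have hc := hB.countable_of_disjoint a' fun i j hij => by
    rcases lt_or_gt_of_ne hij with h | h
    · exact hdis i j h
    · rw [inf_comm]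
      exact hdis j i h
  refine ⟨{j | a' j ≠ ⊥}, hc, iSup_le fun j => ?_⟩
  induction j using WellFoundedLT.induction with
  | ind j ih =>
    have h1 : a j ≤ a' j ⊔ ⨆ k : {k : J // k < j}, a k.1 := by
      rw [ha']
      refine le_of_uf fun V hV => ?_
      rw [UF.sup_mem, UF.inf_mem, UF.compl_mem]
      by_cases h : (⨆ k : {k : J // k < j}, a k.1) ∈ V
      · exact Or.inr h
      · exact Or.inl ⟨hV, h⟩
    refine h1.trans (sup_le ?_ (iSup_le fun k => ih k.1 k.2))
    by_cases h2 : a' j = ⊥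
    · rw [h2]
      exact bot_le
    · exact inf_le_left.trans (le_iSup (fun j : {j : J // j ∈ {j | a' j ≠ ⊥}} => a j.1) ⟨j, h2⟩)

/-- a countable set closed under a function from finite sets to countable sets -/
theorem nw4_closure {I : Type} (G : Finset I → Set I) (hG : ∀ s, (G s).Countable) :
    ∃ K : Set I, K.Countable ∧ ∀ s : Finset I, (↑s : Set I) ⊆ K → G s ⊆ K := by
  classical
  obtain ⟨Kn, hK0, hKs⟩ : ∃ Kn : ℕ → Set I, Kn 0 = ∅ ∧ ∀ n, Kn (n + 1) =
      Kn n ∪ ⋃ t : Finset {i : I // i ∈ Kn n}, G (t.map ⟨Subtype.val, Subtype.val_injective⟩) :=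
    ⟨fun n => Nat.rec ∅ (fun _ S =>
      S ∪ ⋃ t : Finset {i : I // i ∈ S}, G (t.map ⟨Subtype.val, Subtype.val_injective⟩)) n,
      rfl, fun n => rfl⟩
  have hKc : ∀ n, (Kn n).Countable := by
    intro n
    induction n with
    | zero =>
      rw [hK0]
      exact Set.countable_empty
    | succ n ih =>
      rw [hKs]
      haveI : Countable {i : I // i ∈ Kn n} := ih.to_subtype
      exact ih.union (Set.countable_iUnion fun t => hG _)
  have hmono : Monotone Kn := monotone_nat_of_le_succ fun n => by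
    rw [hKs]
    exact Set.subset_union_left
  refine ⟨⋃ n, Kn n, Set.countable_iUnion hKc, fun s hs => ?_⟩
  have h1 : ∃ n, (↑s : Set I) ⊆ Kn n := by
    induction s using Finset.induction_on with
    | empty => exact ⟨0, by simp⟩
    | insert a s _ ih =>
      rw [Finset.coe_insert, Set.insert_subset_iff] at hs
      obtain ⟨n, hn⟩ := ih hs.2
      obtain ⟨k, hk⟩ := Set.mem_iUnion.1 hs.1
      refine ⟨max n k, ?_⟩
      rw [Finset.coe_insert, Set.insert_subset_iff]
      exact ⟨hmono (le_max_right _ _) hk, hn.trans (hmono (le_max_left _ _))⟩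
  obtain ⟨n, hn⟩ := h1
  refine Set.Subset.trans ?_ (Set.subset_iUnion Kn (n + 1))
  rw [hKs]
  refine Set.Subset.trans ?_ Set.subset_union_right
  have h2 : (s.subtype (· ∈ Kn n)).map ⟨Subtype.val, Subtype.val_injective⟩ = s := by
    ext i
    simp only [Finset.mem_map, Finset.mem_subtype, Function.Embedding.coeFn_mk, Subtype.exists,
      exists_and_right, exists_eq_right]
    exact ⟨fun ⟨_, h⟩ => h, fun h => ⟨hn h, h⟩⟩
  have h3 := Set.subset_iUnion
    (fun t : Finset {i : I // i ∈ Kn n} => G (t.map ⟨Subtype.val, Subtype.val_injective⟩))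
    (s.subtype (· ∈ Kn n))
  simp only [h2] at h3
  exact h3

/-- a set meeting every countable ground model set in a finite set is finite -/
theorem CCC.reduce (hB : CCC B) {I : Type} (A : I → B) (b : B)
    (h : ∀ K : Set I, K.Countable → b ≤ af (fun i => ⨅ _ : i ∈ K, (A i)ᶜ)) :
    b ≤ af (fun i => (A i)ᶜ) := by
  classical
  set c : B := b ⊓ (af (fun i => (A i)ᶜ))ᶜ with hc
  have h1 : ∀ s : Finset I, c ≤ ⨆ i : {i : I // i ∉ s}, A i.1 := by
    intro s
    have h2 : (⨅ i : {i : I // i ∉ s}, (A i.1)ᶜ) ≤ af (fun i => (A i)ᶜ) :=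
      le_iSup (fun s : Finset I => ⨅ i : {i : I // i ∉ s}, (A i.1)ᶜ) s
    have h3 := compl_le_compl h2
    rw [compl_iInf] at h3
    simp only [compl_compl] at h3
    exact inf_le_right.trans h3
  have h2 : ∀ s : Finset I, ∃ K : Set I, K.Countable ∧
      c ≤ ⨆ i : {i : I // i ∈ K ∧ i ∉ s}, A i.1 := by
    intro s
    obtain ⟨K, hK, hK'⟩ := hB.countable_sup (fun i : {i : I // i ∉ s} => A i.1)
    refine ⟨Subtype.val '' K, hK.image _, (h1 s).trans (hK'.trans (iSup_le fun i => ?_))⟩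
    exact le_iSup (fun i : {i : I // i ∈ Subtype.val '' K ∧ i ∉ s} => A i.1)
      ⟨i.1.1, ⟨i.1, i.2, rfl⟩, i.1.2⟩
  choose G hGc hG using h2
  obtain ⟨K, hKc, hK⟩ := nw4_closure G hGc
  have h3 : c ⊓ af (fun i => ⨅ _ : i ∈ K, (A i)ᶜ) = ⊥ := by
    apply af_inf_eq_bot
    intro s
    set s' : Finset I := s.filter (· ∈ K) with hs'
    have hs'K : (↑s' : Set I) ⊆ K := fun i hi => (Finset.mem_filter.1 (Finset.mem_coe.1 hi)).2
    refine (hG s').trans (iSup_le fun i => ?_)
    have hiK : i.1 ∈ K := hK s' hs'K i.2.1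
    have his : i.1 ∉ s := fun hi => i.2.2 (Finset.mem_filter.2 ⟨hi, hiK⟩)
    refine le_trans ?_ (le_iSup (fun i : {i : I // i ∉ s} => (⨅ _ : i.1 ∈ K, (A i.1)ᶜ)ᶜ)
      ⟨i.1, his⟩)
    show A i.1 ≤ (⨅ _ : i.1 ∈ K, (A i.1)ᶜ)ᶜ
    rw [iInf_pos hiK, compl_compl]
  have h4 : c ≤ af (fun i => ⨅ _ : i ∈ K, (A i)ᶜ) := inf_le_left.trans (h K hKc)
  rw [inf_eq_left.2 h4] at h3
  have h5 := le_compl_iff_disjoint_right.2 (disjoint_iff.2 (hc ▸ h3))
  rwa [compl_compl] at h5

end Pool.Agent.BVM
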