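import Pool.Agent.Lib_BVM.Cohen
import Pool.Agent.Lib_BVM.Nw2
import Pool.Agent.Lib_BVM.Nw4

/-! # Piece COHEN2: countable supports in the Cohen algebra -/

namespace Pool.Agent.BVM

open TopologicalSpace

/-- translation by `h` -/
def cohen2_T {I : Type} (h : I → Bool) (x : I → Bool) : I → Bool := fun i => xor (x i) (h i)

theorem cohen2_T_cont {I : Type} (h : I → Bool) : Continuous (cohen2_T h) := by
  refine continuous_pi fun i => ?_
  exact (continuous_of_discreteTopology (f := fun b : Bool => xor b (h i))).comp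
    (continuous_apply i : Continuous fun p : I → Bool => p i)

theorem cohen2_TT {I : Type} (h : I → Bool) (x : I → Bool) :
    cohen2_T h (cohen2_T h x) = x := by
  funext i
  simp [cohen2_T]

/-- translation acting on the algebra -/
def cohen2_P {I : Type} (h : I → Bool) :
    Heyting.Regular (Opens (I → Bool)) ≃o Heyting.Regular (Opens (I → Bool)) :=
  cohen_lift (cohen_opens (cohen2_T h) (cohen2_T_cont h) (cohen2_TT h))

theorem cohen2_mem {I : Type} (h : I → Bool) (b : Heyting.Regular (Opens (I → Bool)))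
    (x : I → Bool) : x ∈ ((cohen2_P h b).val : Set (I → Bool)) ↔
      cohen2_T h x ∈ (b.val : Set (I → Bool)) := Iff.rfl

theorem cohen2_open {I : Type} (t : Finset (I × Bool)) :
    IsOpen {y : I → Bool | ∀ p ∈ t, y p.1 = p.2} := by
  have h : {y : I → Bool | ∀ p ∈ t, y p.1 = p.2} = ⋂ p ∈ t, {y | y p.1 = p.2} := by
    ext y; simp
  rw [h]
  refine isOpen_biInter_finset fun p _ => ?_
  exact (isOpen_discrete ({p.2} : Set Bool)).preimage
    (continuous_apply p.1 : Continuous fun x : I → Bool => x p.1)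

theorem cohen2_compl_open {I : Type} (t : Finset (I × Bool)) :
    IsOpen {y : I → Bool | ¬ ∀ p ∈ t, y p.1 = p.2} := by
  have h : {y : I → Bool | ¬ ∀ p ∈ t, y p.1 = p.2} = ⋃ p ∈ t, {y | y p.1 ≠ p.2} := by
    ext y
    simp only [Set.mem_setOf_eq, not_forall, Set.mem_iUnion, ne_eq]
  rw [h]
  refine isOpen_biUnion fun p _ => ?_
  exact (isOpen_discrete ({p.2}ᶜ : Set Bool)).preimage
    (continuous_apply p.1 : Continuous fun x : I → Bool => x p.1)

/-- the cylinder of a finite set of conditions -/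
def cohen2_q {I : Type} (t : Finset (I × Bool)) : Heyting.Regular (Opens (I → Bool)) :=
  ⟨⟨{y : I → Bool | ∀ p ∈ t, y p.1 = p.2}, cohen2_open t⟩,
    cohen_regular _ _ (cohen2_open t) (cohen2_compl_open t) fun _ => Iff.rfl⟩

theorem cohen2_mem_q {I : Type} (t : Finset (I × Bool)) (x : I → Bool) :
    x ∈ ((cohen2_q t).val : Set (I → Bool)) ↔ ∀ p ∈ t, x p.1 = p.2 := Iff.rfl

theorem cohen2_le {I : Type} (a b : Heyting.Regular (Opens (I → Bool))) :
    a ≤ b ↔ ∀ x, x ∈ (a.val : Set (I → Bool)) → x ∈ (b.val : Set (I → Bool)) := Iff.rfl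

theorem cohen2_ne_bot {I : Type} (b : Heyting.Regular (Opens (I → Bool))) :
    b ≠ ⊥ ↔ ∃ x, x ∈ (b.val : Set (I → Bool)) := by
  constructor
  · intro hb
    by_contra hcon
    apply hb
    apply Heyting.Regular.coe_injective
    ext x
    show x ∈ (b.val : Set (I → Bool)) ↔ x ∈ (∅ : Set (I → Bool))
    exact ⟨fun h => (hcon ⟨x, h⟩).elim, fun h => (Set.notMem_empty x h).elim⟩
  · rintro ⟨x, hx⟩ rfl
    exact hx

theorem cohen2_dense {I : Type} (b : Heyting.Regular (Opens (I → Bool))) (x : I → Bool)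
    (hx : x ∈ (b.val : Set (I → Bool))) : ∃ s : Finset I,
      ∀ y : I → Bool, (∀ j ∈ s, y j = x j) → y ∈ (b.val : Set (I → Bool)) := by
  obtain ⟨s, hs⟩ := cohen_cyl_sub _ b.val.isOpen x hx
  exact ⟨s, fun y hy => hs hy⟩

/-- `b` depends only on the coordinates in `J` -/
def Cohen2Supp {I : Type} (J : Set I) (b : Heyting.Regular (Opens (I → Bool))) : Prop :=
  ∀ h : I → Bool, (∀ i ∈ J, h i = false) → cohen2_P h b = b

theorem cohen2_supp_q {I : Type} (J : Set I) (t : Finset (I × Bool)) (ht : ∀ p ∈ t, p.1 ∈ J) :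
    Cohen2Supp J (cohen2_q t) := by
  intro h hh
  apply Heyting.Regular.coe_injective
  ext x
  show (∀ p ∈ t, cohen2_T h x p.1 = p.2) ↔ ∀ p ∈ t, x p.1 = p.2
  refine forall₂_congr fun p hp => ?_
  rw [cohen2_T, hh p.1 (ht p hp), Bool.xor_false]

theorem cohen2_supp_mono {I : Type} {J J' : Set I} (hJ : J ⊆ J')
    {b : Heyting.Regular (Opens (I → Bool))} (hb : Cohen2Supp J b) : Cohen2Supp J' b :=
  fun h hh => hb h fun i hi => hh i (hJ hi)

theorem cohen2_exists_supp {I : Type} (hB : @CCC (Heyting.Regular (Opens (I → Bool)))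
    (cohen_cba (I → Bool))) (b : Heyting.Regular (Opens (I → Bool))) :
    ∃ J : Set I, J.Countable ∧ Cohen2Supp J b := by
  classical
  let _ := cohen_cba (I → Bool)
  obtain ⟨K, hK, hKb⟩ := hB.countable_sup
    (fun t : {t : Finset (I × Bool) // cohen2_q t ≤ b} => cohen2_q t.1)
  have h1 : b ≤ ⨆ t : {t : Finset (I × Bool) // cohen2_q t ≤ b}, cohen2_q t.1 := by
    by_contra hcon
    have h2 : b ⊓ (⨆ t : {t : Finset (I × Bool) // cohen2_q t ≤ b}, cohen2_q t.1)ᶜ ≠ ⊥ := by
      intro h0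
      apply hcon
      have h3 := le_compl_iff_disjoint_right.2 (disjoint_iff.2 h0)
      rwa [compl_compl] at h3
    obtain ⟨x, hx⟩ := (cohen2_ne_bot _).1 h2
    obtain ⟨s, hs⟩ := cohen2_dense _ x hx
    set t : Finset (I × Bool) := s.image fun j => (j, x j) with ht
    have h4 : cohen2_q t ≤ b ⊓ (⨆ t : {t : Finset (I × Bool) // cohen2_q t ≤ b},
        cohen2_q t.1)ᶜ := by
      rw [cohen2_le]
      intro y hy
      refine hs y fun j hj => ?_
      exact (cohen2_mem_q t y).1 hy (j, x j) (Finset.mem_image_of_mem _ hj)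
    have h5 : cohen2_q t ≤ ⨆ t : {t : Finset (I × Bool) // cohen2_q t ≤ b}, cohen2_q t.1 :=
      le_iSup (fun t : {t : Finset (I × Bool) // cohen2_q t ≤ b} => cohen2_q t.1)
        ⟨t, h4.trans inf_le_left⟩
    have h6 : cohen2_q t = ⊥ := by
      refine le_bot_iff.1 ((le_inf h5 (h4.trans inf_le_right)).trans ?_)
      rw [inf_compl_eq_bot]
    refine (cohen2_ne_bot _).2 ⟨x, ?_⟩ h6
    rw [cohen2_mem_q]
    intro p hp
    obtain ⟨j, _, rfl⟩ := Finset.mem_image.1 hp
    rfl
  refine ⟨⋃ t ∈ K, {i | ∃ p ∈ t.1, p.1 = i}, hK.biUnion fun t _ => ?_, ?_⟩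
  · refine Set.Finite.countable ((t.1.image Prod.fst).finite_toSet.subset ?_)
    rintro i ⟨p, hp, rfl⟩
    exact Finset.mem_coe.2 (Finset.mem_image_of_mem _ hp)
  · have h7 : b = ⨆ t : {t : {t : Finset (I × Bool) // cohen2_q t ≤ b} // t ∈ K},
        cohen2_q t.1.1 :=
      le_antisymm (h1.trans hKb) (iSup_le fun t => t.1.2)
    intro h hh
    have h8 : cohen2_P h (⨆ t : {t : {t : Finset (I × Bool) // cohen2_q t ≤ b} // t ∈ K},
        cohen2_q t.1.1) = ⨆ t : {t : {t : Finset (I × Bool) // cohen2_q t ≤ b} // t ∈ K},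
        cohen2_q t.1.1 := by
      rw [OrderIso.map_iSup]
      refine iSup_congr fun t => ?_
      refine cohen2_supp_q _ t.1.1 (fun p hp => ?_) h hh
      exact Set.mem_biUnion t.2 ⟨p, hp, rfl⟩
    rw [← h7] at h8
    exact h8

theorem cohen2_csupp {I : Type} (hB : @CCC (Heyting.Regular (Opens (I → Bool)))
    (cohen_cba (I → Bool))) :
    @CSupp (Heyting.Regular (Opens (I → Bool))) (cohen_cba (I → Bool)) := by
  classical
  let _ := cohen_cba (I → Bool)
  intro S hS
  choose J hJc hJ using cohen2_exists_supp hB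
  set JS : Set I := ⋃ b ∈ S, J b with hJS
  have hJSc : JS.Countable := hS.biUnion fun b _ => hJc b
  have hcount : Countable {p : I × Bool // p.1 ∈ JS} := by
    have h1 : ({p : I × Bool | p.1 ∈ JS} : Set (I × Bool)) = JS ×ˢ Set.univ := by
      ext p; simp
    have h2 : ({p : I × Bool | p.1 ∈ JS} : Set (I × Bool)).Countable := by
      rw [h1]
      exact hJSc.prod Set.countable_univ
    exact h2.to_subtype
  refine ⟨{q | q ≠ ⊥ ∧ ∃ t : Finset {p : I × Bool // p.1 ∈ JS},
    q = cohen2_q (t.map ⟨Subtype.val, Subtype.val_injective⟩)}, ?_, fun h => h.1 rfl, ?_⟩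
  · refine (Set.countable_range fun t : Finset {p : I × Bool // p.1 ∈ JS} =>
      cohen2_q (t.map ⟨Subtype.val, Subtype.val_injective⟩)).mono ?_
    rintro q ⟨-, t, rfl⟩
    exact ⟨t, rfl⟩
  · intro T hT hne
    have hsupp : Cohen2Supp JS (sInf T) := by
      intro h hh
      rw [OrderIso.map_sInf]
      have h1 : ∀ a ∈ T, cohen2_P h a = a := fun a ha =>
        hJ a h fun i hi => hh i (Set.mem_biUnion (hT ha) hi)
      rw [sInf_eq_iInf]
      exact iInf_congr fun a => iInf_congr fun ha => h1 a ha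
    obtain ⟨x, hx⟩ := (cohen2_ne_bot _).1 hne
    obtain ⟨s, hs⟩ := cohen2_dense _ x hx
    set t : Finset {p : I × Bool // p.1 ∈ JS} :=
      (s.image fun j => (j, x j)).subtype (fun p => p.1 ∈ JS) with ht
    have htm : ∀ p : I × Bool, p ∈ t.map ⟨Subtype.val, Subtype.val_injective⟩ ↔
        p.1 ∈ JS ∧ p.1 ∈ s ∧ p.2 = x p.1 := by
      intro p
      rw [Finset.mem_map]
      constructor
      · rintro ⟨⟨r, hr⟩, hrt, rfl⟩
        rw [ht, Finset.mem_subtype, Finset.mem_image] at hrt
        obtain ⟨j, hj, hjr⟩ := hrt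
        have hjr' : (j, x j) = r := hjr
        refine ⟨hr, ?_, ?_⟩
        · show r.1 ∈ s
          rw [← hjr']
          exact hj
        · show r.2 = x r.1
          rw [← hjr']
      · rintro ⟨h1, h2, h3⟩
        refine ⟨⟨p, h1⟩, ?_, rfl⟩
        rw [ht, Finset.mem_subtype, Finset.mem_image]
        exact ⟨p.1, h2, by rw [← h3]⟩
    refine ⟨cohen2_q (t.map ⟨Subtype.val, Subtype.val_injective⟩), ⟨?_, t, rfl⟩, ?_⟩
    · refine (cohen2_ne_bot _).2 ⟨x, ?_⟩
      rw [cohen2_mem_q]
      intro p hp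
      exact ((htm p).1 hp).2.2.symm
    · rw [cohen2_le]
      intro z hz
      rw [cohen2_mem_q] at hz
      set z' : I → Bool := fun j => if j ∈ JS then z j else x j with hz'
      have hz'm : z' ∈ ((sInf T : Heyting.Regular (Opens (I → Bool))).val : Set (I → Bool)) := by
        refine hs z' fun j hj => ?_
        by_cases hjJ : j ∈ JS
        · have h1 := hz (j, x j) ((htm (j, x j)).2 ⟨hjJ, hj, rfl⟩)
          simp only [hz', if_pos hjJ]
          exact h1
        · simp only [hz', if_neg hjJ]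
      set h : I → Bool := fun j => xor (z j) (z' j) with hh
      have hh0 : ∀ i ∈ JS, h i = false := by
        intro i hi
        simp only [hh, hz', if_pos hi, Bool.xor_self]
      have h1 := hsupp h hh0
      rw [← h1, cohen2_mem]
      have h2 : cohen2_T h z = z' := by
        funext j
        simp only [cohen2_T, hh]
        rw [← Bool.xor_assoc, Bool.xor_self, Bool.false_xor]
      rw [h2]
      exact hz'm

theorem exists_cohen2 (I : Type) (r : I → ℕ → Bool) (hr : Function.Injective r) :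
    ∃ (B : Type) (_ : CompleteBooleanAlgebra B), Nonempty (CohenAlg I B) ∧ CSupp B := by
  obtain ⟨C⟩ := cohen_nonempty I r hr
  exact ⟨_, cohen_cba (I → Bool), ⟨C⟩,
    cohen2_csupp (@CohenAlg.ccc I _ (cohen_cba (I → Bool)) C)⟩

end Pool.Agent.BVM
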