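import Pool.Agent.Lib_BVM.Defs

/-! # Piece SETS: ordered pairs and functions in an extensional structure -/

namespace Pool.Agent.BVM

variable {M : Type 1} {E : M → M → Prop}

theorem IsUPair.unique (ext : ∀ x y, (∀ z, E z x ↔ E z y) → x = y) {p q x y : M}
    (hp : IsUPair E p x y) (hq : IsUPair E q x y) : p = q :=
  ext p q fun w => (hp w).trans (hq w).symm

theorem IsOPair.unique (ext : ∀ x y, (∀ z, E z x ↔ E z y) → x = y) {p q x y : M}
    (hp : IsOPair E p x y) (hq : IsOPair E q x y) : p = q :=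
  ext p q fun w => (hp w).trans (hq w).symm

theorem exists_opair (pair : ∀ x y, ∃ z, ∀ w, E w z ↔ w = x ∨ w = y)
    (ext : ∀ x y, (∀ z, E z x ↔ E z y) → x = y) (x y : M) : ∃ p, IsOPair E p x y := by
  obtain ⟨s, hs⟩ := pair x x
  obtain ⟨t, ht⟩ := pair x y
  obtain ⟨p, hp⟩ := pair s t
  refine ⟨p, fun w => ?_⟩
  rw [hp w]
  constructor
  · rintro (rfl | rfl)
    · exact Or.inl hs
    · exact Or.inr ht
  · rintro (h | h)
    · exact Or.inl (IsUPair.unique ext h hs)
    · exact Or.inr (IsUPair.unique ext h ht)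

theorem IsOPair.inj (pair : ∀ x y, ∃ z, ∀ w, E w z ↔ w = x ∨ w = y)
    (ext : ∀ x y, (∀ z, E z x ↔ E z y) → x = y) {p x y x' y' : M}
    (h : IsOPair E p x y) (h' : IsOPair E p x' y') : x = x' ∧ y = y' := by
  have sing : ∀ {w a b : M}, IsUPair E w a b → E a w ∧ E b w := fun {w a b} hw =>
    ⟨(hw a).2 (Or.inl rfl), (hw b).2 (Or.inr rfl)⟩
  obtain ⟨s, hs⟩ := pair x x
  obtain ⟨t, ht⟩ := pair x y
  obtain ⟨t', ht'⟩ := pair x' y'
  have hx : x = x' := by
    have h1 : E s p := (h s).2 (Or.inl hs)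
    rcases (h' s).1 h1 with h2 | h2
    · rcases (hs x').1 (sing h2).1 with h3 | h3
      · exact h3.symm
      · exact h3.symm
    · rcases (hs x').1 (sing h2).1 with h3 | h3
      · exact h3.symm
      · exact h3.symm
  subst hx
  refine ⟨rfl, ?_⟩
  have h1 : E t p := (h t).2 (Or.inr ht)
  have h2 : E t' p := (h' t').2 (Or.inr ht')
  have hyt : E y t := (sing ht).2
  have hy't : E y' t' := (sing ht').2
  have key : y = x → y = y' := by
    intro hyx
    rcases (h t').1 h2 with h3 | h3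
    · rcases (h3 y').1 hy't with h4 | h4
      · exact hyx.trans h4.symm
      · exact hyx.trans h4.symm
    · rcases (h3 y').1 hy't with h4 | h4
      · exact hyx.trans h4.symm
      · exact h4.symm
  rcases (h' t).1 h1 with h3 | h3
  · rcases (h3 y).1 hyt with h4 | h4
    · exact key h4
    · exact key h4
  · rcases (h3 y).1 hyt with h4 | h4
    · exact key h4
    · exact h4

theorem IsFun.mem (pair : ∀ x y, ∃ z, ∀ w, E w z ↔ w = x ∨ w = y)
    (ext : ∀ x y, (∀ z, E z x ↔ E z y) → x = y) {f a b x y : M} (h : IsFun E f a b)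
    (hxy : OMem E f x y) : E x a ∧ E y b := by
  obtain ⟨p, hp, hop⟩ := hxy
  obtain ⟨x', y', hx', hy', hop'⟩ := h.1 p hp
  obtain ⟨rfl, rfl⟩ := IsOPair.inj pair ext hop hop'
  exact ⟨hx', hy'⟩

theorem IsFun.uniq (pair : ∀ x y, ∃ z, ∀ w, E w z ↔ w = x ∨ w = y)
    (ext : ∀ x y, (∀ z, E z x ↔ E z y) → x = y) {f a b x y y' : M} (h : IsFun E f a b)
    (hxy : OMem E f x y) (hxy' : OMem E f x y') : y = y' :=
  (h.2 x (IsFun.mem pair ext h hxy).1).unique hxy hxy'

end Pool.Agent.BVM
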