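import Pool.Agent.Lib_BVM.Omega
import Pool.Agent.Lib_BVM.Af
import Pool.Agent.Lib_BVM.Sets

/-! # Piece CTBL: countable sets in the model -/

namespace Pool.Agent.BVM

variable {B : Type} [CompleteBooleanAlgebra B] {I : Type} [LinearOrder I] [WellFoundedLT I]

/-- an assignment with three given values -/
def ctbl_v {A : Type 1} (x y z : A) : ℕ → A := fun k => if k = 0 then x else if k = 1 then y else z

theorem ctbl_v_map {A A' : Type 1} (g : A → A') (x y z : A) :
    (fun k => g (ctbl_v x y z k)) = ctbl_v (g x) (g y) (g z) := by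
  funext k
  unfold ctbl_v
  split_ifs <;> rfl

/-- the Boolean value of `(x, y) ∈ f` -/
theorem ctbl_omem (B : Type) [CompleteBooleanAlgebra B] : ∃ F : Nm B → Nm B → Nm B → B,
    (∀ (U : UF B) (f x y : Nm B), F f x y ∈ U ↔ OMem (EU U) (nm U f) (nm U x) (nm U y)) ∧
    ∀ f x, Extl (F f x) := by
  obtain ⟨G, hG⟩ := (FDef.oMem 0 1 2).exists_bval (B := B)
  refine ⟨fun f x y => G (ctbl_v f x y), ?_, ?_⟩
  · intro U f x y
    rw [hG]
    have := ctbl_v_map (nm U) f x y
    rfl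
  · intro f x y y'
    apply le_of_uf
    intro U hU
    obtain ⟨h1, h2⟩ := U.inf_mem.1 hU
    rw [← nm_eq] at h1
    have h3 := (hG U _).1 h2
    refine (hG U _).2 ?_
    show OMem (EU U) (nm U f) (nm U x) (nm U y')
    rw [← h1]
    exact h3

/-- Proof. Let `a i n` be the Boolean value of `OMem f (ordN i) (ordN n)` (`n : ℕ`) and
`c i n = b ⊓ D i ⊓ a i n`. For fixed `n` the elements `c i n` are pairwise disjoint (injectivity of
`f` in models with `b ∈ U`), so only countably many are nonzero. And `b ⊓ D i ≤ ⨆ n, a i n`: in a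
model with `b ⊓ D i ∈ U` there is `y ∈ w = setN B ℕ` with `OMem f (ordN i) y`, and
`⨆ y, bmem y (setN B ℕ) ⊓ [OMem f (ordN i) y] = ⨆ n, a i n` (`Extl.iSup_mem`). -/
theorem CCC.inj_countable (hB : CCC B) (w f : Nm B) (D : I → B) (b : B)
    (h : ∀ U : UF B, b ∈ U → IsOmega (EU U) (nm U w) ∧
      IsInj (EU U) (nm U f) (nm U (subN D)) (nm U w)) : {i | b ⊓ D i ≠ ⊥}.Countable := by
  obtain ⟨F, hF, hE⟩ := ctbl_omem B
  have h1 : ∀ n : ℕ, {i : I | b ⊓ D i ⊓ F f (ordN B i) (ordN B n) ≠ ⊥}.Countable := by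
    intro n
    apply hB.countable_of_disjoint
    intro i j hij
    by_contra hne
    obtain ⟨U, hU⟩ := exists_uf hne
    obtain ⟨hi, hj⟩ := U.inf_mem.1 hU
    obtain ⟨hi1, hi2⟩ := U.inf_mem.1 hi
    obtain ⟨hj1, hj2⟩ := U.inf_mem.1 hj
    have hb := (U.inf_mem.1 hi1).1
    obtain ⟨-, -, hinj⟩ := h U hb
    exact hij (nm_ordN_inj U (hinj _ _ _ ((hF U _ _ _).1 hi2) ((hF U _ _ _).1 hj2)))
  have h2 : ∀ i : I, b ⊓ D i ≤ ⨆ n : ℕ, F f (ordN B i) (ordN B n) := by
    intro i
    apply le_of_uf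
    intro U hU
    obtain ⟨hb, hD⟩ := U.inf_mem.1 hU
    obtain ⟨hw, hf, -⟩ := h U hb
    have hx : EU U (nm U (ordN B i)) (nm U (subN D)) := (mem_subN U).2 hD
    obtain ⟨y, hy, -⟩ := hf.2 _ hx
    have hyw := (hf.mem (eu_pair U) (eu_ext U) hy).2
    rw [hw.eq_setN] at hyw
    obtain ⟨y', rfl⟩ := nm_surj U y
    have h3 : bmem y' (setN B ℕ) ⊓ F f (ordN B i) y' ∈ U :=
      U.inf_mem.2 ⟨(EU_nm U _ _).1 hyw, (hF U _ _ _).2 hy⟩
    have h4 := (hE f (ordN B i)).iSup_mem (ordN B (I := ℕ)) (fun _ => (⊤ : B))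
    simp only [top_inf_eq] at h4
    rw [← h4]
    exact U.mono (le_iSup (fun x => bmem x (setN B ℕ) ⊓ F f (ordN B i) x) y') h3
  refine (Set.countable_iUnion h1).mono ?_
  intro i hi
  by_contra hne
  apply hi
  rw [← inf_eq_left.2 (h2 i), inf_iSup_eq]
  refine iSup_eq_bot.2 fun n => ?_
  by_contra hn
  exact hne (Set.mem_iUnion.2 ⟨n, hn⟩)

/-- from the previous theorem, `b` the Boolean value of `IsOmega w ∧ IsInj f (subN D) w` -/
theorem CCC.ctbl_subN (hB : CCC B) (U : UF B) (D : I → B) (h : Ctbl (EU U) (nm U (subN D))) :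
    ∃ b ∈ U, {i | b ⊓ D i ≠ ⊥}.Countable := by
  obtain ⟨w, f, hw, hf⟩ := h
  obtain ⟨w', rfl⟩ := nm_surj U w
  obtain ⟨f', rfl⟩ := nm_surj U f
  obtain ⟨G, hG⟩ := ((FDef.isOmega 0).and (FDef.isInj 1 2 0)).exists_bval (B := B)
  refine ⟨G (ctbl_v w' f' (subN D)), (hG U _).2 ⟨hw, hf⟩, hB.inj_countable w' f' D _ ?_⟩
  intro U' hU'
  exact (hG U' _).1 hU'

/-- Let `e : {j // j < i} → ℕ` be injective. In every model the name
`mk {j // j < i} (fun j => opN (ordN j) (ordN (e j))) (fun _ => ⊤)` is an injective function from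
`ordN i` to `setN B ℕ` (use `FDef.ball`). -/
theorem ctbl_ordN (U : UF B) (i : I) (h : (Set.Iio i).Countable) :
    Ctbl (EU U) (nm U (ordN B i)) := by
  obtain ⟨e, he⟩ : ∃ e : {j : I // j < i} → ℕ, Function.Injective e := by
    have : Countable {j : I // j < i} := h.to_subtype
    exact ⟨_, (Encodable.ofCountable {j : I // j < i}).encode_injective⟩
  obtain ⟨f, hf⟩ : ∃ f : Nm B, f = .mk {j : I // j < i}
    (fun j => opN (ordN B j.1) (ordN B (e j))) (fun _ => ⊤) := ⟨_, rfl⟩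
  -- elements of f
  have hmem : ∀ (U : UF B) (k : {j : I // j < i}),
      EU U (nm U (opN (ordN B k.1) (ordN B (e k)))) (nm U f) := by
    intro U k
    rw [EU_nm, hf, bmem_mk']
    exact U.iSup_of k (U.inf_mem.2 ⟨U.top_mem, by rw [beq_refl]; exact U.top_mem⟩)
  have hop : ∀ (U : UF B) (k : {j : I // j < i}) (x y : Mod U),
      IsOPair (EU U) (nm U (opN (ordN B k.1) (ordN B (e k)))) x y →
      nm U (ordN B k.1) = x ∧ nm U (ordN B (e k)) = y := fun U k x y hp =>
    (isOPair_opN U _ _).inj (eu_pair U) (eu_ext U) hp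
  -- all elements of f are pairs
  have A1 : ∀ (U : UF B) (p : Mod U), EU U p (nm U f) →
      ∃ x y, EU U x (nm U (ordN B i)) ∧ EU U y (nm U (setN B ℕ)) ∧ IsOPair (EU U) p x y := by
    intro U p hp
    have D1 : FDef (fun M E v => ∃ x : M, ∃ y : M, E x (v 1) ∧ E y (v 2) ∧ IsOPair E (v 0) x y) := by
      have := FDef.ex 3 (FDef.ex 4 ((FDef.mem 3 1).and ((FDef.mem 4 2).and (FDef.isOPair 0 3 4))))
      simpa [Function.update] using this
    have := D1.ball 0 (ctbl_v f (ordN B i) (setN B ℕ))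
      (fun j : {j : I // j < i} => opN (ordN B j.1) (ordN B (e j))) (fun _ => (⊤ : B)) ⊤ ?_ U
      U.top_mem p (hf ▸ hp)
    · simpa [Function.update, ctbl_v] using this
    · intro U' k _ _
      refine ⟨nm U' (ordN B k.1), nm U' (ordN B (e k)), ?_, ?_, ?_⟩
      · show EU U' (nm U' (ordN B k.1)) (nm U' (ordN B i))
        rw [EU_nm, bmem_ordN_ordN, if_pos k.2]
        exact U'.top_mem
      · show EU U' (nm U' (ordN B (e k))) (nm U' (subN fun _ : ℕ => (⊤ : B)))
        rw [mem_subN]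
        exact U'.top_mem
      · exact isOPair_opN U' _ _
  -- uniqueness of the value
  have A2 : ∀ (U : UF B) (k : {j : I // j < i}) (p : Mod U), EU U p (nm U f) →
      ∀ y, IsOPair (EU U) p (nm U (ordN B k.1)) y → y = nm U (ordN B (e k)) := by
    intro U k p hp
    have D2 : FDef (fun M E v => ∀ y : M, IsOPair E (v 0) (v 1) y → y = v 2) := by
      have := FDef.all 3 ((FDef.isOPair 0 1 3).imp (FDef.eq 3 2))
      simpa [Function.update] using this
    have := D2.ball 0 (ctbl_v f (ordN B k.1) (ordN B (e k)))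
      (fun j : {j : I // j < i} => opN (ordN B j.1) (ordN B (e j))) (fun _ => (⊤ : B)) ⊤ ?_ U
      U.top_mem p (hf ▸ hp)
    · simpa [Function.update, ctbl_v] using this
    · intro U' l _ _ y hy
      obtain ⟨h1, h2⟩ := hop U' l _ _ hy
      have h3 : l.1 = k.1 := nm_ordN_inj U' h1
      have h4 : l = k := Subtype.ext h3
      show y = nm U' (ordN B (e k))
      rw [← h2, h4]
  -- injectivity
  have A3 : ∀ (U : UF B) (k : {j : I // j < i}) (p : Mod U), EU U p (nm U f) →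
      ∀ x, IsOPair (EU U) p x (nm U (ordN B (e k))) → x = nm U (ordN B k.1) := by
    intro U k p hp
    have D3 : FDef (fun M E v => ∀ x : M, IsOPair E (v 0) x (v 1) → x = v 2) := by
      have := FDef.all 3 ((FDef.isOPair 0 3 1).imp (FDef.eq 3 2))
      simpa [Function.update] using this
    have := D3.ball 0 (ctbl_v f (ordN B (e k)) (ordN B k.1))
      (fun j : {j : I // j < i} => opN (ordN B j.1) (ordN B (e j))) (fun _ => (⊤ : B)) ⊤ ?_ U
      U.top_mem p (hf ▸ hp)
    · simpa [Function.update, ctbl_v] using this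
    · intro U' l _ _ x hx
      obtain ⟨h1, h2⟩ := hop U' l _ _ hx
      have h4 : l = k := he (nm_ordN_inj U' h2)
      show x = nm U' (ordN B k.1)
      rw [← h1, h4]
  have A4 : ∀ (U : UF B) (p' : Mod U), EU U p' (nm U f) →
      ∀ p, EU U p (nm U f) → ∀ x x' y, IsOPair (EU U) p x y → IsOPair (EU U) p' x' y → x = x' := by
    intro U p' hp'
    have D4 : FDef (fun M E v => ∀ p : M, E p (v 1) → ∀ x x' y : M, IsOPair E p x y →
        IsOPair E (v 0) x' y → x = x') := by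
      have := FDef.all 3 ((FDef.mem 3 1).imp (FDef.all 4 (FDef.all 5 (FDef.all 6
        ((FDef.isOPair 3 4 6).imp ((FDef.isOPair 0 5 6).imp (FDef.eq 4 5)))))))
      simpa [Function.update] using this
    have := D4.ball 0 (ctbl_v f f f)
      (fun j : {j : I // j < i} => opN (ordN B j.1) (ordN B (e j))) (fun _ => (⊤ : B)) ⊤ ?_ U
      U.top_mem p' (hf ▸ hp')
    · simpa [Function.update, ctbl_v] using this
    · intro U' k _ _ p hp x x' y h1 h2
      obtain ⟨h3, h4⟩ := hop U' k _ _ h2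
      rw [← h4] at h1
      rw [← h3]
      exact A3 U' k p hp x h1
  have A5 : ∀ x : Mod U, EU U x (nm U (ordN B i)) → ∃! y, OMem (EU U) (nm U f) x y := by
    intro x hx
    have D5 : FDef (fun M E v => ∃ y : M, OMem E (v 1) (v 0) y ∧
        ∀ z : M, OMem E (v 1) (v 0) z → z = y) := by
      have := FDef.ex 3 ((FDef.oMem 1 0 3).and (FDef.all 4 ((FDef.oMem 1 0 4).imp (FDef.eq 4 3))))
      simpa [Function.update] using this
    have := D5.ball 0 (ctbl_v f f f)
      (fun j : {j : I // j < i} => ordN B j.1) (fun _ => (⊤ : B)) ⊤ ?_ U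
      U.top_mem x (by rw [← ordN_eq]; exact hx)
    · obtain ⟨y, h1, h2⟩ := this
      exact ⟨y, h1, h2⟩
    · intro U' k _ _
      refine ⟨nm U' (ordN B (e k)), ⟨_, hmem U' k, isOPair_opN U' _ _⟩, ?_⟩
      rintro z ⟨p, hp, hz⟩
      exact A2 U' k p hp z hz
  refine ⟨nm U (setN B ℕ), nm U f, isOmega_setN U, ⟨A1 U, A5⟩, ?_⟩
  rintro x x' y ⟨p, hp, h1⟩ ⟨p', hp', h2⟩
  exact A4 U p' hp' p hp x x' y h1 h2

end Pool.Agent.BVM
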