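import Pool.Agent.Lib_BVM.Zfc

/-!
# Boolean valued models of set theory: definitions

`Nm B`: names (Boolean valued sets) over a complete Boolean algebra `B`.
`beq x y`, `bmem x y : B`: Boolean values of `x = y`, `x ∈ y`.
`UF B`: ultrafilters on `B`; `Mod U`: the quotient of the names by an ultrafilter, with its
membership relation `EU U`. `bval φ v`: Boolean value of a formula.
-/

namespace Pool.Agent.BVM

/-! ### Boolean valued models -/

/-- Boolean valued names -/
inductive Nm (B : Type) : Type 1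
  | mk (ι : Type) (a : ι → Nm B) (b : ι → B) : Nm B

section Bval

variable {B : Type} [CompleteBooleanAlgebra B]

/-- the Boolean value of `x = y` -/
noncomputable def beq : Nm B → Nm B → B
  | .mk ι a b, .mk κ c d =>
    (⨅ i : ι, b i ⇨ ⨆ k : κ, d k ⊓ beq (a i) (c k)) ⊓
      (⨅ k : κ, d k ⇨ ⨆ i : ι, b i ⊓ beq (a i) (c k))

/-- the Boolean value of `x ∈ y` -/
noncomputable def bmem (x : Nm B) : Nm B → B
  | .mk κ c d => ⨆ k : κ, d k ⊓ beq x (c k)

/-- the Boolean value of a formula -/
noncomputable def bval : Fml → (ℕ → Nm B) → B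
  | .mem i j, v => bmem (v i) (v j)
  | .eq i j, v => beq (v i) (v j)
  | .neg φ, v => (bval φ v)ᶜ
  | .and φ ψ, v => bval φ v ⊓ bval ψ v
  | .all i φ, v => ⨅ x : Nm B, bval φ (Function.update v i x)

/-- extensional functions on names -/
def Extl (f : Nm B → B) : Prop := ∀ x y, beq x y ⊓ f x ≤ f y

end Bval

/-- ultrafilters on a Boolean algebra -/
structure UF (B : Type) [BooleanAlgebra B] where
  /-- the underlying set -/
  s : Set B
  top' : ⊤ ∈ s
  inf' : ∀ a b, a ∈ s → b ∈ s → a ⊓ b ∈ s
  up' : ∀ a b, a ≤ b → a ∈ s → b ∈ s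
  bot' : ⊥ ∉ s
  cpl' : ∀ a, a ∈ s ∨ aᶜ ∈ s

instance (B : Type) [BooleanAlgebra B] : Membership B (UF B) := ⟨fun U a => a ∈ U.s⟩

section Model

variable {B : Type} [CompleteBooleanAlgebra B]

/-- the quotient of the class of names by the ultrafilter -/
def Mod (U : UF B) : Type 1 := Quot (fun x y : Nm B => beq x y ∈ U)

/-- the element of the model named by `x` -/
def nm (U : UF B) (x : Nm B) : Mod U := Quot.mk _ x

/-- the membership relation of the model -/
def EU (U : UF B) (X Y : Mod U) : Prop :=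
  ∃ x y : Nm B, nm U x = X ∧ nm U y = Y ∧ bmem x y ∈ U

end Model

end Pool.Agent.BVM
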