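import Pool.Agent.Lib_BVM.Defs

/-! # Piece EQ: Boolean valued equality and membership -/

namespace Pool.Agent.BVM

variable {B : Type} [CompleteBooleanAlgebra B]

theorem beq_mk {ι κ : Type} (a : ι → Nm B) (b : ι → B) (c : κ → Nm B) (d : κ → B) :
    beq (.mk ι a b) (.mk κ c d) =
      (⨅ i : ι, b i ⇨ ⨆ k : κ, d k ⊓ beq (a i) (c k)) ⊓
      (⨅ k : κ, d k ⇨ ⨆ i : ι, b i ⊓ beq (a i) (c k)) := by
  rw [beq]

theorem bmem_mk' {κ : Type} (x : Nm B) (c : κ → Nm B) (d : κ → B) :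
    bmem x (.mk κ c d) = ⨆ k : κ, d k ⊓ beq x (c k) := rfl

theorem eq_le1 {ι κ : Type} (a : ι → Nm B) (b : ι → B) (c : κ → Nm B) (d : κ → B) (i : ι) :
    beq (.mk ι a b) (.mk κ c d) ⊓ b i ≤ ⨆ k : κ, d k ⊓ beq (a i) (c k) := by
  rw [beq_mk]
  have h : (⨅ i : ι, b i ⇨ ⨆ k : κ, d k ⊓ beq (a i) (c k)) ⊓
      (⨅ k : κ, d k ⇨ ⨆ i : ι, b i ⊓ beq (a i) (c k)) ≤ b i ⇨ ⨆ k : κ, d k ⊓ beq (a i) (c k) :=
    inf_le_left.trans (iInf_le _ i)
  exact le_himp_iff.1 h

theorem eq_le2 {ι κ : Type} (a : ι → Nm B) (b : ι → B) (c : κ → Nm B) (d : κ → B) (k : κ) :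
    beq (.mk ι a b) (.mk κ c d) ⊓ d k ≤ ⨆ i : ι, b i ⊓ beq (a i) (c k) := by
  rw [beq_mk]
  have h : (⨅ i : ι, b i ⇨ ⨆ k : κ, d k ⊓ beq (a i) (c k)) ⊓
      (⨅ k : κ, d k ⇨ ⨆ i : ι, b i ⊓ beq (a i) (c k)) ≤ d k ⇨ ⨆ i : ι, b i ⊓ beq (a i) (c k) :=
    inf_le_right.trans (iInf_le _ k)
  exact le_himp_iff.1 h

/-- induction on `x` -/
theorem beq_refl (x : Nm B) : beq x x = ⊤ := by
  induction x with
  | mk ι a b ih =>
    rw [beq_mk]
    refine top_le_iff.1 (le_inf (le_iInf fun i => le_himp_iff.2 ?_)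
      (le_iInf fun i => le_himp_iff.2 ?_))
    · refine le_iSup_of_le i (le_inf inf_le_right ?_)
      rw [ih i]
      exact le_top
    · refine le_iSup_of_le i (le_inf inf_le_right ?_)
      rw [ih i]
      exact le_top

/-- induction on `x` (generalizing `y`) -/
theorem beq_symm (x y : Nm B) : beq x y = beq y x := by
  induction x generalizing y with
  | mk ι a b ih =>
    cases y with
    | mk κ c d =>
      rw [beq_mk, beq_mk, inf_comm]
      simp only [ih]

/-- Induction on `x` (generalizing `y`, `z`). With `x = mk ι a b`, `y = mk κ c d`, `z = mk μ e f`: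
`beq x y ⊓ b i ≤ ⨆ k, d k ⊓ beq (a i) (c k)` and `beq y z ⊓ d k ≤ ⨆ m, f m ⊓ beq (c k) (e m)`, and
`beq (a i) (c k) ⊓ beq (c k) (e m) ≤ beq (a i) (e m)` by induction; the other half is similar
(the induction hypothesis for `a i` is again what is needed). -/
theorem beq_trans (x y z : Nm B) : beq x y ⊓ beq y z ≤ beq x z := by
  induction x generalizing y z with
  | mk ι a b ih =>
    cases y with
    | mk κ c d =>
      cases z with
      | mk μ e f =>
        obtain ⟨X, hX⟩ : ∃ X, X = beq (.mk ι a b) (.mk κ c d) := ⟨_, rfl⟩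
        obtain ⟨Y, hY⟩ : ∃ Y, Y = beq (.mk κ c d) (.mk μ e f) := ⟨_, rfl⟩
        have x1 := eq_le1 a b c d
        have x2 := eq_le2 a b c d
        have y1 := eq_le1 c d e f
        have y2 := eq_le2 c d e f
        rw [← hX] at x1 x2
        rw [← hY] at y1 y2
        rw [← hX, ← hY, beq_mk]
        refine le_inf (le_iInf fun i => le_himp_iff.2 ?_) (le_iInf fun m => le_himp_iff.2 ?_)
        · calc X ⊓ Y ⊓ b i ≤ (X ⊓ b i) ⊓ Y :=
                le_inf (le_inf (inf_le_left.trans inf_le_left) inf_le_right)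
                  (inf_le_left.trans inf_le_right)
            _ ≤ (⨆ k : κ, d k ⊓ beq (a i) (c k)) ⊓ Y := inf_le_inf_right _ (x1 i)
            _ = ⨆ k : κ, (d k ⊓ beq (a i) (c k)) ⊓ Y := iSup_inf_eq _ _
            _ ≤ ⨆ m, f m ⊓ beq (a i) (e m) := by
              refine iSup_le fun k => ?_
              calc (d k ⊓ beq (a i) (c k)) ⊓ Y ≤ beq (a i) (c k) ⊓ (Y ⊓ d k) :=
                    le_inf (inf_le_left.trans inf_le_right)
                      (le_inf inf_le_right (inf_le_left.trans inf_le_left))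
                _ ≤ beq (a i) (c k) ⊓ ⨆ m, f m ⊓ beq (c k) (e m) := inf_le_inf_left _ (y1 k)
                _ = ⨆ m, beq (a i) (c k) ⊓ (f m ⊓ beq (c k) (e m)) := inf_iSup_eq _ _
                _ ≤ ⨆ m, f m ⊓ beq (a i) (e m) := by
                  refine iSup_le fun m => le_iSup_of_le m (le_inf
                    (inf_le_right.trans inf_le_left) (le_trans ?_ (ih i (c k) (e m))))
                  exact le_inf inf_le_left (inf_le_right.trans inf_le_right)
        · calc X ⊓ Y ⊓ f m ≤ X ⊓ (Y ⊓ f m) := by rw [inf_assoc]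
            _ ≤ X ⊓ ⨆ k, d k ⊓ beq (c k) (e m) := inf_le_inf_left _ (y2 m)
            _ = ⨆ k, X ⊓ (d k ⊓ beq (c k) (e m)) := inf_iSup_eq _ _
            _ ≤ ⨆ i, b i ⊓ beq (a i) (e m) := by
              refine iSup_le fun k => ?_
              calc X ⊓ (d k ⊓ beq (c k) (e m)) ≤ (X ⊓ d k) ⊓ beq (c k) (e m) := by
                    rw [inf_assoc]
                _ ≤ (⨆ i, b i ⊓ beq (a i) (c k)) ⊓ beq (c k) (e m) := inf_le_inf_right _ (x2 k)
                _ = ⨆ i, (b i ⊓ beq (a i) (c k)) ⊓ beq (c k) (e m) := iSup_inf_eq _ _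
                _ ≤ ⨆ i, b i ⊓ beq (a i) (e m) := by
                  refine iSup_le fun i => le_iSup_of_le i (le_inf
                    (inf_le_left.trans inf_le_left) (le_trans ?_ (ih i (c k) (e m))))
                  exact le_inf (inf_le_left.trans inf_le_right) inf_le_right

theorem bmem_mk {ι : Type} (a : ι → Nm B) (b : ι → B) (i : ι) :
    b i ≤ bmem (a i) (.mk ι a b) := by
  rw [bmem_mk']
  refine le_iSup_of_le i (le_inf le_rfl ?_)
  rw [beq_refl]
  exact le_top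

theorem bmem_congr_left (x y z : Nm B) : beq x y ⊓ bmem x z ≤ bmem y z := by
  cases z with
  | mk κ c d =>
    rw [bmem_mk', bmem_mk', inf_iSup_eq]
    refine iSup_le fun k => le_iSup_of_le k (le_inf (inf_le_right.trans inf_le_left)
      (le_trans ?_ (beq_trans y x (c k))))
    rw [beq_symm y x]
    exact le_inf inf_le_left (inf_le_right.trans inf_le_right)

theorem bmem_congr_right (x y z : Nm B) : beq x y ⊓ bmem z x ≤ bmem z y := by
  cases x with
  | mk ι a b =>
    cases y with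
    | mk κ c d =>
      rw [bmem_mk', bmem_mk', inf_iSup_eq]
      refine iSup_le fun i => ?_
      obtain ⟨X, hX⟩ : ∃ X, X = beq (.mk ι a b) (.mk κ c d) := ⟨_, rfl⟩
      have x1 := eq_le1 a b c d
      rw [← hX] at x1 ⊢
      calc X ⊓ (b i ⊓ beq z (a i)) ≤ (X ⊓ b i) ⊓ beq z (a i) := by rw [inf_assoc]
        _ ≤ (⨆ k, d k ⊓ beq (a i) (c k)) ⊓ beq z (a i) := inf_le_inf_right _ (x1 i)
        _ = ⨆ k, (d k ⊓ beq (a i) (c k)) ⊓ beq z (a i) := iSup_inf_eq _ _
        _ ≤ ⨆ k, d k ⊓ beq z (c k) := by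
          refine iSup_le fun k => le_iSup_of_le k (le_inf (inf_le_left.trans inf_le_left)
            (le_trans ?_ (beq_trans z (a i) (c k))))
          exact le_inf inf_le_right (inf_le_left.trans inf_le_right)

/-- extensionality -/
theorem beq_eq (x y : Nm B) :
    beq x y = (⨅ z, bmem z x ⇨ bmem z y) ⊓ (⨅ z, bmem z y ⇨ bmem z x) := by
  apply le_antisymm
  · refine le_inf (le_iInf fun z => le_himp_iff.2 (bmem_congr_right x y z))
      (le_iInf fun z => le_himp_iff.2 ?_)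
    rw [beq_symm]
    exact bmem_congr_right y x z
  · obtain ⟨R1, hR1⟩ : ∃ R, R = ⨅ z, bmem z x ⇨ bmem z y := ⟨_, rfl⟩
    obtain ⟨R2, hR2⟩ : ∃ R, R = ⨅ z, bmem z y ⇨ bmem z x := ⟨_, rfl⟩
    have h1 : ∀ z, R1 ⊓ bmem z x ≤ bmem z y := fun z =>
      le_himp_iff.1 (by rw [hR1]; exact iInf_le _ z)
    have h2 : ∀ z, R2 ⊓ bmem z y ≤ bmem z x := fun z =>
      le_himp_iff.1 (by rw [hR2]; exact iInf_le _ z)
    rw [← hR1, ← hR2]
    clear hR1 hR2
    cases x with
    | mk ι a b =>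
      cases y with
      | mk κ c d =>
        rw [beq_mk]
        refine le_inf (le_iInf fun i => le_himp_iff.2 ?_) (le_iInf fun k => le_himp_iff.2 ?_)
        · have h3 : R1 ⊓ R2 ⊓ b i ≤ R1 ⊓ bmem (a i) (.mk ι a b) :=
            inf_le_inf inf_le_left (bmem_mk a b i)
          exact h3.trans (h1 (a i))
        · have h3 : R1 ⊓ R2 ⊓ d k ≤ R2 ⊓ bmem (c k) (.mk κ c d) :=
            inf_le_inf inf_le_right (bmem_mk c d k)
          have h4 := h3.trans (h2 (c k))
          rw [bmem_mk'] at h4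
          simp only [beq_symm (c k)] at h4
          exact h4

end Pool.Agent.BVM
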