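import Pool.Agent.Lib_BVM.Los

/-! # Piece FDEF: first order definable notions and their Boolean values -/

namespace Pool.Agent.BVM

/-- a notion with parameters `v 0, v 1, ...`, for all structures -/
abbrev Notion : Type 2 := ∀ (M : Type 1) (_ : M → M → Prop), (ℕ → M) → Prop

/-- first order definable notions -/
def FDef (P : Notion) : Prop := ∃ φ : Fml, ∀ (M : Type 1) (E : M → M → Prop) (v : ℕ → M),
  Sat E φ v ↔ P M E v

theorem fdef_congr {P Q : Notion} (h : FDef P) (hPQ : ∀ M E v, P M E v ↔ Q M E v) : FDef Q := by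
  obtain ⟨φ, hφ⟩ := h
  exact ⟨φ, fun M E v => (hφ M E v).trans (hPQ M E v)⟩

namespace FDef

theorem mem (i j : ℕ) : FDef (fun _ E v => E (v i) (v j)) := ⟨.mem i j, fun _ _ _ => Iff.rfl⟩

theorem eq (i j : ℕ) : FDef (fun _ _ v => v i = v j) := ⟨.eq i j, fun _ _ _ => Iff.rfl⟩

theorem not {P : Notion} (h : FDef P) : FDef (fun M E v => ¬ P M E v) := by
  obtain ⟨φ, hφ⟩ := h
  exact ⟨.neg φ, fun M E v => not_congr (hφ M E v)⟩

theorem and {P Q : Notion} (h : FDef P) (h' : FDef Q) :
    FDef (fun M E v => P M E v ∧ Q M E v) := by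
  obtain ⟨φ, hφ⟩ := h
  obtain ⟨ψ, hψ⟩ := h'
  exact ⟨.and φ ψ, fun M E v => and_congr (hφ M E v) (hψ M E v)⟩

theorem or {P Q : Notion} (h : FDef P) (h' : FDef Q) :
    FDef (fun M E v => P M E v ∨ Q M E v) :=
  fdef_congr (not (and (not h) (not h'))) fun M E v => by tauto

theorem imp {P Q : Notion} (h : FDef P) (h' : FDef Q) :
    FDef (fun M E v => P M E v → Q M E v) :=
  fdef_congr (not (and h (not h'))) fun M E v => by tauto

theorem iff {P Q : Notion} (h : FDef P) (h' : FDef Q) :
    FDef (fun M E v => P M E v ↔ Q M E v) :=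
  fdef_congr (and (imp h h') (imp h' h)) fun M E v => by tauto

/-- quantification over the variable `n` -/
theorem all (n : ℕ) {P : Notion} (h : FDef P) :
    FDef (fun M E v => ∀ x : M, P M E (Function.update v n x)) := by
  obtain ⟨φ, hφ⟩ := h
  exact ⟨.all n φ, fun M E v => forall_congr' fun x => hφ M E _⟩

theorem ex (n : ℕ) {P : Notion} (h : FDef P) :
    FDef (fun M E v => ∃ x : M, P M E (Function.update v n x)) :=
  fdef_congr (not (all n (not h))) fun M E v => by
    simp only [not_forall, not_not]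

/-- unique existence over the variable `n`; `m` is an auxiliary variable -/
theorem fdef_exu (n m : ℕ) {P : Notion} (h : FDef P) (hnm : n ≠ m)
    (hP : ∀ (M : Type 1) (E : M → M → Prop) (v : ℕ → M) (x y : M),
      P M E (Function.update (Function.update (Function.update v n x) m y) n y) ↔ P M E (Function.update v n y)) :
    FDef (fun M E v => ∃! x : M, P M E (Function.update v n x)) := by
  have h1 : FDef (fun M E v => P M E (Function.update v n (v m))) :=
    fdef_congr (ex n (and (eq n m) h)) fun M E v => by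
      simp only [Function.update_self, Function.update_of_ne hnm.symm]
      constructor
      · rintro ⟨x, rfl, hx⟩
        exact hx
      · intro hx
        exact ⟨v m, rfl, hx⟩
  refine fdef_congr (ex n (and h (all m (imp h1 (eq m n))))) fun M E v => ?_
  simp only [Function.update_self, Function.update_of_ne hnm, hP]
  rfl

theorem sub (i j : ℕ) : FDef (fun _ E v => Sub E (v i) (v j)) := by
  obtain ⟨n, h1, h2⟩ : ∃ n, i ≠ n ∧ j ≠ n := ⟨i + j + 1, by omega, by omega⟩
  refine fdef_congr (all n (imp (mem n i) (mem n j))) fun M E v => ?_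
  simp only [Function.update_self, Function.update_of_ne h1, Function.update_of_ne h2]
  rfl

theorem isUPair (i j k : ℕ) : FDef (fun _ E v => IsUPair E (v i) (v j) (v k)) := by
  obtain ⟨n, h1, h2, h3⟩ : ∃ n, i ≠ n ∧ j ≠ n ∧ k ≠ n := ⟨i + j + k + 1, by omega, by omega, by omega⟩
  refine fdef_congr (all n (iff (mem n i) (or (eq n j) (eq n k)))) fun M E v => ?_
  simp only [Function.update_self, Function.update_of_ne h1, Function.update_of_ne h2, Function.update_of_ne h3]
  rfl

theorem isOPair (i j k : ℕ) : FDef (fun _ E v => IsOPair E (v i) (v j) (v k)) := by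
  obtain ⟨n, h1, h2, h3⟩ : ∃ n, i ≠ n ∧ j ≠ n ∧ k ≠ n := ⟨i + j + k + 1, by omega, by omega, by omega⟩
  refine fdef_congr (all n (iff (mem n i) (or (isUPair n j j) (isUPair n j k)))) fun M E v => ?_
  simp only [Function.update_self, Function.update_of_ne h1, Function.update_of_ne h2, Function.update_of_ne h3]
  rfl

theorem oMem (i j k : ℕ) : FDef (fun _ E v => OMem E (v i) (v j) (v k)) := by
  obtain ⟨n, h1, h2, h3⟩ : ∃ n, i ≠ n ∧ j ≠ n ∧ k ≠ n := ⟨i + j + k + 1, by omega, by omega, by omega⟩
  refine fdef_congr (ex n (and (mem n i) (isOPair n j k))) fun M E v => ?_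
  simp only [Function.update_self, Function.update_of_ne h1, Function.update_of_ne h2, Function.update_of_ne h3]
  rfl

theorem isFun (i j k : ℕ) : FDef (fun _ E v => IsFun E (v i) (v j) (v k)) := by
  obtain ⟨n, m, l, r, h1, h2, h3, g1, g2, g3, f1, f2, f3, e1, e2, e3, d1, d2, d3⟩ : ∃ n m l r, i ≠ n ∧ j ≠ n ∧ k ≠ n ∧
      i ≠ m ∧ j ≠ m ∧ k ≠ m ∧ i ≠ l ∧ j ≠ l ∧ k ≠ l ∧ i ≠ r ∧ l ≠ r ∧ n ≠ m ∧ n ≠ l ∧ m ≠ l ∧ m ≠ r :=
    ⟨i + j + k + 1, i + j + k + 2, i + j + k + 3, i + j + k + 4, by omega, by omega, by omega, by omega, by omega,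
      by omega, by omega, by omega, by omega, by omega, by omega, by omega, by omega, by omega, by omega⟩
  refine fdef_congr (and (all n (imp (mem n i) (ex m (ex l (and (mem m j) (and (mem l k) (isOPair n m l)))))))
    (all m (imp (mem m j) (fdef_exu l r (oMem i m l) e2 ?_)))) fun M E v => ?_
  · intro M E v x y
    simp only [Function.update_self, Function.update_of_ne f1, Function.update_of_ne e1, Function.update_of_ne d3,
      Function.update_of_ne d2]
  · simp only [Function.update_self, Function.update_of_ne h1, Function.update_of_ne h2, Function.update_of_ne h3,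
      Function.update_of_ne g1, Function.update_of_ne g2, Function.update_of_ne g3,
      Function.update_of_ne f1, Function.update_of_ne f2, Function.update_of_ne f3, Function.update_of_ne e3,
      Function.update_of_ne d1, Function.update_of_ne d2]
    rfl

theorem isInj (i j k : ℕ) : FDef (fun _ E v => IsInj E (v i) (v j) (v k)) := by
  obtain ⟨n, m, l, h1, g1, f1, e1, e2, e3⟩ : ∃ n m l, i ≠ n ∧ i ≠ m ∧ i ≠ l ∧ n ≠ m ∧ n ≠ l ∧ m ≠ l :=
    ⟨i + 1, i + 2, i + 3, by omega, by omega, by omega, by omega, by omega, by omega⟩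
  refine fdef_congr (and (isFun i j k) (all n (all m (all l (imp (oMem i n l) (imp (oMem i m l) (eq n m)))))))
    fun M E v => ?_
  simp only [Function.update_self, Function.update_of_ne h1, Function.update_of_ne g1, Function.update_of_ne f1,
    Function.update_of_ne e1, Function.update_of_ne e2, Function.update_of_ne e3]
  rfl

theorem inductive' (i : ℕ) : FDef (fun _ E v => Inductive E (v i)) := by
  obtain ⟨n, m, l, h1, g1, e1, e2, e3⟩ : ∃ n m l, i ≠ n ∧ i ≠ m ∧ n ≠ m ∧ n ≠ l ∧ m ≠ l :=
    ⟨i + 1, i + 2, i + 3, by omega, by omega, by omega, by omega, by omega⟩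
  refine fdef_congr (and (ex n (and (mem n i) (all m (not (mem m n)))))
    (all n (imp (mem n i) (ex m (and (mem m i) (all l (iff (mem l m) (or (mem l n) (eq l n))))))))) fun M E v => ?_
  simp only [Function.update_self, Function.update_of_ne h1, Function.update_of_ne g1,
    Function.update_of_ne e1, Function.update_of_ne e2, Function.update_of_ne e3]
  rfl

theorem isOmega (i : ℕ) : FDef (fun _ E v => IsOmega E (v i)) := by
  obtain ⟨n, h1⟩ : ∃ n, i ≠ n := ⟨i + 1, by omega⟩
  refine fdef_congr (and (inductive' i) (all n (imp (inductive' n) (sub i n)))) fun M E v => ?_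
  simp only [Function.update_self, Function.update_of_ne h1]
  rfl

theorem fin (i : ℕ) : FDef (fun _ E v => Fin E (v i)) := by
  obtain ⟨n, m, l, h1, g1, f1, e1, e2, e3⟩ : ∃ n m l, i ≠ n ∧ i ≠ m ∧ i ≠ l ∧ n ≠ m ∧ n ≠ l ∧ m ≠ l :=
    ⟨i + 1, i + 2, i + 3, by omega, by omega, by omega, by omega, by omega, by omega⟩
  refine fdef_congr (ex n (ex m (ex l (and (isOmega n) (and (mem m n) (isInj l i m)))))) fun M E v => ?_
  simp only [Function.update_self, Function.update_of_ne h1, Function.update_of_ne g1, Function.update_of_ne f1,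
    Function.update_of_ne e1, Function.update_of_ne e2, Function.update_of_ne e3]
  rfl

theorem ctbl (i : ℕ) : FDef (fun _ E v => Ctbl E (v i)) := by
  obtain ⟨n, m, h1, g1, e1⟩ : ∃ n m, i ≠ n ∧ i ≠ m ∧ n ≠ m :=
    ⟨i + 1, i + 2, by omega, by omega, by omega⟩
  refine fdef_congr (ex n (ex m (and (isOmega n) (isInj m i n)))) fun M E v => ?_
  simp only [Function.update_self, Function.update_of_ne h1, Function.update_of_ne g1, Function.update_of_ne e1]
  rfl

theorem isDiff (i j k : ℕ) : FDef (fun _ E v => IsDiff E (v i) (v j) (v k)) := by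
  obtain ⟨n, h1, h2, h3⟩ : ∃ n, i ≠ n ∧ j ≠ n ∧ k ≠ n := ⟨i + j + k + 1, by omega, by omega, by omega⟩
  refine fdef_congr (all n (iff (mem n i) (and (mem n j) (not (mem n k))))) fun M E v => ?_
  simp only [Function.update_self, Function.update_of_ne h1, Function.update_of_ne h2, Function.update_of_ne h3]
  rfl

theorem subFin (i j : ℕ) : FDef (fun _ E v => SubFin E (v i) (v j)) := by
  obtain ⟨n, h1, h2⟩ : ∃ n, i ≠ n ∧ j ≠ n := ⟨i + j + 1, by omega, by omega⟩
  refine fdef_congr (ex n (and (isDiff n i j) (fin n))) fun M E v => ?_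
  simp only [Function.update_self, Function.update_of_ne h1, Function.update_of_ne h2]
  rfl

theorem eqFin (i j : ℕ) : FDef (fun _ E v => EqFin E (v i) (v j)) :=
  and (subFin i j) (subFin j i)

theorem isImage (i j k : ℕ) : FDef (fun _ E v => IsImage E (v i) (v j) (v k)) := by
  obtain ⟨n, m, h1, h2, h3, g2, g3, e1⟩ : ∃ n m, i ≠ n ∧ j ≠ n ∧ k ≠ n ∧ j ≠ m ∧ k ≠ m ∧ n ≠ m :=
    ⟨i + j + k + 1, i + j + k + 2, by omega, by omega, by omega, by omega, by omega, by omega⟩
  refine fdef_congr (all n (iff (mem n i) (ex m (and (mem m k) (oMem j m n))))) fun M E v => ?_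
  simp only [Function.update_self, Function.update_of_ne h1, Function.update_of_ne h2, Function.update_of_ne h3,
    Function.update_of_ne g2, Function.update_of_ne g3, Function.update_of_ne e1]
  rfl

end FDef

variable {B : Type} [CompleteBooleanAlgebra B]

/-- the Boolean value of a definable notion -/
theorem FDef.exists_bval {P : Notion} (h : FDef P) : ∃ f : (ℕ → Nm B) → B,
    ∀ (U : UF B) (v : ℕ → Nm B), f v ∈ U ↔ P (Mod U) (EU U) (fun i => nm U (v i)) := by
  obtain ⟨φ, hφ⟩ := h
  exact ⟨fun v => bval φ v, fun U v => (los U φ v).trans (hφ _ _ _)⟩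

/-- Reasoning element by element: to prove a definable property `P` for all elements `X` of
`nm U (mk ι a b)` in the model, under a hypothesis `c ∈ U`, it is enough to prove it for
`X = nm U' (a i)` in all models with `c, b i ∈ U'`. (The variable `n` stands for `X`.) Proof: let `f`
be the Boolean value of `P` with `n` free, an extensional function by `bval_extl1`; then
`c ⊓ b i ≤ f (a i)` by `le_of_uf`, so `c ⊓ bmem x (mk ι a b) ≤ f x`. -/
theorem FDef.ball {P : Notion} (h : FDef P) (n : ℕ) (v : ℕ → Nm B) {ι : Type} (a : ι → Nm B)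
    (b : ι → B) (c : B)
    (H : ∀ (U' : UF B) (i : ι), c ∈ U' → b i ∈ U' →
      P (Mod U') (EU U') (Function.update (fun k => nm U' (v k)) n (nm U' (a i))))
    (U : UF B) (hc : c ∈ U) (X : Mod U) (hX : EU U X (nm U (.mk ι a b))) :
    P (Mod U) (EU U) (Function.update (fun k => nm U (v k)) n X) := by
  obtain ⟨φ, hφ⟩ := h
  have hup : ∀ (U' : UF B) (x : Nm B), (fun k => nm U' (Function.update v n x k)) =
      Function.update (fun k => nm U' (v k)) n (nm U' x) := by
    intro U' x
    funext k
    by_cases hk : k = n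
    · subst hk
      rw [Function.update_self, Function.update_self]
    · rw [Function.update_of_ne hk, Function.update_of_ne hk]
  have key : ∀ (U' : UF B) (x : Nm B), bval φ (Function.update v n x) ∈ U' ↔
      P (Mod U') (EU U') (Function.update (fun k => nm U' (v k)) n (nm U' x)) := by
    intro U' x
    rw [los, hφ, hup]
  have h1 : ∀ i, c ⊓ b i ≤ bval φ (Function.update v n (a i)) := by
    intro i
    refine le_of_uf fun U' hU' => ?_
    rw [UF.inf_mem] at hU'
    exact (key U' (a i)).2 (H U' i hU'.1 hU'.2)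
  obtain ⟨x, rfl⟩ := nm_surj U X
  rw [EU_nm] at hX
  rw [← key]
  have h2 : c ⊓ bmem x (.mk ι a b) ≤ bval φ (Function.update v n x) := by
    rw [bmem_mk', inf_iSup_eq]
    refine iSup_le fun i => ?_
    have h3 : beq (a i) x ⊓ bval φ (Function.update v n (a i)) ≤ bval φ (Function.update v n x) :=
      bval_extl1 φ v n (a i) x
    refine le_trans ?_ h3
    rw [beq_symm (a i) x]
    refine le_inf (inf_le_right.trans inf_le_right) (le_trans ?_ (h1 i))
    exact inf_le_inf le_rfl inf_le_left
  exact U.mono h2 (U.inf_mem.2 ⟨hc, hX⟩)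

end Pool.Agent.BVM
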