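import Pool.Agent.Lib_BVM.Omega
import Pool.Agent.Lib_BVM.Af
import Pool.Agent.Lib_BVM.Sets

/-! # Piece FIN1: sets contained in a finite set of the ground model are finite -/

namespace Pool.Agent.BVM

variable {B : Type} [CompleteBooleanAlgebra B] {I : Type} [LinearOrder I] [WellFoundedLT I]

theorem fin1_mem_ordN (U : UF B) (n : ℕ) (z : Mod U) :
    EU U z (nm U (ordN B n)) ↔ ∃ j : ℕ, j < n ∧ z = nm U (ordN B j) := by
  obtain ⟨z, rfl⟩ := nm_surj U z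
  rw [EU_nm, bmem_ordN, U.iSup_finite]
  constructor
  · rintro ⟨j, hj⟩
    exact ⟨j.1, j.2, (nm_eq U _ _).2 hj⟩
  · rintro ⟨j, hj, h⟩
    exact ⟨⟨j, hj⟩, (nm_eq U _ _).1 h⟩

theorem fin1_mem_subN (U : UF B) (D : I → B) (s : Finset I)
    (h : (⨅ i : {i : I // i ∉ s}, (D i.1)ᶜ) ∈ U) (z : Mod U) :
    EU U z (nm U (subN D)) ↔ ∃ i : {i : I // i ∈ s}, D i.1 ∈ U ∧ z = nm U (ordN B i.1) := by
  obtain ⟨z, rfl⟩ := nm_surj U z
  rw [EU_nm, bmem_subN]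
  constructor
  · intro h1
    have h2 : (⨆ i, D i ⊓ beq z (ordN B i)) ⊓ (⨅ i : {i : I // i ∉ s}, (D i.1)ᶜ) ≤
        ⨆ i : {i : I // i ∈ s}, D i.1 ⊓ beq z (ordN B i.1) := by
      rw [iSup_inf_eq]
      refine iSup_le fun i => ?_
      by_cases hi : i ∈ s
      · exact le_iSup_of_le ⟨i, hi⟩ inf_le_left
      · have h3 : (⨅ i : {i : I // i ∉ s}, (D i.1)ᶜ) ≤ (D i)ᶜ :=
          iInf_le (fun i : {i : I // i ∉ s} => (D i.1)ᶜ) ⟨i, hi⟩
        have h4 : D i ⊓ beq z (ordN B i) ⊓ (⨅ i : {i : I // i ∉ s}, (D i.1)ᶜ) ≤ D i ⊓ (D i)ᶜ :=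
          le_inf (inf_le_left.trans inf_le_left) (inf_le_right.trans h3)
        rw [inf_compl_self] at h4
        exact h4.trans bot_le
    have h3 := U.mono h2 ((U.inf_mem).2 ⟨h1, h⟩)
    rw [U.iSup_finite] at h3
    obtain ⟨i, hi⟩ := h3
    rw [U.inf_mem] at hi
    exact ⟨i, hi.1, (nm_eq U _ _).2 hi.2⟩
  · rintro ⟨i, hi1, hi2⟩
    exact U.iSup_of i.1 ((U.inf_mem).2 ⟨hi1, (nm_eq U _ _).1 hi2⟩)

/-- Proof. Let `n = s.card`, `k : s ≃ Fin n`. The name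
`f = mk s (fun i => opN (ordN i) (ordN (k i : ℕ))) (fun i => D i)` is in the model an injective
function from `subN D` to `ordN n` (`n : ℕ`): the index type `s` is finite, so membership in `f`,
and, as `(⨅ i ∉ s, (D i)ᶜ) ∈ U`, also membership in `subN D`, can be decided in `U` at a single
index (`UF.iSup_finite`). Use `IsOPair.inj`, `nm_ordN_inj`. -/
theorem fin_of_finset (U : UF B) (D : I → B) (s : Finset I)
    (h : (⨅ i : {i : I // i ∉ s}, (D i.1)ᶜ) ∈ U) : Fin (EU U) (nm U (subN D)) := by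
  have pair := eu_pair U
  have ext := eu_ext U
  obtain ⟨k, hk⟩ : ∃ k : {i : I // i ∈ s} → ℕ, (∀ i, k i < s.card) ∧ Function.Injective k := by
    refine ⟨fun i => (s.equivFin i).val, fun i => (s.equivFin i).isLt, fun i j hij => ?_⟩
    exact s.equivFin.injective (Fin.val_injective hij)
  have hf : ∀ z, EU U z (nm U (.mk {i : I // i ∈ s}
      (fun i => opN (ordN B i.1) (ordN B (k i))) (fun i => D i.1))) ↔
      ∃ i : {i : I // i ∈ s}, D i.1 ∈ U ∧ z = nm U (opN (ordN B i.1) (ordN B (k i))) := by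
    intro z
    obtain ⟨z, rfl⟩ := nm_surj U z
    rw [EU_nm, bmem_mk', U.iSup_finite]
    constructor
    · rintro ⟨i, hi⟩
      rw [U.inf_mem] at hi
      exact ⟨i, hi.1, (nm_eq U _ _).2 hi.2⟩
    · rintro ⟨i, hi1, hi2⟩
      exact ⟨i, (U.inf_mem).2 ⟨hi1, (nm_eq U _ _).1 hi2⟩⟩
  obtain ⟨f, hf'⟩ : ∃ f, f = nm U (.mk {i : I // i ∈ s}
      (fun i => opN (ordN B i.1) (ordN B (k i))) (fun i => D i.1)) := ⟨_, rfl⟩
  rw [← hf'] at hf
  have hom : ∀ x y, OMem (EU U) f x y ↔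
      ∃ i : {i : I // i ∈ s}, D i.1 ∈ U ∧ x = nm U (ordN B i.1) ∧ y = nm U (ordN B (k i)) := by
    intro x y
    constructor
    · rintro ⟨p, hp1, hp2⟩
      obtain ⟨i, hi1, hi2⟩ := (hf p).1 hp1
      have h3 := isOPair_opN U (ordN B i.1) (ordN B (k i))
      rw [← hi2] at h3
      obtain ⟨h4, h5⟩ := IsOPair.inj pair ext hp2 h3
      exact ⟨i, hi1, h4, h5⟩
    · rintro ⟨i, hi1, rfl, rfl⟩
      exact ⟨_, (hf _).2 ⟨i, hi1, rfl⟩, isOPair_opN U _ _⟩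
  refine ⟨nm U (setN B ℕ), nm U (ordN B s.card), f, isOmega_setN U, ?_, ⟨?_, ?_⟩, ?_⟩
  · exact (mem_subN U (A := fun _ : ℕ => (⊤ : B))).2 U.top_mem
  · intro p hp
    obtain ⟨i, hi1, rfl⟩ := (hf p).1 hp
    refine ⟨nm U (ordN B i.1), nm U (ordN B (k i)), ?_, ?_, isOPair_opN U _ _⟩
    · exact (fin1_mem_subN U D s h _).2 ⟨i, hi1, rfl⟩
    · exact (fin1_mem_ordN U _ _).2 ⟨k i, hk.1 i, rfl⟩
  · intro x hx
    obtain ⟨i, hi1, rfl⟩ := (fin1_mem_subN U D s h _).1 hx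
    refine ⟨nm U (ordN B (k i)), (hom _ _).2 ⟨i, hi1, rfl, rfl⟩, ?_⟩
    intro y hy
    obtain ⟨j, hj1, hj2, rfl⟩ := (hom _ _).1 hy
    have h6 : i = j := Subtype.ext (nm_ordN_inj U hj2)
    rw [h6]
  · intro x x' y hx hx'
    obtain ⟨i, hi1, rfl, rfl⟩ := (hom _ _).1 hx
    obtain ⟨j, hj1, rfl, hj3⟩ := (hom _ _).1 hx'
    have h6 : i = j := hk.2 (nm_ordN_inj U hj3)
    rw [h6]

/-- from `fin_of_finset`, `FDef.fin`, `FDef.exists_bval`, `le_of_uf` -/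
theorem fin_of_af (U : UF B) (D : I → B) (h : af (fun i => (D i)ᶜ) ∈ U) :
    Fin (EU U) (nm U (subN D)) := by
  obtain ⟨f, hf⟩ := FDef.exists_bval (B := B) (FDef.fin 0)
  have h1 : af (fun i => (D i)ᶜ) ≤ f (fun _ => subN D) := by
    refine iSup_le fun s => le_of_uf fun U' hU' => ?_
    exact (hf U' (fun _ => subN D)).2 (fin_of_finset U' D s hU')
  exact (hf U (fun _ => subN D)).1 (U.mono h1 h)

end Pool.Agent.BVM
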