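import Pool.Agent.Lib_BVM.Omega
import Pool.Agent.Lib_BVM.Af
import Pool.Agent.Lib_BVM.Sets

/-! # Piece FIN2: finite subsets of `I` in the model -/

namespace Pool.Agent.BVM

variable {B : Type} [CompleteBooleanAlgebra B] {I : Type} [LinearOrder I] [WellFoundedLT I]

/-- the assignment `x, y, z, z, ...` -/
def fin2_v (x y z : Nm B) : ℕ → Nm B := fun n => if n = 0 then x else if n = 1 then y else z

theorem fin2_mem_ordN (U : UF B) (n : ℕ) (z : Mod U) (h : EU U z (nm U (ordN B n))) :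
    ∃ j : ℕ, j < n ∧ z = nm U (ordN B j) := by
  obtain ⟨z, rfl⟩ := nm_surj U z
  rw [EU_nm, bmem_ordN, U.iSup_finite] at h
  obtain ⟨j, hj⟩ := h
  exact ⟨j.1, j.2, (nm_eq U _ _).2 hj⟩

/-- an injection of `subN D` to the number `k` -/
theorem fin2_main (D : I → B) (f : Nm B) (k : ℕ) (J : B)
    (hJ : ∀ U : UF B, J ∈ U → IsInj (EU U) (nm U f) (nm U (subN D)) (nm U (ordN B k))) :
    J ≤ af (fun i => (D i)ᶜ) := by
  obtain ⟨G, hG⟩ := FDef.exists_bval (B := B) (FDef.oMem 0 1 2)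
  obtain ⟨a, ha⟩ : ∃ a : I → ℕ → B, ∀ (U : UF B) (i : I) (j : ℕ), a i j ∈ U ↔
      OMem (EU U) (nm U f) (nm U (ordN B i)) (nm U (ordN B j)) := by
    exact ⟨fun i j => G (fin2_v f (ordN B i) (ordN B j)), fun U i j => hG U _⟩
  obtain ⟨c, hc⟩ : ∃ c, c = af (fun i => (D i)ᶜ) := ⟨_, rfl⟩
  have hc1 : ∀ s : Finset I, cᶜ ≤ ⨆ i : {i : I // i ∉ s}, D i.1 := by
    intro s
    have h1 : (⨅ i : {i : I // i ∉ s}, (D i.1)ᶜ) ≤ c := by
      rw [hc]
      exact le_iSup (fun s : Finset I => ⨅ i : {i : I // i ∉ s}, (D i.1)ᶜ) s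
    have h2 := compl_le_compl h1
    rw [compl_iInf] at h2
    simp only [compl_compl] at h2
    exact h2
  rw [← hc]
  by_contra hcon
  have hne : J ⊓ cᶜ ≠ ⊥ := by
    intro h0
    apply hcon
    have h1 : Disjoint J cᶜ := disjoint_iff.2 h0
    have h2 := (le_compl_iff_disjoint_right (a := J) (b := cᶜ)).2 h1
    rw [compl_compl] at h2
    exact h2
  have key : ∀ m : ℕ, ∃ (b : B) (s : Finset I) (g : I → ℕ), b ≠ ⊥ ∧ b ≤ J ⊓ cᶜ ∧ s.card = m ∧
      ∀ i ∈ s, g i < k ∧ b ≤ a i (g i) := by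
    intro m
    induction m with
    | zero => exact ⟨J ⊓ cᶜ, ∅, fun _ => 0, hne, le_rfl, rfl, fun i hi => absurd hi (Finset.notMem_empty i)⟩
    | succ m ih =>
      obtain ⟨b, s, g, hb0, hb1, hs, hg⟩ := ih
      obtain ⟨i, hi⟩ : ∃ i : {i : I // i ∉ s}, b ⊓ D i.1 ≠ ⊥ := by
        by_contra hno
        push Not at hno
        apply hb0
        have h1 : b ≤ b ⊓ ⨆ i : {i : I // i ∉ s}, D i.1 :=
          le_inf le_rfl (hb1.trans (inf_le_right.trans (hc1 s)))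
        rw [inf_iSup_eq] at h1
        have h2 : (⨆ i : {i : I // i ∉ s}, b ⊓ D i.1) = ⊥ := by
          rw [iSup_eq_bot]
          exact hno
        rw [h2] at h1
        exact le_bot_iff.1 h1
      obtain ⟨U, hU⟩ := exists_uf hi
      rw [U.inf_mem] at hU
      have hin := hJ U (U.mono (hb1.trans inf_le_left) hU.1)
      obtain ⟨y, hy, -⟩ := hin.1.2 (nm U (ordN B i.1)) ((mem_subN U).2 hU.2)
      have hyk := (IsFun.mem (eu_pair U) (eu_ext U) hin.1 hy).2
      obtain ⟨j, hj, rfl⟩ := fin2_mem_ordN U k y hyk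
      have haij : a i.1 j ∈ U := (ha U i.1 j).2 hy
      classical
      refine ⟨b ⊓ D i.1 ⊓ a i.1 j, insert i.1 s, Function.update g i.1 j, ?_, ?_, ?_, ?_⟩
      · intro h0
        apply U.bot_notMem
        rw [← h0]
        exact (U.inf_mem).2 ⟨(U.inf_mem).2 hU, haij⟩
      · exact (inf_le_left.trans inf_le_left).trans hb1
      · rw [Finset.card_insert_of_notMem i.2, hs]
      · intro i' hi'
        rcases Finset.mem_insert.1 hi' with h1 | h1
        · rw [h1, Function.update_self]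
          exact ⟨hj, inf_le_right⟩
        · have h2 : i' ≠ i.1 := fun h3 => i.2 (h3 ▸ h1)
          rw [Function.update_of_ne h2]
          exact ⟨(hg i' h1).1, (inf_le_left.trans inf_le_left).trans (hg i' h1).2⟩
  obtain ⟨b, s, g, hb0, hb1, hs, hg⟩ := key (k + 1)
  obtain ⟨i, hi, i', hi', hne', hgg⟩ : ∃ x ∈ s, ∃ y ∈ s, x ≠ y ∧ g x = g y := by
    apply Finset.exists_ne_map_eq_of_card_lt_of_maps_to (t := Finset.range k)
    · rw [hs, Finset.card_range]
      exact Nat.lt_succ_self k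
    · intro i hi
      simpa using (hg i hi).1
  obtain ⟨U, hU⟩ := exists_uf hb0
  have hin := hJ U (U.mono (hb1.trans inf_le_left) hU)
  have h1 := (ha U i (g i)).1 (U.mono (hg i hi).2 hU)
  have h2 := (ha U i' (g i')).1 (U.mono (hg i' hi').2 hU)
  rw [← hgg] at h2
  exact hne' (nm_ordN_inj U (hin.2 _ _ _ h1 h2))

/-- Proof. Let `f`, `n` be names and `J` the Boolean value of
`n ∈ ω ∧ IsInj f (subN D) n` (`ω = setN B ℕ`); it is enough that `J ≤ af (fun i => (D i)ᶜ)`. As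
`J ≤ ⨆ k, beq n (ordN k)` it is enough that `J' := J ⊓ beq n (ordN k) ≤ af (fun i => (D i)ᶜ) =: c`.
Suppose `J' ⊓ cᶜ ≠ ⊥`. Let `a i j` be the Boolean value of `OMem f (ordN i) (ordN j)` (`j : ℕ`).
By induction on `m` there are `b ≠ ⊥`, `b ≤ J' ⊓ cᶜ`, a finset `s` with `m` elements and
`g : I → ℕ` with `g i < k` and `b ≤ a i (g i)` for `i ∈ s`: `b ≤ cᶜ ≤ ⨆ i ∉ s, D i`, so
`b ⊓ D i ≠ ⊥` for some `i ∉ s`, and `J' ⊓ D i ≤ ⨆ j < k, a i j` (`J'` forces that `i ∈ subN D` has a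
value in `ordN k`, a finite supremum). For `m = k + 1` the pigeonhole principle gives `i ≠ i'` in
`s` with `g i = g i'`, contradicting the injectivity of `f` in a model with `b ∈ U'`
(`exists_uf`, `nm_ordN_inj`). -/
theorem af_of_fin (U : UF B) (D : I → B) (h : Fin (EU U) (nm U (subN D))) :
    af (fun i => (D i)ᶜ) ∈ U := by
  obtain ⟨w, n, f, hw, hn, hf⟩ := h
  rw [IsOmega.eq_setN U hw] at hn
  obtain ⟨n, rfl⟩ := nm_surj U n
  obtain ⟨f, rfl⟩ := nm_surj U f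
  obtain ⟨F, hF⟩ := FDef.exists_bval (B := B) (FDef.isInj 0 1 2)
  have hF' : ∀ (U : UF B) (x y z : Nm B), F (fin2_v x y z) ∈ U ↔ IsInj (EU U) (nm U x) (nm U y) (nm U z) :=
    fun U x y z => hF U _
  have h1 : F (fin2_v f (subN D) n) ∈ U := (hF' U _ _ _).2 hf
  rw [EU_nm] at hn
  refine U.mono ?_ ((U.inf_mem).2 ⟨h1, hn⟩)
  refine bmem_subN_le fun k => ?_
  refine fin2_main D f k _ fun U' hU' => ?_
  rw [U'.inf_mem, U'.inf_mem] at hU'
  have h2 := (hF' U' _ _ _).1 hU'.1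
  have h3 : nm U' n = nm U' (ordN B k) := (nm_eq U' _ _).2 hU'.2.2
  rw [h3] at h2
  exact h2

end Pool.Agent.BVM
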