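import Pool.Agent.Lib_BVM.Fin1
import Pool.Agent.Lib_BVM.Fin2

/-! # Piece FINC: inclusion modulo finite sets -/

namespace Pool.Agent.BVM

variable {B : Type} [CompleteBooleanAlgebra B] {I : Type} [LinearOrder I] [WellFoundedLT I]

theorem fin_subN (U : UF B) (D : I → B) :
    Fin (EU U) (nm U (subN D)) ↔ af (fun i => (D i)ᶜ) ∈ U :=
  ⟨af_of_fin U D, fin_of_af U D⟩

theorem subFin_subN (U : UF B) (A A' : I → B) :
    SubFin (EU U) (nm U (subN A)) (nm U (subN A')) ↔ af (fun i => A i ⇨ A' i) ∈ U := by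
  have hd := isDiff_subN U A A'
  have e1 : (fun i => (A i ⊓ (A' i)ᶜ)ᶜ) = fun i => A i ⇨ A' i := by
    funext i
    rw [compl_inf, compl_compl, himp_eq, sup_comm]
  have h1 : Fin (EU U) (nm U (subN fun i => A i ⊓ (A' i)ᶜ)) ↔ af (fun i => A i ⇨ A' i) ∈ U := by
    rw [fin_subN, e1]
  rw [← h1]
  constructor
  · rintro ⟨d, hd', hf⟩
    have : d = nm U (subN fun i => A i ⊓ (A' i)ᶜ) :=
      eu_ext U _ _ fun z => (hd' z).trans (hd z).symm
    rwa [← this]
  · intro hf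
    exact ⟨_, hd, hf⟩

theorem eqFin_subN (U : UF B) (A A' : I → B) :
    EqFin (EU U) (nm U (subN A)) (nm U (subN A')) ↔
      af (fun i => (A i ⇨ A' i) ⊓ (A' i ⇨ A i)) ∈ U := by
  rw [EqFin, subFin_subN, subFin_subN, af_inf, UF.inf_mem]

end Pool.Agent.BVM
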