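import Pool.Agent.Lib_BVM.Eq

/-! # Piece FULL: extensional functions, bounded quantifiers, mixing, fullness -/

namespace Pool.Agent.BVM

variable {B : Type} [CompleteBooleanAlgebra B]

theorem full_symm' {f : Nm B → B} (hf : Extl f) (x y : Nm B) : beq x y ⊓ f y ≤ f x := by
  rw [beq_symm]; exact hf y x

theorem Extl.inf {f g : Nm B → B} (hf : Extl f) (hg : Extl g) : Extl (fun x => f x ⊓ g x) :=
  fun x y => le_inf ((inf_le_inf_left _ inf_le_left).trans (hf x y))
    ((inf_le_inf_left _ inf_le_right).trans (hg x y))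

theorem Extl.himp {f g : Nm B → B} (hf : Extl f) (hg : Extl g) : Extl (fun x => f x ⇨ g x) := by
  intro x y
  show beq x y ⊓ (f x ⇨ g x) ≤ f y ⇨ g y
  rw [le_himp_iff]
  have h1 : beq x y ⊓ (f x ⇨ g x) ⊓ f y ≤ f x :=
    (le_inf (inf_le_left.trans inf_le_left) inf_le_right).trans (full_symm' hf x y)
  have h2 : beq x y ⊓ (f x ⇨ g x) ⊓ f y ≤ g x :=
    (le_inf (inf_le_left.trans inf_le_right) h1).trans himp_inf_le
  exact (le_inf (inf_le_left.trans inf_le_left) h2).trans (hg x y)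

theorem Extl.const (b : B) : Extl (fun _ : Nm B => b) := fun _ _ => inf_le_right

theorem Extl.compl {f : Nm B → B} (hf : Extl f) : Extl (fun x => (f x)ᶜ) := by
  have h := hf.himp (Extl.const (⊥ : B))
  simpa only [himp_bot] using h

theorem Extl.iInf {κ : Sort*} {f : κ → Nm B → B} (hf : ∀ k, Extl (f k)) :
    Extl (fun x => ⨅ k, f k x) :=
  fun x y => le_iInf fun k => (inf_le_inf_left _ (iInf_le _ k)).trans (hf k x y)

theorem Extl.iSup {κ : Sort*} {f : κ → Nm B → B} (hf : ∀ k, Extl (f k)) :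
    Extl (fun x => ⨆ k, f k x) := by
  intro x y
  show beq x y ⊓ (⨆ k, f k x) ≤ ⨆ k, f k y
  rw [inf_iSup_eq]
  exact iSup_le fun k => (hf k x y).trans (le_iSup (fun k => f k y) k)

theorem extl_mem_left (y : Nm B) : Extl (fun x => bmem x y) := fun a b => bmem_congr_left a b y

theorem extl_mem_right (y : Nm B) : Extl (fun x => bmem y x) := fun a b => bmem_congr_right a b y

theorem extl_eq (y : Nm B) : Extl (fun x => beq x y) := by
  intro a b
  show beq a b ⊓ beq a y ≤ beq b y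
  rw [beq_symm a b]
  exact beq_trans b a y

/-- bounded existential quantifier -/
theorem Extl.iSup_mem {f : Nm B → B} (hf : Extl f) {ι : Type} (a : ι → Nm B) (b : ι → B) :
    (⨆ x, bmem x (.mk ι a b) ⊓ f x) = ⨆ i, b i ⊓ f (a i) := by
  apply le_antisymm
  · refine iSup_le fun x => ?_
    rw [bmem_mk', iSup_inf_eq]
    refine iSup_le fun i => le_iSup_of_le i ?_
    refine le_inf (inf_le_left.trans inf_le_left) ?_
    exact (inf_le_inf_right _ inf_le_right).trans (hf x (a i))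
  · exact iSup_le fun i => le_iSup_of_le (a i) (inf_le_inf_right _ (bmem_mk a b i))

/-- bounded universal quantifier -/
theorem Extl.iInf_mem {f : Nm B → B} (hf : Extl f) {ι : Type} (a : ι → Nm B) (b : ι → B) :
    (⨅ x, bmem x (.mk ι a b) ⇨ f x) = ⨅ i, b i ⇨ f (a i) := by
  apply le_antisymm
  · exact le_iInf fun i => (iInf_le _ (a i)).trans (himp_le_himp_right (bmem_mk a b i))
  · refine le_iInf fun x => ?_
    rw [le_himp_iff, bmem_mk', inf_iSup_eq]
    refine iSup_le fun i => ?_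
    have h1 : (⨅ i, b i ⇨ f (a i)) ⊓ (b i ⊓ beq x (a i)) ≤ f (a i) :=
      (le_inf (inf_le_left.trans (iInf_le _ i)) (inf_le_right.trans inf_le_left)).trans himp_inf_le
    exact (le_inf (inf_le_right.trans inf_le_right) h1).trans (full_symm' hf x (a i))

/-- **Mixing.** Take `y = mk (Σ i, κ i) (fun ⟨i, k⟩ => c i k) (fun ⟨i, k⟩ => p i ⊓ d i k)` where
`x i = mk (κ i) (c i) (d i)`. -/
theorem mixing {ι : Type} (p : ι → B) (x : ι → Nm B)
    (h : ∀ i j, i ≠ j → p i ⊓ p j = ⊥) : ∃ y, ∀ i, p i ≤ beq y (x i) := by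
  have hx : ∀ i, ∃ (κ : Type) (c : κ → Nm B) (d : κ → B), x i = .mk κ c d := by
    intro i
    cases x i with
    | mk κ c d => exact ⟨κ, c, d, rfl⟩
  choose κ c d hx using hx
  refine ⟨.mk (Σ i, κ i) (fun s => c s.1 s.2) (fun s => p s.1 ⊓ d s.1 s.2), fun i => ?_⟩
  rw [hx i, beq_mk]
  refine le_inf (le_iInf fun s => ?_) (le_iInf fun k => ?_)
  · rw [le_himp_iff]
    by_cases hs : s.1 = i
    · obtain ⟨j, k⟩ := s
      obtain rfl : j = i := hs
      refine le_iSup_of_le k (le_inf (inf_le_right.trans inf_le_right) ?_)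
      show _ ≤ beq (c j k) (c j k)
      rw [beq_refl]
      exact le_top
    · have h0 : p i ⊓ p s.1 = ⊥ := h i s.1 (Ne.symm hs)
      have : p i ⊓ (p s.1 ⊓ d s.1 s.2) = ⊥ := by rw [← inf_assoc, h0, bot_inf_eq]
      rw [this]
      exact bot_le
  · rw [le_himp_iff]
    refine le_iSup_of_le (⟨i, k⟩ : Σ i, κ i) (le_inf le_rfl ?_)
    show _ ≤ beq (c i k) (c i k)
    rw [beq_refl]
    exact le_top

/-- **Fullness.** Index by the values of `f` (a type in `Type`): `J = {b : B // ∃ y, f y = b}`,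
choose `y b` with `f (y b) = b`; well-order `J` and put `p b = b ⊓ (⨆ b' < b, b')ᶜ`: pairwise
disjoint with `⨆ b, p b = ⨆ b, b = ⨆ y, f y` (a value `b` is below `⨆ b' ≤ b, p b'` by well-founded
induction). Mix: `p b ≤ beq y (y b)`, so `p b ≤ beq y (y b) ⊓ f (y b) ≤ f y`. -/
theorem fullness {f : Nm B → B} (hf : Extl f) : ∃ x, f x = ⨆ y, f y := by
  classical
  let J : Type := {b : B // ∃ y, f y = b}
  have hY : ∀ b : J, ∃ y, f y = b.1 := fun b => b.2
  choose Y hY using hY
  let r : J → J → Prop := WellOrderingRel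
  have wf : WellFounded r := WellOrderingRel.isWellOrder.wf
  let p : J → B := fun b => b.1 ⊓ (⨆ b' : {b' : J // r b' b}, b'.1.1)ᶜ
  have hlt : ∀ b b' : J, r b' b → p b ⊓ p b' = ⊥ := by
    intro b b' hb
    have h1 : p b ≤ (b'.1)ᶜ :=
      inf_le_right.trans (compl_le_compl (le_iSup (fun s : {b' : J // r b' b} => s.1.1) ⟨b', hb⟩))
    have h2 : p b' ≤ b'.1 := inf_le_left
    rw [eq_bot_iff]
    exact (inf_le_inf h1 h2).trans (by rw [compl_inf_eq_bot])
  have hdis : ∀ b b' : J, b ≠ b' → p b ⊓ p b' = ⊥ := by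
    intro b b' hne
    rcases (WellOrderingRel.isWellOrder (α := J)).trichotomous b b' with h
    by_cases h1 : r b b'
    · rw [inf_comm]; exact hlt _ _ h1
    · by_cases h2 : r b' b
      · exact hlt _ _ h2
      · exact absurd (h h1 h2) hne
  obtain ⟨y, hy⟩ := mixing p Y hdis
  have hp : ∀ b, p b ≤ f y := by
    intro b
    have h1 : p b ≤ beq y (Y b) ⊓ f (Y b) := by
      rw [hY b]
      exact le_inf (hy b) inf_le_left
    exact h1.trans (full_symm' hf y (Y b))
  have hb : ∀ b : J, b.1 ≤ f y := by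
    intro b
    induction b using wf.induction with
    | _ b ih =>
      have h1 : (⨆ b' : {b' : J // r b' b}, b'.1.1) ≤ f y := iSup_le fun s => ih s.1 s.2
      calc b.1 = b.1 ⊓ ((⨆ b' : {b' : J // r b' b}, b'.1.1) ⊔
            (⨆ b' : {b' : J // r b' b}, b'.1.1)ᶜ) := by rw [sup_compl_eq_top, inf_top_eq]
        _ = b.1 ⊓ (⨆ b' : {b' : J // r b' b}, b'.1.1) ⊔ p b := by rw [inf_sup_left]
        _ ≤ f y := sup_le (inf_le_right.trans h1) (hp b)
  refine ⟨y, le_antisymm (le_iSup f y) (iSup_le fun z => hb ⟨f z, z, rfl⟩)⟩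

theorem fullness_inf {f : Nm B → B} (hf : Extl f) : ∃ x, f x = ⨅ y, f y := by
  obtain ⟨x, hx⟩ := fullness hf.compl
  exact ⟨x, by rw [← compl_inj_iff, hx, compl_iInf]⟩

end Pool.Agent.BVM
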