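import Pool.Agent.Lib_BVM.FinC

/-! # Piece IMG: images under a function in the model -/

namespace Pool.Agent.BVM

variable {B : Type} [CompleteBooleanAlgebra B] {I : Type} [LinearOrder I] [WellFoundedLT I]

/-- the assignment with the values `x y z` -/
private def img_v {N : Type 1} (x y z : N) : ℕ → N
  | 0 => x
  | 1 => y
  | _ => z

/-- the Boolean value of `(i, j) ∈ e` (`FDef.oMem`, `FDef.exists_bval`) -/
theorem exists_bval_oMem (e : Nm B) : ∃ m : I → I → B, ∀ (U : UF B) (i j : I), m i j ∈ U ↔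
    OMem (EU U) (nm U e) (nm U (ordN B i)) (nm U (ordN B j)) := by
  obtain ⟨f, hf⟩ := (FDef.oMem 0 1 2).exists_bval (B := B)
  exact ⟨fun i j => f (img_v e (ordN B i) (ordN B j)), fun U i j => hf U _⟩

/-- a function on a subset of `I` with values in `I`: every element of the domain has a value -/
theorem le_iSup_value (e : Nm B) (A : I → B) (b : B) (m : I → I → B)
    (hm : ∀ (U : UF B) (i j : I), m i j ∈ U ↔
      OMem (EU U) (nm U e) (nm U (ordN B i)) (nm U (ordN B j)))
    (hf : ∀ U : UF B, b ∈ U → IsFun (EU U) (nm U e) (nm U (subN A)) (nm U (setN B I))) (i : I) :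
    b ⊓ A i ≤ ⨆ j, m i j := by
  refine le_of_uf fun U hU => ?_
  rw [UF.inf_mem] at hU
  by_contra hcon
  obtain ⟨y, hy, -⟩ := (hf U hU.1).2 _ (mem_subN U (i := i) |>.2 hU.2)
  have hy' := (IsFun.mem (eu_pair U) (eu_ext U) (hf U hU.1) hy).2
  have hc : (⨆ j, m i j)ᶜ ∈ U := (U.compl_mem).2 hcon
  have h1 := FDef.ball (FDef.oMem 0 1 2).not 2 (img_v e (ordN B i) e) (ordN B) (fun _ : I => (⊤ : B))
    ((⨆ j, m i j)ᶜ) (fun U' j hc' _ => by
      show ¬ OMem (EU U') (nm U' e) (nm U' (ordN B i)) (nm U' (ordN B j))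
      rw [← hm]
      exact fun h => (U'.compl_mem).1 hc' (U'.iSup_of j h)) U hc y hy'
  exact h1 hy

/-- the values are unique -/
theorem value_disjoint (e : Nm B) (A : I → B) (b : B) (m : I → I → B)
    (hm : ∀ (U : UF B) (i j : I), m i j ∈ U ↔
      OMem (EU U) (nm U e) (nm U (ordN B i)) (nm U (ordN B j)))
    (hf : ∀ U : UF B, b ∈ U → IsFun (EU U) (nm U e) (nm U (subN A)) (nm U (setN B I))) (i j k : I)
    (hjk : j ≠ k) : b ⊓ m i j ⊓ m i k = ⊥ := by
  by_contra hne
  obtain ⟨U, hU⟩ := exists_uf hne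
  rw [UF.inf_mem, UF.inf_mem, hm, hm] at hU
  exact hjk (nm_ordN_inj U (IsFun.uniq (eu_pair U) (eu_ext U) (hf U hU.1.1) hU.1.2 hU.2))

/-- The image of a subset. Proof: `→` is `FDef.ball` for the property
`∃ t, E t x ∧ OMem e t z` of `z`. `←`: by `FDef.ball` for the property
`∀ z, E z l → OMem e t z → E z im` of `t` (`l = setN B I`), proved for `t = ordN i`, `X i ∈ U'`, by
`FDef.ball` again, for the property `OMem e t z → E z im` of `z`. -/
theorem isImage_subN (U : UF B) (e : Nm B) (A X : I → B) (m : I → I → B)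
    (hm : ∀ (U : UF B) (i j : I), m i j ∈ U ↔
      OMem (EU U) (nm U e) (nm U (ordN B i)) (nm U (ordN B j)))
    (hf : IsFun (EU U) (nm U e) (nm U (subN A)) (nm U (setN B I))) :
    IsImage (EU U) (nm U (subN (fun j => ⨆ i, X i ⊓ m i j))) (nm U e) (nm U (subN X)) := by
  intro z
  constructor
  · intro hz
    -- variables: `0 = e`, `1 = x`, `2 = z`, `3 = t`
    have hdef : FDef (fun M E v => ∃ t : M, E (Function.update v 3 t 3) (Function.update v 3 t 1) ∧
        OMem E (Function.update v 3 t 0) (Function.update v 3 t 3) (Function.update v 3 t 2)) :=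
      FDef.ex 3 ((FDef.mem 3 1).and (FDef.oMem 0 3 2))
    obtain ⟨g, hg⟩ := hdef.exists_bval (B := B)
    have h1 := FDef.ball hdef 2 (img_v e (subN X) e) (ordN B) (fun j : I => ⨆ i, X i ⊓ m i j) ⊤
      (fun U' j _ hj => by
        have h2 : (⨆ i, X i ⊓ m i j) ≤ g (img_v e (subN X) (ordN B j)) := by
          refine iSup_le fun i => le_of_uf fun U'' hU'' => ?_
          rw [UF.inf_mem, hm] at hU''
          rw [hg]
          exact ⟨nm U'' (ordN B i), (mem_subN U'').2 hU''.1, hU''.2⟩
        have h3 := (hg U' _).1 (U'.mono h2 hj)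
        obtain ⟨t, ht1, ht2⟩ := h3
        exact ⟨t, ht1, ht2⟩) U U.top_mem z hz
    obtain ⟨t, ht1, ht2⟩ := h1
    exact ⟨t, ht1, ht2⟩
  · rintro ⟨t, ht, htz⟩
    have hzI := (IsFun.mem (eu_pair U) (eu_ext U) hf htz).2
    have hdef : FDef (fun M E v => OMem E (v 0) (v 3) (v 2) → E (v 2) (v 1)) :=
      (FDef.oMem 0 3 2).imp (FDef.mem 2 1)
    -- variables: `0 = e`, `1 = im`, `2 = z`, `3 = t`, `4 = x`
    have hdef2 : FDef (fun M E v => ∀ t : M, E (Function.update v 3 t 3) (Function.update v 3 t 4) →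
        OMem E (Function.update v 3 t 0) (Function.update v 3 t 3) (Function.update v 3 t 2) →
        E (Function.update v 3 t 2) (Function.update v 3 t 1)) :=
      FDef.all 3 ((FDef.mem 3 4).imp ((FDef.oMem 0 3 2).imp (FDef.mem 2 1)))
    set im : Nm B := subN (fun j => ⨆ i, X i ⊓ m i j) with him
    set w : ℕ → Nm B := fun k => if k = 0 then e else if k = 1 then im else if k = 4 then subN X else e with hw
    have h1 := FDef.ball hdef2 2 w (ordN B) (fun _ : I => (⊤ : B)) ⊤
      (fun U' j _ _ => by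
        intro t ht htj
        have h2 := FDef.ball hdef 3 (fun k => if k = 2 then ordN B j else w k) (ordN B) X ⊤
          (fun U'' i _ hi => by
            intro h3
            have h4 : OMem (EU U'') (nm U'' e) (nm U'' (ordN B i)) (nm U'' (ordN B j)) := h3
            rw [← hm] at h4
            show EU U'' (nm U'' (ordN B j)) (nm U'' im)
            rw [him, mem_subN]
            exact U''.iSup_of i ((U''.inf_mem).2 ⟨hi, h4⟩)) U' U'.top_mem t ht
        exact h2 htj) U U.top_mem z hzI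
    exact h1 t ht htz

end Pool.Agent.BVM
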