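import Pool.Agent.Lib_BVM.Defs

/-! # Piece UF: ultrafilters -/

namespace Pool.Agent.BVM

section

variable {B : Type} [BooleanAlgebra B] (U : UF B)

theorem UF.top_mem : (⊤ : B) ∈ U := U.top'

theorem UF.bot_notMem : (⊥ : B) ∉ U := U.bot'

theorem UF.mono {a b : B} (h : a ≤ b) (ha : a ∈ U) : b ∈ U := U.up' a b h ha

theorem UF.inf_mem {a b : B} : a ⊓ b ∈ U ↔ a ∈ U ∧ b ∈ U :=
  ⟨fun h => ⟨U.mono inf_le_left h, U.mono inf_le_right h⟩, fun h => U.inf' a b h.1 h.2⟩

theorem UF.compl_mem {a : B} : aᶜ ∈ U ↔ a ∉ U := by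
  constructor
  · intro h ha
    apply U.bot_notMem
    rw [← inf_compl_self a]
    exact U.inf_mem.2 ⟨ha, h⟩
  · intro h
    exact (U.cpl' a).resolve_left h

theorem UF.sup_mem {a b : B} : a ⊔ b ∈ U ↔ a ∈ U ∨ b ∈ U := by
  constructor
  · intro h
    by_contra hcon
    rw [not_or] at hcon
    have h1 : aᶜ ⊓ bᶜ ∈ U := U.inf_mem.2 ⟨U.compl_mem.2 hcon.1, U.compl_mem.2 hcon.2⟩
    rw [← compl_sup] at h1
    exact (U.compl_mem.1 h1) h
  · rintro (h | h)
    · exact U.mono le_sup_left h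
    · exact U.mono le_sup_right h

theorem UF.himp_mem {a b : B} : a ⇨ b ∈ U ↔ (a ∈ U → b ∈ U) := by
  rw [himp_eq, UF.sup_mem, UF.compl_mem]
  tauto

/-- Every nonzero element belongs to an ultrafilter (Zorn's lemma, or
`DistribLattice.prime_ideal_of_disjoint_filter_ideal`). -/
theorem exists_uf {a : B} (h : a ≠ ⊥) : ∃ U : UF B, a ∈ U := by
  have hd : Disjoint ((Order.PFilter.principal a : Order.PFilter B) : Set B) ((Order.Ideal.principal (⊥ : B)) : Set B) := by
    rw [Set.disjoint_left]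
    intro x hx hx'
    rw [SetLike.mem_coe, Order.PFilter.mem_principal] at hx
    have hx0 : x = ⊥ := by
      rw [SetLike.mem_coe, Order.Ideal.mem_principal, le_bot_iff] at hx'
      exact hx'
    rw [hx0, le_bot_iff] at hx
    exact h hx
  obtain ⟨J, hJ, -, hdis⟩ := DistribLattice.prime_ideal_of_disjoint_filter_ideal hd
  have haJ : a ∉ J := by
    intro ha
    exact Set.disjoint_left.1 hdis (Order.PFilter.mem_principal.2 le_rfl) ha
  refine ⟨⟨{x | x ∉ J}, ?_, ?_, ?_, ?_, ?_⟩, haJ⟩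
  · intro ht
    exact haJ (J.lower le_top ht)
  · intro x y hx hy hxy
    rcases hJ.mem_or_mem hxy with h1 | h1
    · exact hx h1
    · exact hy h1
  · intro x y hxy hx hy
    exact hx (J.lower hxy hy)
  · intro hb
    exact hb J.bot_mem
  · intro x
    by_contra hcon
    rw [not_or] at hcon
    simp only [Set.mem_ofPred_eq, not_not] at hcon
    apply haJ
    apply J.lower le_top
    rw [← sup_compl_eq_top (x := x)]
    exact J.sup_mem hcon.1 hcon.2

theorem le_of_uf {a b : B} (h : ∀ U : UF B, a ∈ U → b ∈ U) : a ≤ b := by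
  by_contra hcon
  have h1 : a ⊓ bᶜ ≠ ⊥ := by
    intro h2
    apply hcon
    rwa [← disjoint_iff, disjoint_compl_right_iff] at h2
  obtain ⟨U, hU⟩ := exists_uf h1
  obtain ⟨h3, h4⟩ := U.inf_mem.1 hU
  exact U.compl_mem.1 h4 (h U h3)

theorem eq_of_uf {a b : B} (h : ∀ U : UF B, a ∈ U ↔ b ∈ U) : a = b :=
  le_antisymm (le_of_uf fun U => (h U).1) (le_of_uf fun U => (h U).2)

end

section

variable {B : Type} [CompleteBooleanAlgebra B] (U : UF B)

theorem UF.of_iInf {ι : Sort*} {f : ι → B} (h : (⨅ i, f i) ∈ U) (i : ι) : f i ∈ U :=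
  U.mono (iInf_le _ i) h

theorem uf_finset {ι : Type*} {f : ι → B} (s : Finset ι) (h : ∀ i ∈ s, f i ∈ U) : (⨅ i ∈ s, f i) ∈ U := by
  classical
  induction s using Finset.induction_on with
  | empty => simpa using U.top_mem
  | insert a s ha ih =>
    rw [Finset.iInf_insert]
    exact U.inf_mem.2 ⟨h a (Finset.mem_insert_self a s), ih fun i hi => h i (Finset.mem_insert_of_mem hi)⟩

theorem uf_iInf_finite {ι : Type*} [Finite ι] {f : ι → B} : (⨅ i, f i) ∈ U ↔ ∀ i, f i ∈ U := by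
  constructor
  · exact fun h i => U.mono (iInf_le _ i) h
  · intro h
    cases nonempty_fintype ι
    have h1 := uf_finset U (f := f) Finset.univ (fun i _ => h i)
    simpa using h1

/-- finite suprema -/
theorem UF.iSup_finite {ι : Type*} [Finite ι] {f : ι → B} : (⨆ i, f i) ∈ U ↔ ∃ i, f i ∈ U := by
  constructor
  · intro h
    by_contra hcon
    rw [not_exists] at hcon
    have h1 : (⨅ i, (f i)ᶜ) ∈ U := (uf_iInf_finite U).2 fun i => U.compl_mem.2 (hcon i)
    rw [← compl_iSup] at h1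
    exact U.compl_mem.1 h1 h
  · rintro ⟨i, h⟩
    exact U.mono (le_iSup f i) h

/-- finite infima -/
theorem UF.iInf_finite {ι : Type*} [Finite ι] {f : ι → B} : (⨅ i, f i) ∈ U ↔ ∀ i, f i ∈ U :=
  uf_iInf_finite U

theorem UF.iSup_of {ι : Sort*} {f : ι → B} (i : ι) (h : f i ∈ U) : (⨆ i, f i) ∈ U :=
  U.mono (le_iSup f i) h

end

end Pool.Agent.BVM
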