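import Pool.Agent.Lib_BVM.Full
import Pool.Agent.Lib_BVM.Uf

/-! # Piece LOS: the model and the theorem of Łoś -/

namespace Pool.Agent.BVM

variable {B : Type} [CompleteBooleanAlgebra B]

theorem los_equiv (U : UF B) : Equivalence (fun x y : Nm B => beq x y ∈ U) where
  refl x := by
    rw [beq_refl]
    exact U.top_mem
  symm := by
    intro x y h
    rwa [beq_symm]
  trans := by
    intro x y z h1 h2
    exact U.mono (beq_trans x y z) (U.inf_mem.2 ⟨h1, h2⟩)

theorem nm_eq (U : UF B) (x y : Nm B) : nm U x = nm U y ↔ beq x y ∈ U :=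
  (los_equiv U).quot_mk_eq_iff x y

theorem nm_surj (U : UF B) (X : Mod U) : ∃ x, nm U x = X := Quot.exists_rep X

theorem EU_nm (U : UF B) (x y : Nm B) : EU U (nm U x) (nm U y) ↔ bmem x y ∈ U := by
  constructor
  · rintro ⟨x', y', hx, hy, h⟩
    rw [nm_eq] at hx hy
    have h1 : bmem x y' ∈ U := U.mono (bmem_congr_left x' x y') (U.inf_mem.2 ⟨hx, h⟩)
    exact U.mono (bmem_congr_right y' y x) (U.inf_mem.2 ⟨hy, h1⟩)
  · exact fun h => ⟨x, y, rfl, rfl, h⟩

theorem ex_mem_iff (U : UF B) {f : Nm B → B} (hf : Extl f) : (⨆ x, f x) ∈ U ↔ ∃ x, f x ∈ U := by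
  constructor
  · intro h
    obtain ⟨x, hx⟩ := fullness hf
    exact ⟨x, by rwa [hx]⟩
  · rintro ⟨x, hx⟩
    exact U.iSup_of x hx

theorem all_mem_iff (U : UF B) {f : Nm B → B} (hf : Extl f) : (⨅ x, f x) ∈ U ↔ ∀ x, f x ∈ U := by
  constructor
  · exact fun h x => U.of_iInf h x
  · intro h
    obtain ⟨x, hx⟩ := fullness_inf hf
    rw [← hx]
    exact h x

/-- induction on `φ` (for `neg` use the symmetry of `beq`) -/
theorem bval_extl (φ : Fml) (v v' : ℕ → Nm B) :
    (⨅ i, beq (v i) (v' i)) ⊓ bval φ v ≤ bval φ v' := by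
  induction φ generalizing v v' with
  | mem i j =>
    have h1 : (⨅ i, beq (v i) (v' i)) ≤ beq (v i) (v' i) := iInf_le _ i
    have h2 : (⨅ i, beq (v i) (v' i)) ≤ beq (v j) (v' j) := iInf_le _ j
    have h3 := bmem_congr_left (v i) (v' i) (v j)
    have h4 := bmem_congr_right (v j) (v' j) (v' i)
    show (⨅ i, beq (v i) (v' i)) ⊓ bmem (v i) (v j) ≤ bmem (v' i) (v' j)
    refine le_trans (le_inf (inf_le_left.trans h2) ?_) h4
    exact le_trans (inf_le_inf_right _ h1) h3
  | eq i j =>
    have h1 : (⨅ i, beq (v i) (v' i)) ≤ beq (v i) (v' i) := iInf_le _ i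
    have h2 : (⨅ i, beq (v i) (v' i)) ≤ beq (v j) (v' j) := iInf_le _ j
    show (⨅ i, beq (v i) (v' i)) ⊓ beq (v i) (v j) ≤ beq (v' i) (v' j)
    have h3 : (⨅ i, beq (v i) (v' i)) ⊓ beq (v i) (v j) ≤ beq (v' i) (v j) := by
      refine le_trans (inf_le_inf_right _ h1) ?_
      rw [beq_symm (v i) (v' i)]
      exact beq_trans _ _ _
    exact le_trans (le_inf h3 (inf_le_left.trans h2)) (beq_trans _ _ _)
  | neg φ ih =>
    show (⨅ i, beq (v i) (v' i)) ⊓ (bval φ v)ᶜ ≤ (bval φ v')ᶜ
    rw [le_compl_iff_disjoint_right, disjoint_iff_inf_le]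
    have h1 := ih v' v
    have h2 : (⨅ i, beq (v' i) (v i)) = ⨅ i, beq (v i) (v' i) := iInf_congr fun i => beq_symm _ _
    rw [h2] at h1
    calc (⨅ i, beq (v i) (v' i)) ⊓ (bval φ v)ᶜ ⊓ bval φ v' = ((⨅ i, beq (v i) (v' i)) ⊓ bval φ v') ⊓ (bval φ v)ᶜ := by
          rw [inf_right_comm]
      _ ≤ bval φ v ⊓ (bval φ v)ᶜ := inf_le_inf_right _ h1
      _ = ⊥ := inf_compl_self _
      _ ≤ ⊥ := le_rfl
  | and φ ψ ih1 ih2 =>
    show (⨅ i, beq (v i) (v' i)) ⊓ (bval φ v ⊓ bval ψ v) ≤ bval φ v' ⊓ bval ψ v'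
    exact le_inf (le_trans (inf_le_inf_left _ inf_le_left) (ih1 v v'))
      (le_trans (inf_le_inf_left _ inf_le_right) (ih2 v v'))
  | all i φ ih =>
    show (⨅ i, beq (v i) (v' i)) ⊓ (⨅ x : Nm B, bval φ (Function.update v i x)) ≤
      ⨅ x : Nm B, bval φ (Function.update v' i x)
    refine le_iInf fun x => ?_
    refine le_trans ?_ (ih (Function.update v i x) (Function.update v' i x))
    refine inf_le_inf ?_ (iInf_le _ x)
    refine le_iInf fun j => ?_
    by_cases hj : j = i
    · subst hj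
      rw [Function.update_self, Function.update_self, beq_refl]
      exact le_top
    · rw [Function.update_of_ne hj, Function.update_of_ne hj]
      exact iInf_le _ j

theorem bval_extl1 (φ : Fml) (v : ℕ → Nm B) (i : ℕ) :
    Extl (fun x => bval φ (Function.update v i x)) := by
  intro x y
  refine le_trans (inf_le_inf_right _ ?_) (bval_extl φ (Function.update v i x) (Function.update v i y))
  refine le_iInf fun j => ?_
  by_cases hj : j = i
  · subst hj
    rw [Function.update_self, Function.update_self]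
  · rw [Function.update_of_ne hj, Function.update_of_ne hj, beq_refl]
    exact le_top

/-- induction on `φ` -/
theorem los (U : UF B) (φ : Fml) (v : ℕ → Nm B) :
    bval φ v ∈ U ↔ Sat (EU U) φ (fun i => nm U (v i)) := by
  induction φ generalizing v with
  | mem i j => exact (EU_nm U (v i) (v j)).symm
  | eq i j => exact (nm_eq U (v i) (v j)).symm
  | neg φ ih =>
    show (bval φ v)ᶜ ∈ U ↔ ¬ Sat (EU U) φ (fun i => nm U (v i))
    rw [U.compl_mem, ih]
  | and φ ψ ih1 ih2 =>
    show bval φ v ⊓ bval ψ v ∈ U ↔ Sat (EU U) φ (fun i => nm U (v i)) ∧ Sat (EU U) ψ (fun i => nm U (v i))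
    rw [U.inf_mem, ih1, ih2]
  | all i φ ih =>
    show (⨅ x : Nm B, bval φ (Function.update v i x)) ∈ U ↔
      ∀ X : Mod U, Sat (EU U) φ (Function.update (fun i => nm U (v i)) i X)
    rw [all_mem_iff U (bval_extl1 φ v i)]
    have e : ∀ x : Nm B, (fun j => nm U (Function.update v i x j)) =
        Function.update (fun j => nm U (v j)) i (nm U x) := by
      intro x
      funext j
      by_cases hj : j = i
      · subst hj
        rw [Function.update_self, Function.update_self]
      · rw [Function.update_of_ne hj, Function.update_of_ne hj]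
    constructor
    · intro h X
      obtain ⟨x, rfl⟩ := nm_surj U X
      rw [← e x]
      exact (ih _).1 (h x)
    · intro h x
      rw [ih, e x]
      exact h _

end Pool.Agent.BVM
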