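import Pool.Agent.Lib_BVM.Nw3
import Pool.Agent.Lib_BVM.Nw4

/-! # Piece NW5: the automorphism is trivial only on finite sets -/

namespace Pool.Agent.BVM

variable {B : Type} [CompleteBooleanAlgebra B] {I : Type} [LinearOrder I] [WellFoundedLT I]

/-- the assignment `0 ↦ x`, `1 ↦ y`, otherwise `z` -/
def nw5_v (x y z : Nm B) : ℕ → Nm B
  | 0 => x
  | 1 => y
  | _ => z

theorem nw5_fdef : FDef (fun _ E v => ∀ x y z, Sub E x (v 1) → OMem E (v 2) x y →
    IsImage E z (v 0) x → EqFin E y z) := by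
  obtain ⟨φ, hφ⟩ := FDef.all 3 (FDef.all 4 (FDef.all 5 ((FDef.sub 3 1).imp
    ((FDef.oMem 2 3 4).imp ((FDef.isImage 5 0 3).imp (FDef.eqFin 4 5))))))
  refine ⟨φ, fun M E v => (hφ M E v).trans ?_⟩
  simp [Function.update]

theorem fin_of_trivialOn (C : CohenAlg I B) (hS : CSupp B) (U : UF B) (a : Mod U)
    (ha : Sub (EU U) a (nm U (setN B I)))
    (h : TrivialOn (EU U) (nm U (autN C)) (nm U (setN B I)) a) : Fin (EU U) a := by
  obtain ⟨e₀, he, hH⟩ := h
  obtain ⟨A, rfl⟩ := exists_subN U ha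
  obtain ⟨e, rfl⟩ := nm_surj U e₀
  obtain ⟨F3, hF3⟩ := (FDef.isFun 0 1 2).exists_bval (B := B)
  obtain ⟨F4, hF4⟩ := nw5_fdef.exists_bval (B := B)
  obtain ⟨m, hm⟩ := exists_bval_oMem (I := I) e
  set b : B := F3 (nw5_v e (subN A) (setN B I)) ⊓ F4 (nw5_v e (subN A) (autN C)) with hbdef
  have key : ∀ V : UF B, b ∈ V ↔
      IsFun (EU V) (nm V e) (nm V (subN A)) (nm V (setN B I)) ∧
        ∀ x y z, Sub (EU V) x (nm V (subN A)) → OMem (EU V) (nm V (autN C)) x y →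
          IsImage (EU V) z (nm V e) x → EqFin (EU V) y z := by
    intro V
    rw [hbdef, UF.inf_mem, hF3, hF4]
    exact Iff.rfl
  have hb : b ∈ U := (key U).2 ⟨he, fun x y z h1 h2 h3 => hH x y z h1 h2 h3⟩
  have L : Loc C A b m := loc_of_model C e A b m hm (fun V hV => ((key V).1 hV).1)
    fun V hV => ((key V).1 hV).2
  exact fin_of_af U A (U.mono (C.ccc.reduce A b fun K hK => L.finite_inter hS K hK) hb)

end Pool.Agent.BVM
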