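import Pool.Agent.Lib_BVM.Ctbl

/-! # Piece OMEGA1: the least uncountable ordinal of the model -/

namespace Pool.Agent.BVM

variable {B : Type} [CompleteBooleanAlgebra B] {I : Type} [LinearOrder I] [WellFoundedLT I]

private theorem omegaone_mem (U : UF B) {i j : I} (h : i < j) :
    EU U (nm U (ordN B i)) (nm U (ordN B j)) := by
  rw [EU_nm, bmem_ordN_ordN, if_pos h]
  exact U.top_mem

/-- the elements of `ordN i`: induction principle -/
private theorem omegaone_ball {P : Notion} (h : FDef P) (n : ℕ) (v : ℕ → Nm B) (i : I)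
    (H : ∀ (U' : UF B) (j : I), j < i →
      P (Mod U') (EU U') (Function.update (fun k => nm U' (v k)) n (nm U' (ordN B j))))
    (U : UF B) (X : Mod U) (hX : EU U X (nm U (ordN B i))) :
    P (Mod U) (EU U) (Function.update (fun k => nm U (v k)) n X) := by
  rw [ordN_eq] at hX
  exact FDef.ball h n v (fun j : {j : I // j < i} => ordN B j.1) (fun _ => (⊤ : B)) ⊤
    (fun U' j _ _ => H U' j.1 j.2) U U.top_mem X hX

/-- the elements of `setN B I`: induction principle -/
private theorem omegaone_ball' {P : Notion} (h : FDef P) (n : ℕ) (v : ℕ → Nm B)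
    (H : ∀ (U' : UF B) (j : I),
      P (Mod U') (EU U') (Function.update (fun k => nm U' (v k)) n (nm U' (ordN B j))))
    (U : UF B) (X : Mod U) (hX : EU U X (nm U (setN B I))) :
    P (Mod U) (EU U) (Function.update (fun k => nm U (v k)) n X) :=
  FDef.ball h n v (ordN B) (fun _ : I => (⊤ : B)) ⊤ (fun U' j _ _ => H U' j) U U.top_mem X hX

private theorem omegaone_sub (U : UF B) {i j : I} (h : i < j) :
    Sub (EU U) (nm U (ordN B i)) (nm U (ordN B j)) := by
  intro z hz
  exact omegaone_ball (FDef.mem 1 0) 1 (fun _ => ordN B j) i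
    (fun U' k hk => omegaone_mem U' (hk.trans h)) U z hz

/-- `FDef.ball`, `CCC.ctbl_subN` (with `D = ⊤`), `ctbl_ordN` -/
theorem isOmegaOne_setN (hB : CCC B) (hI : ¬ (Set.univ : Set I).Countable)
    (hc : ∀ i : I, (Set.Iio i).Countable) (U : UF B) :
    IsOmegaOne (EU U) (nm U (setN B I)) := by
  refine ⟨⟨?_, ?_⟩, ?_, ?_⟩
  · intro y hy
    have h1 := omegaone_ball' (FDef.sub 1 0) 1 (fun _ => setN B I) (fun U' j => by
      intro z hz
      exact omegaone_ball (FDef.mem 1 0) 1 (fun _ => setN B I) j
        (fun U'' k _ => (mem_subN U'').2 U''.top_mem) U' z hz) U y hy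
    exact h1
  · intro y hy
    have hdef : FDef (fun M E v => ∀ z : M, E (Function.update v 3 z 3) (Function.update v 3 z 2) →
        Sub E (Function.update v 3 z 3) (Function.update v 3 z 2)) :=
      FDef.all 3 ((FDef.mem 3 2).imp (FDef.sub 3 2))
    have h1 := omegaone_ball' hdef 2 (fun _ => setN B I) (fun U' j => by
      intro z hz
      exact omegaone_ball (FDef.sub 1 0) 1 (fun _ => ordN B j) j
        (fun U'' k hk => omegaone_sub U'' hk) U' z hz) U y hy
    exact h1
  · intro h
    obtain ⟨b, hb, hcount⟩ := hB.ctbl_subN U (fun _ : I => (⊤ : B)) h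
    apply hI
    have hb0 : b ≠ ⊥ := by
      rintro rfl
      exact U.bot_notMem hb
    refine hcount.mono fun i _ => ?_
    show b ⊓ ⊤ ≠ ⊥
    rw [inf_top_eq]
    exact hb0
  · intro y hy
    exact omegaone_ball' (FDef.ctbl 1) 1 (fun _ => setN B I)
      (fun U' j => ctbl_ordN U' j (hc j)) U y hy

end Pool.Agent.BVM
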