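import Pool.Agent.Lib_BVM.Zf1

/-! # Piece ZF3: choice -/

namespace Pool.Agent.BVM

variable {B : Type} [CompleteBooleanAlgebra B]

/-- the least index argument: `⨆ i, b i ⊓ beq y (a i) ≤ ⨆ i, c' i ⊓ beq y (a i)` -/
theorem zf3_least {ι : Type} (r : ι → ι → Prop) (hr : WellFounded r) (a : ι → Nm B) (b : ι → B)
    (y : Nm B) (i : ι) :
    b i ⊓ beq y (a i) ≤
      ⨆ j, (b j ⊓ (⨆ k, ⨆ (_ : r k j), b k ⊓ beq (a k) (a j))ᶜ) ⊓ beq y (a j) := by
  induction i using hr.induction with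
  | _ i ih =>
  set S := ⨆ j, (b j ⊓ (⨆ k, ⨆ (_ : r k j), b k ⊓ beq (a k) (a j))ᶜ) ⊓ beq y (a j) with hS
  set T := ⨆ k, ⨆ (_ : r k i), b k ⊓ beq (a k) (a i) with hT
  have h1 : b i ⊓ beq y (a i) = (b i ⊓ beq y (a i)) ⊓ T ⊔ (b i ⊓ beq y (a i)) ⊓ Tᶜ := by
    rw [← inf_sup_left, sup_compl_eq_top, inf_top_eq]
  rw [h1]
  refine sup_le ?_ ?_
  · rw [hT, inf_iSup₂_eq]
    refine iSup₂_le fun k hk => ?_
    refine le_trans (le_inf (inf_le_right.trans inf_le_left) ?_) (ih k hk)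
    have h2 := beq_trans y (a i) (a k)
    rw [beq_symm (a i) (a k)] at h2
    exact le_trans (le_inf (inf_le_left.trans inf_le_right) (inf_le_right.trans inf_le_right)) h2
  · refine le_trans ?_ (le_iSup (fun j => (b j ⊓ (⨆ k, ⨆ (_ : r k j), b k ⊓
      beq (a k) (a j))ᶜ) ⊓ beq y (a j)) i)
    exact le_inf (le_inf (inf_le_left.trans inf_le_left) inf_le_right)
      (inf_le_left.trans inf_le_right)

/-- in the model of an ultrafilter: `a i = y` as soon as they are elements of `x` with a common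
element -/
theorem zf3_eq (V : UF B) {X u y w : Nm B}
    (hDJ : (⨅ u, ⨅ u', bmem u X ⊓ bmem u' X ⊓ (⨆ w, bmem w u ⊓ bmem w u') ⇨ beq u u') ∈ V)
    (hu : bmem u X ∈ V) (hy : bmem y X ∈ V) (h1 : bmem w u ∈ V) (h2 : bmem w y ∈ V) :
    beq u y ∈ V := by
  have h3 := V.of_iInf (V.of_iInf hDJ u) y
  rw [UF.himp_mem] at h3
  refine h3 ?_
  rw [UF.inf_mem, UF.inf_mem]
  refine ⟨⟨hu, hy⟩, ?_⟩
  exact V.iSup_of (f := fun w => bmem w u ⊓ bmem w y) w (UF.inf_mem (U := V) |>.2 ⟨h1, h2⟩)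

theorem zf3_mem_congr_left (V : UF B) {x y z : Nm B} (h : beq x y ∈ V) (h' : bmem x z ∈ V) :
    bmem y z ∈ V :=
  V.mono (bmem_congr_left x y z) (UF.inf_mem (U := V) |>.2 ⟨h, h'⟩)

theorem zf3_trans (V : UF B) {x y z : Nm B} (h : beq x y ∈ V) (h' : beq y z ∈ V) :
    beq x z ∈ V :=
  V.mono (beq_trans x y z) (UF.inf_mem (U := V) |>.2 ⟨h, h'⟩)

/-- Let `x = mk ι a b`; well-order `ι`; by fullness choose names `z i` with
`bmem (z i) (a i) = ⨆ z, bmem z (a i)`. Take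
`c = mk ι z (fun i => b i ⊓ (⨆ j < i, b j ⊓ beq (a j) (a i))ᶜ) =: mk ι z c'`.
By `all_mem_iff` the values
`NE = ⨅ i, b i ⇨ ⨆ z, bmem z (a i)` and
`DJ = ⨅ u, ⨅ u', bmem u x ⊓ bmem u' x ⊓ (⨆ z, bmem z u ⊓ bmem z u') ⇨ beq u u'`
belong to `U`. Let `y` be a name.

Existence: `bmem y x = ⨆ i, b i ⊓ beq y (a i) ≤ ⨆ i, c' i ⊓ beq y (a i)` (least index, by
well-founded induction: `b i ⊓ beq y (a i) ≤ ⨆ j ≤ i, c' j ⊓ beq y (a j)`), and
`c' i ⊓ beq y (a i) ⊓ NE ≤ c' i ⊓ bmem (z i) y ≤ ⨆ z, bmem z c ⊓ bmem z y`.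

Uniqueness: `c' i ⊓ beq Z (z i) ⊓ c' j ⊓ beq Z' (z j) ⊓ bmem Z y ⊓ bmem Z' y ⊓ bmem y x ⊓ NE ⊓ DJ
≤ beq Z Z'`: for `i = j` clear; for `j < i` the left side is `⊥` (`le_of_uf`: in the model of an
ultrafilter containing it, `a i` and `y` have the common element `z i`, so `a i = y`; likewise
`a j = y`, so `a j = a i`, contradicting `c' i`). -/
theorem eu_choice (U : UF B) (x : Mod U) (h1 : ∀ y, EU U y x → ∃ z, EU U z y)
    (h2 : ∀ y y', EU U y x → EU U y' x → (∃ z, EU U z y ∧ EU U z y') → y = y') :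
    ∃ c, ∀ y, EU U y x → ∃! z, EU U z c ∧ EU U z y := by
  obtain ⟨X, rfl⟩ := nm_surj U x
  obtain ⟨ι, a, b⟩ := X
  set X : Nm B := .mk ι a b with hX
  choose z hz using fun i => fullness (extl_mem_left (a i))
  obtain ⟨r, hwo⟩ : ∃ r : ι → ι → Prop, IsWellOrder ι r := ⟨WellOrderingRel, inferInstance⟩
  have hwf : WellFounded r := hwo.wf
  set c' : ι → B := fun j => b j ⊓ (⨆ k, ⨆ (_ : r k j), b k ⊓ beq (a k) (a j))ᶜ with hc'
  -- the two Boolean values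
  have hNE : (⨅ u, bmem u X ⇨ ⨆ w, bmem w u) ∈ U := by
    rw [all_mem_iff U (Extl.himp (extl_mem_left X) (Extl.iSup fun w => extl_mem_right w))]
    intro u
    rw [UF.himp_mem]
    intro hu
    rw [← EU_nm] at hu
    obtain ⟨w, hw⟩ := h1 _ hu
    obtain ⟨w, rfl⟩ := nm_surj U w
    rw [EU_nm] at hw
    exact U.iSup_of (f := fun w => bmem w u) w hw
  have hDJ : (⨅ u, ⨅ u', bmem u X ⊓ bmem u' X ⊓ (⨆ w, bmem w u ⊓ bmem w u') ⇨ beq u u') ∈ U := by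
    rw [all_mem_iff U]
    · intro u
      rw [all_mem_iff U]
      · intro u'
        rw [UF.himp_mem, UF.inf_mem, UF.inf_mem]
        rintro ⟨⟨hu, hu'⟩, hw⟩
        rw [ex_mem_iff U (Extl.inf (extl_mem_left u) (extl_mem_left u'))] at hw
        obtain ⟨w, hw⟩ := hw
        rw [UF.inf_mem, ← EU_nm, ← EU_nm] at hw
        rw [← EU_nm] at hu hu'
        rw [← nm_eq]
        exact h2 _ _ hu hu' ⟨_, hw⟩
      · refine Extl.himp (Extl.inf (Extl.inf (Extl.const _) (extl_mem_left X))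
          (Extl.iSup fun w => Extl.inf (Extl.const _) (extl_mem_right w))) ?_
        intro p q
        have := extl_eq u p q
        simp only [beq_symm p u, beq_symm q u] at this
        exact this
    · exact Extl.iInf fun u' => Extl.himp (Extl.inf (Extl.inf (extl_mem_left X) (Extl.const _))
          (Extl.iSup fun w => Extl.inf (extl_mem_right w) (Extl.const _))) (extl_eq u')
  -- the element `z i` of `a i`
  have hzi : ∀ V : UF B, (⨅ u, bmem u X ⇨ ⨆ w, bmem w u) ∈ V → ∀ i, b i ∈ V →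
      bmem (z i) (a i) ∈ V := by
    intro V hV i hi
    have h3 := V.of_iInf hV (a i)
    rw [UF.himp_mem] at h3
    have h4 := h3 (V.mono (bmem_mk a b i) hi)
    have h5 : bmem (z i) (a i) = ⨆ w, bmem w (a i) := hz i
    rw [h5]
    exact h4
  refine ⟨nm U (.mk ι z c'), fun y hy => ?_⟩
  obtain ⟨y, rfl⟩ := nm_surj U y
  rw [EU_nm] at hy
  -- existence
  have hex : ∃ w, EU U w (nm U (.mk ι z c')) ∧ EU U w (nm U y) := by
    have h3 : (⨆ w, bmem w (.mk ι z c') ⊓ bmem w y) ∈ U := by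
      refine U.mono ?_ (UF.inf_mem (U := U) |>.2 ⟨hy, hNE⟩)
      have h4 : bmem y X ≤ ⨆ j, c' j ⊓ beq y (a j) := by
        rw [hX, bmem_mk']
        exact iSup_le fun i => zf3_least r hwf a b y i
      refine le_trans (inf_le_inf_right _ h4) ?_
      rw [iSup_inf_eq]
      refine iSup_le fun i => ?_
      refine le_trans ?_ (le_iSup (fun w => bmem w (.mk ι z c') ⊓ bmem w y) (z i))
      apply le_of_uf
      intro V hV
      rw [UF.inf_mem, UF.inf_mem] at hV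
      obtain ⟨⟨h5, h6⟩, h7⟩ := hV
      rw [UF.inf_mem]
      refine ⟨V.mono (bmem_mk z c' i) h5, ?_⟩
      have h8 := hzi V h7 i (V.mono inf_le_left h5)
      rw [beq_symm] at h6
      exact V.mono (bmem_congr_right (a i) y (z i)) (UF.inf_mem (U := V) |>.2 ⟨h6, h8⟩)
    rw [ex_mem_iff U (Extl.inf (extl_mem_left _) (extl_mem_left y))] at h3
    obtain ⟨w, hw⟩ := h3
    rw [UF.inf_mem, ← EU_nm, ← EU_nm] at hw
    exact ⟨_, hw⟩
  refine existsUnique_of_exists_of_unique hex ?_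
  -- uniqueness
  rintro Z Z' ⟨hZ1, hZ2⟩ ⟨hZ1', hZ2'⟩
  obtain ⟨Z, rfl⟩ := nm_surj U Z
  obtain ⟨Z', rfl⟩ := nm_surj U Z'
  rw [EU_nm] at hZ1 hZ2 hZ1' hZ2'
  rw [nm_eq]
  set R : B := (⨅ u, bmem u X ⇨ ⨆ w, bmem w u) ⊓
    (⨅ u, ⨅ u', bmem u X ⊓ bmem u' X ⊓ (⨆ w, bmem w u ⊓ bmem w u') ⇨ beq u u') ⊓
    bmem y X with hR
  have hRU : R ∈ U := by
    rw [hR, UF.inf_mem, UF.inf_mem]
    exact ⟨⟨hNE, hDJ⟩, hy⟩
  -- the key disjointness
  have key : ∀ (V : UF B) (i j : ι) (W W' : Nm B), R ∈ V → r j i → c' i ∈ V → c' j ∈ V →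
      beq W (z i) ∈ V → beq W' (z j) ∈ V → bmem W y ∈ V → bmem W' y ∈ V → False := by
    intro V i j W W' hRV hji hi hj hW hW' hWy hWy'
    rw [hR, UF.inf_mem, UF.inf_mem] at hRV
    obtain ⟨⟨hNEV, hDJV⟩, hyV⟩ := hRV
    have hbi : b i ∈ V := V.mono inf_le_left hi
    have hbj : b j ∈ V := V.mono inf_le_left hj
    have e1 : beq (a i) y ∈ V := zf3_eq V hDJV (V.mono (bmem_mk a b i) hbi) hyV
      (hzi V hNEV i hbi) (zf3_mem_congr_left V hW hWy)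
    have e2 : beq (a j) y ∈ V := zf3_eq V hDJV (V.mono (bmem_mk a b j) hbj) hyV
      (hzi V hNEV j hbj) (zf3_mem_congr_left V hW' hWy')
    have e3 : beq (a j) (a i) ∈ V := by
      rw [beq_symm] at e1
      exact zf3_trans V e2 e1
    have h5 : (⨆ k, ⨆ (_ : r k i), b k ⊓ beq (a k) (a i))ᶜ ∈ V := V.mono inf_le_right hi
    rw [UF.compl_mem] at h5
    refine h5 (V.mono ?_ (UF.inf_mem (U := V) |>.2 ⟨hbj, e3⟩))
    exact le_iSup₂ (f := fun k (_ : r k i) => b k ⊓ beq (a k) (a i)) j hji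
  rw [bmem_mk'] at hZ1 hZ1'
  refine U.mono ?_ (UF.inf_mem (U := U) |>.2 ⟨UF.inf_mem (U := U) |>.2 ⟨hZ1, hZ1'⟩,
    UF.inf_mem (U := U) |>.2 ⟨hRU, UF.inf_mem (U := U) |>.2 ⟨hZ2, hZ2'⟩⟩⟩)
  rw [iSup_inf_iSup, iSup_inf_eq]
  refine iSup_le fun p => ?_
  obtain ⟨i, j⟩ := p
  apply le_of_uf
  intro V hV
  simp only [UF.inf_mem] at hV
  obtain ⟨⟨⟨hi, hZi⟩, hj, hZj⟩, hRV, hZy, hZy'⟩ := hV
  have hRV' : R ∈ V := hRV
  rcases trichotomous_of r i j with h | h | h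
  · exact (key V j i Z' Z hRV' h hj hi hZj hZi hZy' hZy).elim
  · subst h
    rw [beq_symm] at hZj
    exact zf3_trans V hZi hZj
  · exact (key V i j Z Z' hRV' h hi hj hZi hZj hZy hZy').elim

end Pool.Agent.BVM
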