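import Pool.Agent.Lib_BVM.Zf2
import Pool.Agent.Lib_BVM.Zf3
import Pool.Agent.Lib_BVM.OmegaOne
import Pool.Agent.Lib_BVM.Cohen2
import Pool.Agent.Lib_BVM.Nw5

/-! # The model -/

namespace Pool.Agent.BVM

/-- every Boolean valued model modulo an ultrafilter is a model of ZFC -/
theorem modelZFC {B : Type} [CompleteBooleanAlgebra B] (U : UF B) : ModelZFC (EU U) where
  nonempty := ⟨nm U (setN B ℕ)⟩
  ext := eu_ext U
  found := eu_found U
  pair := eu_pair U
  union := eu_union U
  power := eu_power U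
  infinity := ⟨_, (isOmega_setN U).1⟩
  sep := eu_sep U
  repl := eu_repl U
  choice := eu_choice U

theorem exists_omegaOne : ∃ (I : Type) (_ : LinearOrder I) (_ : WellFoundedLT I)
    (r : I → ℕ → Bool), Function.Injective r ∧ ¬ (Set.univ : Set I).Countable ∧
      ∀ i : I, (Set.Iio i).Countable := by
  refine ⟨(Cardinal.aleph 1 : Cardinal.{0}).ord.ToType, inferInstance, inferInstance, ?_⟩
  have h1 : Cardinal.mk ((Cardinal.aleph 1 : Cardinal.{0}).ord.ToType) = Cardinal.aleph 1 :=
    Cardinal.mk_ord_toType _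
  have h2 : Cardinal.mk ((Cardinal.aleph 1 : Cardinal.{0}).ord.ToType) ≤
      Cardinal.mk (ℕ → Bool) := by
    rw [h1]
    have : Cardinal.mk (ℕ → Bool) = Cardinal.continuum := by simp
    rw [this]
    exact Cardinal.aleph_one_le_continuum
  obtain ⟨r⟩ := h2
  refine ⟨r, r.injective, ?_, ?_⟩
  · intro h
    have h3 := Set.countable_univ_iff.1 h
    have h4 := Cardinal.mk_le_aleph0_iff.2 h3
    rw [h1] at h4
    exact absurd h4 (not_le.2 Cardinal.aleph0_lt_aleph_one)
  · intro i
    have h3 : Cardinal.mk (Set.Iio i) < Cardinal.aleph 1 := by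
      simpa using Cardinal.mk_Iio_lt i
    rw [← Cardinal.le_aleph0_iff_set_countable]
    rwa [← Order.lt_succ_iff, Cardinal.succ_aleph0]

/-- **A model of ZFC with a nowhere trivial automorphism of `P(ω₁) / Fin`.** -/
theorem main : ∃ (M : Type 1) (E : M → M → Prop), ModelZFC E ∧
    ∃ l r : M, IsOmegaOne E l ∧ InducesAut E r l ∧
      ∀ a, Sub E a l → TrivialOn E r l a → Fin E a := by
  obtain ⟨I, _, _, r, hr, hI, hc⟩ := exists_omegaOne
  obtain ⟨B, _, ⟨C⟩, hS⟩ := exists_cohen2 I r hr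
  obtain ⟨U, -⟩ := exists_uf (a := (⊤ : B)) C.nontriv.symm
  exact ⟨Mod U, EU U, modelZFC U, nm U (setN B I), nm U (autN C), isOmegaOne_setN C.ccc hI hc U,
    inducesAut_autN C U, fun a ha h => fin_of_trivialOn C hS U a ha h⟩

end Pool.Agent.BVM
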