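import Pool.Agent.Lib_BVM.Zf1

/-! # Piece NAMES: names of ordinals and of their subsets -/

namespace Pool.Agent.BVM

variable {B : Type} [CompleteBooleanAlgebra B]

/-- the name of the element `i` of a well-ordered type `I`, as a von Neumann ordinal -/
noncomputable def ordN (B : Type) [CompleteBooleanAlgebra B] {I : Type} [LinearOrder I]
    [WellFoundedLT I] : I → Nm B :=
  WellFounded.fix (wellFounded_lt (α := I))
    (fun i f => .mk {j : I // j < i} (fun j => f j.1 j.2) (fun _ => ⊤))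

section

variable {I : Type} [LinearOrder I] [WellFoundedLT I]

theorem ordN_eq (i : I) :
    ordN B i = .mk {j : I // j < i} (fun j => ordN B j.1) (fun _ => ⊤) :=
  WellFounded.fix_eq _ _ _

/-- the name of the set of all elements `i` with Boolean value `A i` -/
noncomputable def subN (A : I → B) : Nm B := .mk I (ordN B) A

/-- the name of the ordinal `I` itself -/
noncomputable def setN (B : Type) [CompleteBooleanAlgebra B] (I : Type) [LinearOrder I]
    [WellFoundedLT I] : Nm B := subN (fun _ : I => (⊤ : B))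

theorem bmem_ordN (x : Nm B) (i : I) : bmem x (ordN B i) = ⨆ j : {j : I // j < i}, beq x (ordN B j.1) := by
  rw [ordN_eq, bmem_mk']
  simp only [top_inf_eq]

theorem bmem_subN (x : Nm B) (A : I → B) : bmem x (subN A) = ⨆ i, A i ⊓ beq x (ordN B i) := rfl

theorem names_lt {i j : I} (h : i < j) : bmem (ordN B i) (ordN B j) = ⊤ := by
  rw [bmem_ordN, eq_top_iff, ← beq_refl (ordN B i)]
  exact le_iSup (fun k : {k : I // k < j} => beq (ordN B i) (ordN B k.1)) ⟨i, h⟩

theorem names_irr (i : I) : bmem (ordN B i) (ordN B i) = ⊥ := by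
  induction i using WellFoundedLT.induction with
  | ind i ih =>
    rw [bmem_ordN, eq_bot_iff]
    refine iSup_le fun k => ?_
    rw [← ih k.1 k.2]
    have h1 := bmem_congr_right (ordN B i) (ordN B k.1) (ordN B k.1)
    rw [names_lt k.2, inf_top_eq] at h1
    exact h1

/-- By symmetry `i < j`; `ordN i` belongs to `ordN j` with value `⊤`, so it is enough that
`bmem (ordN i) (ordN i) = ⊥`, which follows from well-founded induction
(`bmem (ordN i) (ordN i) = ⨆ k < i, beq (ordN i) (ordN k) ≤ ⨆ k < i, bmem (ordN k) (ordN k)`). -/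
theorem beq_ordN {i j : I} (h : i ≠ j) : beq (ordN B i) (ordN B j) = ⊥ := by
  have key : ∀ i j : I, i < j → beq (ordN B j) (ordN B i) = ⊥ := by
    intro i j hij
    rw [eq_bot_iff, ← names_irr (B := B) i]
    have h1 := bmem_congr_right (ordN B j) (ordN B i) (ordN B i)
    rw [names_lt hij, inf_top_eq] at h1
    exact h1
  rcases lt_or_gt_of_ne h with h1 | h1
  · rw [beq_symm]
    exact key i j h1
  · exact key j i h1

theorem bmem_ordN_subN (i : I) (A : I → B) : bmem (ordN B i) (subN A) = A i := by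
  rw [bmem_subN]
  apply le_antisymm
  · refine iSup_le fun k => ?_
    by_cases h : i = k
    · subst h
      exact inf_le_left
    · rw [beq_ordN h, inf_bot_eq]
      exact bot_le
  · refine le_iSup_of_le i ?_
    rw [beq_refl, inf_top_eq]

theorem bmem_ordN_ordN (i j : I) : bmem (ordN B i) (ordN B j) = if i < j then ⊤ else ⊥ := by
  split_ifs with h
  · exact names_lt h
  · rw [bmem_ordN, eq_bot_iff]
    refine iSup_le fun k => ?_
    have hk : i ≠ k.1 := fun h1 => h (by rw [h1]; exact k.2)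
    rw [beq_ordN hk]

variable (U : UF B)

theorem nm_ordN_inj {i j : I} (h : nm U (ordN B i) = nm U (ordN B j)) : i = j := by
  by_contra hij
  rw [nm_eq, beq_ordN hij] at h
  exact U.bot_notMem h

theorem mem_subN {i : I} {A : I → B} : EU U (nm U (ordN B i)) (nm U (subN A)) ↔ A i ∈ U := by
  rw [EU_nm, bmem_ordN_subN]

/-- every subset of `I` in the model is given by a function `I → B` -/
theorem exists_subN {x : Mod U} (h : Sub (EU U) x (nm U (setN B I))) :
    ∃ A : I → B, x = nm U (subN A) := by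
  obtain ⟨x', rfl⟩ := nm_surj U x
  refine ⟨fun i => bmem (ordN B i) x', ?_⟩
  apply eu_ext
  intro z
  obtain ⟨z', rfl⟩ := nm_surj U z
  constructor
  · intro hz
    have h2 := h _ hz
    rw [EU_nm] at hz h2 ⊢
    refine U.mono ?_ (U.inf' _ _ hz h2)
    have e1 : bmem z' (setN B I) = ⨆ i : I, (⊤ : B) ⊓ beq z' (ordN B i) := rfl
    rw [e1, inf_iSup_eq, bmem_subN]
    refine iSup_mono fun i => ?_
    rw [top_inf_eq]
    refine le_inf ?_ inf_le_right
    rw [inf_comm]
    exact bmem_congr_left z' (ordN B i) x'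
  · intro hz
    rw [EU_nm] at hz ⊢
    refine U.mono ?_ hz
    rw [bmem_subN]
    refine iSup_le fun i => ?_
    rw [inf_comm, beq_symm]
    exact bmem_congr_left (ordN B i) z' x'

theorem sub_setN (A : I → B) : Sub (EU U) (nm U (subN A)) (nm U (setN B I)) := by
  intro z hz
  obtain ⟨z', rfl⟩ := nm_surj U z
  rw [EU_nm] at hz ⊢
  refine U.mono ?_ hz
  have e1 : bmem z' (setN B I) = ⨆ i : I, (⊤ : B) ⊓ beq z' (ordN B i) := rfl
  rw [e1, bmem_subN]
  exact iSup_mono fun i => inf_le_inf_right _ le_top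

theorem sub_subN (A A' : I → B) :
    Sub (EU U) (nm U (subN A)) (nm U (subN A')) ↔ (⨅ i, A i ⇨ A' i) ∈ U := by
  have e1 : (⨅ z, bmem z (subN A) ⇨ bmem z (subN A')) = ⨅ i, A i ⇨ A' i := by
    have e2 := (extl_mem_left (subN A')).iInf_mem (ordN B) A
    have e3 : (⨅ i, A i ⇨ bmem (ordN B i) (subN A')) = ⨅ i, A i ⇨ A' i :=
      iInf_congr fun i => by rw [bmem_ordN_subN]
    rw [← e3]
    exact e2
  rw [← e1, all_mem_iff U ((extl_mem_left (subN A)).himp (extl_mem_left (subN A')))]
  constructor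
  · intro h z
    rw [U.himp_mem]
    intro hz
    exact (EU_nm U _ _).1 (h _ ((EU_nm U _ _).2 hz))
  · intro h z hz
    obtain ⟨z', rfl⟩ := nm_surj U z
    exact (EU_nm U _ _).2 (U.himp_mem.1 (h z') ((EU_nm U _ _).1 hz))

theorem eq_subN (A A' : I → B) :
    nm U (subN A) = nm U (subN A') ↔ (⨅ i, (A i ⇨ A' i) ⊓ (A' i ⇨ A i)) ∈ U := by
  rw [iInf_inf_eq, U.inf_mem, ← sub_subN, ← sub_subN]
  constructor
  · intro h
    rw [h]
    exact ⟨fun z hz => hz, fun z hz => hz⟩
  · rintro ⟨h1, h2⟩
    exact eu_ext U _ _ fun z => ⟨h1 z, h2 z⟩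

theorem isDiff_subN (A A' : I → B) :
    IsDiff (EU U) (nm U (subN (fun i => A i ⊓ (A' i)ᶜ))) (nm U (subN A)) (nm U (subN A')) := by
  intro z
  obtain ⟨z', rfl⟩ := nm_surj U z
  rw [EU_nm, EU_nm, EU_nm, ← U.compl_mem]
  constructor
  · intro hz
    refine ⟨U.mono ?_ hz, U.mono ?_ hz⟩
    · rw [bmem_subN, bmem_subN]
      exact iSup_mono fun i => inf_le_inf_right _ inf_le_left
    · rw [le_compl_iff_disjoint_right, disjoint_iff_inf_le, bmem_subN, iSup_inf_eq]
      refine iSup_le fun i => ?_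
      have h1 : beq z' (ordN B i) ⊓ bmem z' (subN A') ≤ A' i := by
        rw [← bmem_ordN_subN i A']
        exact bmem_congr_left z' (ordN B i) (subN A')
      calc A i ⊓ (A' i)ᶜ ⊓ beq z' (ordN B i) ⊓ bmem z' (subN A')
          ≤ (A' i)ᶜ ⊓ (beq z' (ordN B i) ⊓ bmem z' (subN A')) :=
            le_inf (inf_le_left.trans (inf_le_left.trans inf_le_right))
              (le_inf (inf_le_left.trans inf_le_right) inf_le_right)
        _ ≤ (A' i)ᶜ ⊓ A' i := inf_le_inf_left _ h1
        _ ≤ ⊥ := by rw [compl_inf_self]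
  · rintro ⟨h1, h2⟩
    refine U.mono ?_ (U.inf' _ _ h1 h2)
    rw [bmem_subN z' A, iSup_inf_eq, bmem_subN z' (fun i => A i ⊓ (A' i)ᶜ)]
    refine iSup_mono fun i => ?_
    have h3 : A' i ⊓ beq z' (ordN B i) ≤ bmem z' (subN A') := by
      rw [bmem_subN]
      exact le_iSup (fun k => A' k ⊓ beq z' (ordN B k)) i
    refine le_inf (le_inf (inf_le_left.trans inf_le_left) ?_) (inf_le_left.trans inf_le_right)
    rw [le_compl_iff_disjoint_right, disjoint_iff_inf_le]
    calc A i ⊓ beq z' (ordN B i) ⊓ (bmem z' (subN A'))ᶜ ⊓ A' i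
        ≤ (A' i ⊓ beq z' (ordN B i)) ⊓ (bmem z' (subN A'))ᶜ :=
          le_inf (le_inf inf_le_right (inf_le_left.trans (inf_le_left.trans inf_le_right)))
            (inf_le_left.trans inf_le_right)
      _ ≤ bmem z' (subN A') ⊓ (bmem z' (subN A'))ᶜ := inf_le_inf_right _ h3
      _ ≤ ⊥ := by rw [inf_compl_self]

/-- Boolean reasoning element by element: if `a ⊓ beq x (ordN i) ⊓ A i ≤ f` for all `i`, then
`a ⊓ bmem x (subN A) ≤ f`. -/
theorem bmem_subN_le {a f : B} {x : Nm B} {A : I → B}
    (h : ∀ i, a ⊓ (A i ⊓ beq x (ordN B i)) ≤ f) : a ⊓ bmem x (subN A) ≤ f := by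
  rw [bmem_subN, inf_iSup_eq]
  exact iSup_le h

end

/-- the name of the ordered pair -/
def opN (x y : Nm B) : Nm B := upN (upN x x) (upN x y)

theorem isOPair_opN (U : UF B) (x y : Nm B) :
    IsOPair (EU U) (nm U (opN x y)) (nm U x) (nm U y) := by
  have key : ∀ (u v : Nm B) (w : Mod U), w = nm U (upN u v) ↔ IsUPair (EU U) w (nm U u) (nm U v) := by
    intro u v w
    constructor
    · rintro rfl
      exact isUPair_upN U u v
    · intro h
      apply eu_ext
      intro z
      rw [h z, isUPair_upN U u v z]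
  intro w
  rw [← key, ← key]
  exact isUPair_upN U (upN x x) (upN x y) w

end Pool.Agent.BVM
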