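import Pool.Agent.Lib_BVM.Auto
import Pool.Agent.Lib_BVM.Img

/-! # Piece NT1: a function inducing the automorphism is the identity almost everywhere -/

namespace Pool.Agent.BVM

variable {B : Type} [CompleteBooleanAlgebra B] {I : Type} [LinearOrder I] [WellFoundedLT I]

/-- the value of the hypothesis `H` at a subset given by a function `X` -/
theorem nt1_af (C : CohenAlg I B) (e : Nm B) (A : I → B) (b : B)
    (m : I → I → B) (hm : ∀ (U : UF B) (i j : I), m i j ∈ U ↔
      OMem (EU U) (nm U e) (nm U (ordN B i)) (nm U (ordN B j)))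
    (hf : ∀ U : UF B, b ∈ U → IsFun (EU U) (nm U e) (nm U (subN A)) (nm U (setN B I)))
    (H : ∀ U : UF B, b ∈ U → ∀ x y z, Sub (EU U) x (nm U (subN A)) →
      OMem (EU U) (nm U (autN C)) x y → IsImage (EU U) z (nm U e) x → EqFin (EU U) y z)
    (X : I → B) (hX : ∀ i, b ⊓ X i ≤ A i) (U : UF B) (hb : b ∈ U) :
    af (fun j => (C.fl X j ⇨ ⨆ i, X i ⊓ m i j) ⊓ ((⨆ i, X i ⊓ m i j) ⇨ C.fl X j)) ∈ U := by
  rw [← eqFin_subN]
  refine H U hb (nm U (subN X)) _ _ ?_ (oMem_autN C U X) (isImage_subN U e A X m hm (hf U hb))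
  rw [sub_subN]
  exact U.mono (le_iInf fun i => le_himp_iff.2 (hX i)) hb

omit [LinearOrder I] [WellFoundedLT I] in
theorem nt1_extract (r : I → ℕ → Bool) (hr : Function.Injective r) (j : I → I) (T : Set I)
    (hT : ¬ T.Countable) (hj : ∀ i ∈ T, j i ≠ i) :
    ∃ (k : ℕ) (v : Bool), ¬ {i | i ∈ T ∧ r i k = v ∧ r (j i) k ≠ v}.Countable := by
  by_contra hcon
  push Not at hcon
  apply hT
  have h1 : T ⊆ ⋃ k : ℕ, ⋃ v : Bool, {i | i ∈ T ∧ r i k = v ∧ r (j i) k ≠ v} := by
    intro i hi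
    have h2 : r i ≠ r (j i) := fun h => hj i hi (hr h).symm
    obtain ⟨k, hk⟩ := Function.ne_iff.1 h2
    exact Set.mem_iUnion.2 ⟨k, Set.mem_iUnion.2 ⟨r i k, hi, rfl, hk.symm⟩⟩
  exact (Set.countable_iUnion fun k => Set.countable_iUnion fun v => hcon k v).mono h1

/-- Proof. Suppose that the set `T` of all `i ∉ S` with some `j ≠ i`, `b ⊓ m i j ≠ ⊥` is
uncountable; choose such a `j i`. As `r i ≠ r (j i)` there are `k` and `v : Bool` such that
`T' = {i ∈ T | r i k = v ∧ r (j i) k ≠ v}` is uncountable. Put `a i = b ⊓ m i (j i)` for `i ∈ T'` and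
`W i = ⊤` if `i ∉ S ∧ r i k = v`, `W i = ⊥` otherwise. Then `C.fl W = W` and `b ≤ A i` for
`W i = ⊤`, and `W (j i) = ⊥` for `i ∈ T'`.

Case A: `j` is constant, `= y`, on an uncountable `T'' ⊆ T'`. Put `X i = m i y` for `i ∈ T''`,
`X i = ⊥` otherwise. By `CCC.limit` for `a` and `T''` there is `i₀ ∈ T''` with
`d := a i₀ ≤ ⨆ i ∈ T'' \ s, a i` for all countable `s`, `d ≠ ⊥`. Let `d ∈ U`. In the model of `U` the
image of `subN X` is `subN Z`, `Z j = ⨆ i, X i ⊓ m i j` (`isImage_subN`), and `Z j ∉ U`-wise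
`b ⊓ Z j = ⊥` for `j ≠ y` (`value_disjoint`), so `af (fun i => (Z i)ᶜ) ∈ U`; as
`EqFin (subN (C.fl X)) (subN Z)`, also `af (fun i => (C.fl X i)ᶜ) ∈ U`, hence
`af (fun i => (X i)ᶜ) ∈ U` (`af_fl`), contradicting `d ⊓ af (fun i => (X i)ᶜ) = ⊥`
(`af_inf_eq_bot`).

Case B: otherwise the image of `T'` under `j` is uncountable (`j` is countable-to-one on `T'`);
choose an uncountable `T'' ⊆ T'` on which `j` is injective, and `i₀`, `d` for `a`, `T''` as before.
Let `d ∈ U`. Then `EqFin (subN W) (subN Z)`, `Z j = ⨆ i, W i ⊓ m i j`, so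
`af (fun j => Z j ⇨ W j) ∈ U`. But `d ⊓ af (fun j => Z j ⇨ W j) = ⊥` by `af_inf_eq_bot`: for a finset
`s` the set `{i ∈ T'' | j i ∈ s}` is finite, so
`d ≤ ⨆ i ∈ T'', j i ∉ s, a i ≤ ⨆ j ∉ s, (Z j ⇨ W j)ᶜ`, because `a i ≤ Z (j i)`, `W (j i) = ⊥`. -/
theorem almost_id (C : CohenAlg I B) (r : I → ℕ → Bool) (hr : Function.Injective r) (e : Nm B)
    (A : I → B) (b : B) (S : Set I) (hS : S.Countable) (hA : ∀ i, i ∉ S → b ≤ A i)
    (m : I → I → B) (hm : ∀ (U : UF B) (i j : I), m i j ∈ U ↔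
      OMem (EU U) (nm U e) (nm U (ordN B i)) (nm U (ordN B j)))
    (hf : ∀ U : UF B, b ∈ U → IsFun (EU U) (nm U e) (nm U (subN A)) (nm U (setN B I)))
    (H : ∀ U : UF B, b ∈ U → ∀ x y z, Sub (EU U) x (nm U (subN A)) →
      OMem (EU U) (nm U (autN C)) x y → IsImage (EU U) z (nm U e) x → EqFin (EU U) y z) :
    {i | i ∉ S ∧ ∃ j, j ≠ i ∧ b ⊓ m i j ≠ ⊥}.Countable := by
  classical
  by_contra hT
  set T : Set I := {i | i ∉ S ∧ ∃ j, j ≠ i ∧ b ⊓ m i j ≠ ⊥} with hTdef
  have hch : ∀ i, ∃ j, i ∈ T → j ≠ i ∧ b ⊓ m i j ≠ ⊥ := by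
    intro i
    by_cases hi : i ∈ T
    · obtain ⟨j, hj⟩ := hi.2
      exact ⟨j, fun _ => hj⟩
    · exact ⟨i, fun h => absurd h hi⟩
  choose j hj using hch
  obtain ⟨k, v, hT'⟩ := nt1_extract r hr j T hT (fun i hi => (hj i hi).1)
  set T' : Set I := {i | i ∈ T ∧ r i k = v ∧ r (j i) k ≠ v} with hT'def
  set a : I → B := fun i => b ⊓ m i (j i) with ha
  by_cases hcase : ∃ y, ¬ {i | i ∈ T' ∧ j i = y}.Countable
  · -- case A
    obtain ⟨y, hy⟩ := hcase
    set T'' : Set I := {i | i ∈ T' ∧ j i = y} with hT''def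
    set X : I → B := fun i => if i ∈ T'' then m i y else ⊥ with hX
    obtain ⟨i₀, hi₀, hlim⟩ := C.ccc.limit a T'' hy (fun i hi => (hj i hi.1.1).2)
    obtain ⟨U, hU⟩ := exists_uf (hj i₀ hi₀.1.1).2
    have hb : b ∈ U := U.mono inf_le_left hU
    have hXA : ∀ i, b ⊓ X i ≤ A i := by
      intro i
      by_cases hi : i ∈ T''
      · exact inf_le_left.trans (hA i hi.1.1.1)
      · simp [hX, hi]
    have h1 := nt1_af C e A b m hm hf H X hXA U hb
    set Z : I → B := fun l => ⨆ i, X i ⊓ m i l with hZ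
    have hZ0 : ∀ l, l ≠ y → b ≤ (Z l)ᶜ := by
      intro l hl
      rw [le_compl_iff_disjoint_right, disjoint_iff, hZ, inf_iSup_eq, iSup_eq_bot]
      intro i
      by_cases hi : i ∈ T''
      · have h2 := value_disjoint e A b m hm hf i y l hl.symm
        simp only [hX, hi, if_true]
        rw [← inf_assoc]
        exact h2
      · simp [hX, hi]
    have h2 : af (fun i => (Z i)ᶜ) ∈ U := by
      refine U.mono ?_ hb
      unfold af
      refine le_iSup_of_le {y} (le_iInf fun l => hZ0 l.1 ?_)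
      intro h
      exact l.2 (by simp [h])
    have h3 : af (fun i => (C.fl X i)ᶜ) ∈ U := by
      have h4 := U.inf_mem.2 ⟨h1, h2⟩
      rw [← af_inf] at h4
      refine U.mono (af_mono fun i => ?_) h4
      rw [le_compl_iff_disjoint_right, disjoint_iff]
      apply le_bot_iff.1
      have h5 : (C.fl X i ⇨ Z i) ⊓ C.fl X i ≤ Z i := himp_inf_le
      calc ((C.fl X i ⇨ Z i) ⊓ (Z i ⇨ C.fl X i)) ⊓ (Z i)ᶜ ⊓ C.fl X i
          ≤ (Z i)ᶜ ⊓ ((C.fl X i ⇨ Z i) ⊓ C.fl X i) :=
            le_inf (inf_le_left.trans inf_le_right)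
              (le_inf (inf_le_left.trans (inf_le_left.trans inf_le_left)) inf_le_right)
        _ ≤ (Z i)ᶜ ⊓ Z i := inf_le_inf_left _ h5
        _ = ⊥ := compl_inf_self _
    have h6 : (fun i => (C.fl X i)ᶜ) = C.fl (fun i => (X i)ᶜ) := by
      funext i
      exact (map_compl' (C.σ i) (X i)).symm
    rw [h6, C.af_fl] at h3
    have h7 : a i₀ ⊓ af (fun i => (X i)ᶜ) = ⊥ := by
      apply af_inf_eq_bot
      intro s
      refine (hlim (s : Set I) s.countable_toSet).trans (iSup_le fun l => ?_)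
      refine le_iSup_of_le ⟨l.1, fun h => l.2.2 (by exact_mod_cast h)⟩ ?_
      have h8 : X l.1 = m l.1 y := by
        simp only [hX, l.2.1, if_true]
      rw [compl_compl, h8]
      have h9 : j l.1 = y := l.2.1.2
      simp only [ha, h9]
      exact inf_le_right
    have h10 : (⊥ : B) ∈ U := by
      rw [← h7]
      exact U.inf_mem.2 ⟨hU, h3⟩
    exact U.bot_notMem h10
  · -- case B
    push Not at hcase
    have him : ¬ (j '' T').Countable := by
      intro h
      apply hT'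
      have h1 : T' ⊆ ⋃ y ∈ j '' T', {i | i ∈ T' ∧ j i = y} := by
        intro i hi
        exact Set.mem_biUnion (Set.mem_image_of_mem j hi) ⟨hi, rfl⟩
      exact (h.biUnion fun y _ => hcase y).mono h1
    obtain ⟨T'', hT''sub, hbij⟩ := Set.exists_subset_bijOn T' j
    have hT'' : ¬ T''.Countable := by
      intro h
      apply him
      rw [← hbij.image_eq]
      exact h.image j
    set W : I → B := fun i => if i ∉ S ∧ r i k = v then ⊤ else ⊥ with hW
    have hflW : C.fl W = W := by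
      funext i
      show C.σ i (W i) = W i
      by_cases hi : i ∉ S ∧ r i k = v
      · have : W i = ⊤ := by simp only [hW, hi]; simp
        rw [this, OrderIso.map_top]
      · have : W i = ⊥ := by simp only [hW, hi, if_false]
        rw [this, OrderIso.map_bot]
    obtain ⟨i₀, hi₀, hlim⟩ := C.ccc.limit a T'' hT'' (fun i hi => (hj i (hT''sub hi).1).2)
    obtain ⟨U, hU⟩ := exists_uf (hj i₀ (hT''sub hi₀).1).2
    have hb : b ∈ U := U.mono inf_le_left hU
    have hWA : ∀ i, b ⊓ W i ≤ A i := by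
      intro i
      by_cases hi : i ∉ S ∧ r i k = v
      · exact inf_le_left.trans (hA i hi.1)
      · simp only [hW, hi, if_false]
        simp
    have h1 := nt1_af C e A b m hm hf H W hWA U hb
    rw [hflW] at h1
    set Z : I → B := fun l => ⨆ i, W i ⊓ m i l with hZ
    have h2 : af (fun l => Z l ⇨ W l) ∈ U := U.mono (af_mono fun l => inf_le_right) h1
    have h7 : a i₀ ⊓ af (fun l => Z l ⇨ W l) = ⊥ := by
      apply af_inf_eq_bot
      intro s
      have hfin : {i | i ∈ T'' ∧ j i ∈ s}.Finite := by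
        refine Set.Finite.of_finite_image (f := j) (s.finite_toSet.subset ?_) ?_
        · rintro _ ⟨i, hi, rfl⟩
          exact hi.2
        · exact hbij.injOn.mono fun i hi => hi.1
      refine (hlim _ hfin.countable).trans (iSup_le fun l => ?_)
      have hl : j l.1 ∉ s := fun h => l.2.2 ⟨l.2.1, h⟩
      refine le_iSup_of_le ⟨j l.1, hl⟩ ?_
      have hl' := hT''sub l.2.1
      have h3 : W (j l.1) = ⊥ := by
        have h4 : ¬ (j l.1 ∉ S ∧ r (j l.1) k = v) := fun h => hl'.2.2 h.2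
        simp only [hW, h4, if_false]
      have h5 : W l.1 = ⊤ := by
        have h4 : l.1 ∉ S ∧ r l.1 k = v := ⟨hl'.1.1, hl'.2.1⟩
        simp only [hW, h4]
        simp
      show a l.1 ≤ (Z (j l.1) ⇨ W (j l.1))ᶜ
      rw [h3, himp_bot, compl_compl, hZ]
      refine le_iSup_of_le l.1 ?_
      rw [h5, top_inf_eq]
      exact inf_le_right
    have h10 : (⊥ : B) ∈ U := by
      rw [← h7]
      exact U.inf_mem.2 ⟨hU, h2⟩
    exact U.bot_notMem h10

end Pool.Agent.BVM
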