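import Pool.Agent.Lib_BVM.Nt1
import Pool.Agent.Lib_BVM.Ctbl

/-! # Piece NT2: the automorphism is not trivial on any cocountable set -/

namespace Pool.Agent.BVM

variable {B : Type} [CompleteBooleanAlgebra B] {I : Type} [LinearOrder I] [WellFoundedLT I]

theorem nt2_congr {P Q : Notion} (h : FDef P) (H : ∀ M E v, P M E v ↔ Q M E v) : FDef Q := by
  obtain ⟨φ, hφ⟩ := h
  exact ⟨φ, fun M E v => (hφ M E v).trans (H M E v)⟩

/-- the assignment `0 ↦ x`, `1 ↦ y`, otherwise `z` -/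
def nt2_v (x y z : Nm B) : ℕ → Nm B
  | 0 => x
  | 1 => y
  | _ => z

theorem nt2_fdef : FDef (fun _ E v => ∀ x y z, Sub E x (v 1) → OMem E (v 2) x y →
    IsImage E z (v 0) x → EqFin E y z) := by
  refine nt2_congr (FDef.all 3 (FDef.all 4 (FDef.all 5 ((FDef.sub 3 1).imp
    ((FDef.oMem 2 3 4).imp ((FDef.isImage 5 0 3).imp (FDef.eqFin 4 5))))))) ?_
  intro M E v
  simp [Function.update]

theorem nt2_alg {b x X m Z : B} (hx : X = x) (h1 : b ⊓ Z ≤ X) (h2 : b ⊓ X ≤ m)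
    (h3 : X ⊓ m ≤ Z) : b ≤ ((xᶜ ⇨ Z) ⊓ (Z ⇨ xᶜ))ᶜ := by
  subst hx
  apply le_of_uf
  intro V hb
  rw [UF.compl_mem, UF.inf_mem, UF.himp_mem, UF.himp_mem, UF.compl_mem]
  rintro ⟨h4, h5⟩
  by_cases hX : X ∈ V
  · have : Z ∈ V := V.mono h3 (V.inf_mem.2 ⟨hX, V.mono h2 (V.inf_mem.2 ⟨hb, hX⟩)⟩)
    exact h5 this hX
  · exact hX (V.mono h1 (V.inf_mem.2 ⟨hb, h4 hX⟩))

/-- Proof. Let `a = nm U (subN A)` (`exists_subN`) and `e = nm U e'`, where `e` is as in
`TrivialOn`, and let `w`, `f` be names witnessing that the complement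
`subN (fun i => (A i)ᶜ)` of `a` is countable (`isDiff_subN` with `A := fun _ => ⊤`). Let `b ∈ U` be
the Boolean value of the conjunction of `IsOmega w`, `IsInj f (subN Aᶜ) w`, `IsFun e (subN A) l` and
`∀ x y z, Sub x (subN A) → OMem (autN C) x y → IsImage z e x → EqFin y z` (definable: `FDef`).
`S = {i | b ⊓ (A i)ᶜ ≠ ⊥}` is countable (`CCC.inj_countable`), `b ≤ A i` for `i ∉ S`. By `almost_id`
the set `S' = S ∪ {i | i ∉ S ∧ ∃ j ≠ i, b ⊓ m i j ≠ ⊥}` is countable, and `b ≤ m i i` for `i ∉ S'`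
(`le_iSup_value`). Put `X i = C.c i` for `i ∉ S'` and `X i = ⊥` for `i ∈ S'`. In the model of `U`:
`subN X ⊆ subN A`, the image `subN Z`, `Z j = ⨆ i, X i ⊓ m i j`, of `subN X` equals `subN X`
(`b ⊓ Z j = b ⊓ X j`: `b ⊓ X i ⊓ m i j = ⊥` for `i ≠ j`), and `OMem (autN C) (subN X) (subN (C.fl X))`.
So `EqFin (subN (C.fl X)) (subN X)`, and `af (fun i => (C.fl X i ⇨ X i) ⊓ (X i ⇨ C.fl X i)) ∈ U` by
`eqFin_subN`. But for `i ∉ S'`, `C.fl X i = (C.c i)ᶜ`, so the `i`-th term is `⊥`; since `I` is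
uncountable every finset misses such an `i`, so this value is `⊥`, contradiction. -/
theorem not_trivialOn (C : CohenAlg I B) (r : I → ℕ → Bool) (hr : Function.Injective r)
    (hI : ¬ (Set.univ : Set I).Countable) (U : UF B) (a : Mod U)
    (ha : Sub (EU U) a (nm U (setN B I)))
    (hc : ∀ d, IsDiff (EU U) d (nm U (setN B I)) a → Ctbl (EU U) d) :
    ¬ TrivialOn (EU U) (nm U (autN C)) (nm U (setN B I)) a := by
  rintro ⟨e₀, he, hH⟩
  obtain ⟨A, rfl⟩ := exists_subN U ha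
  obtain ⟨e, rfl⟩ := nm_surj U e₀
  have hd : IsDiff (EU U) (nm U (subN (fun i => (A i)ᶜ))) (nm U (setN B I)) (nm U (subN A)) := by
    have h := isDiff_subN U (fun _ : I => (⊤ : B)) A
    simp only [top_inf_eq] at h
    exact h
  obtain ⟨w₀, f₀, hw, hf⟩ := hc _ hd
  obtain ⟨w, rfl⟩ := nm_surj U w₀
  obtain ⟨f, rfl⟩ := nm_surj U f₀
  obtain ⟨F1, hF1⟩ := (FDef.isOmega 0).exists_bval (B := B)
  obtain ⟨F2, hF2⟩ := (FDef.isInj 0 1 2).exists_bval (B := B)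
  obtain ⟨F3, hF3⟩ := (FDef.isFun 0 1 2).exists_bval (B := B)
  obtain ⟨F4, hF4⟩ := nt2_fdef.exists_bval (B := B)
  obtain ⟨m, hm⟩ := exists_bval_oMem (I := I) e
  set b : B := (F1 (nt2_v w w w) ⊓ F2 (nt2_v f (subN (fun i => (A i)ᶜ)) w)) ⊓
    (F3 (nt2_v e (subN A) (setN B I)) ⊓ F4 (nt2_v e (subN A) (autN C))) with hbdef
  have key : ∀ V : UF B, b ∈ V ↔ (IsOmega (EU V) (nm V w) ∧
      IsInj (EU V) (nm V f) (nm V (subN (fun i => (A i)ᶜ))) (nm V w)) ∧
      (IsFun (EU V) (nm V e) (nm V (subN A)) (nm V (setN B I)) ∧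
        ∀ x y z, Sub (EU V) x (nm V (subN A)) → OMem (EU V) (nm V (autN C)) x y →
          IsImage (EU V) z (nm V e) x → EqFin (EU V) y z) := by
    intro V
    rw [hbdef, UF.inf_mem, UF.inf_mem, UF.inf_mem, hF1, hF2, hF3, hF4]
    exact Iff.rfl
  have hb : b ∈ U := (key U).2 ⟨⟨hw, hf⟩, he, fun x y z h1 h2 h3 => hH x y z h1 h2 h3⟩
  set S : Set I := {i | b ⊓ (A i)ᶜ ≠ ⊥} with hS
  have hSc : S.Countable :=
    C.ccc.inj_countable w f (fun i => (A i)ᶜ) b fun V hV => ((key V).1 hV).1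
  have hA : ∀ i, i ∉ S → b ≤ A i := by
    intro i hi
    have h1 : b ⊓ (A i)ᶜ = ⊥ := by
      by_contra h
      exact hi h
    rw [← compl_compl (A i)]
    exact le_compl_iff_disjoint_right.2 (disjoint_iff.2 h1)
  have hfun : ∀ V : UF B, b ∈ V → IsFun (EU V) (nm V e) (nm V (subN A)) (nm V (setN B I)) :=
    fun V hV => ((key V).1 hV).2.1
  have hS1 := almost_id C r hr e A b S hSc hA m hm hfun fun V hV => ((key V).1 hV).2.2
  set S1 : Set I := {i | i ∉ S ∧ ∃ j, j ≠ i ∧ b ⊓ m i j ≠ ⊥} with hS1def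
  have hSS : (S ∪ S1).Countable := hSc.union hS1
  have hbot : ∀ i, i ∉ S ∪ S1 → ∀ j, j ≠ i → b ⊓ m i j = ⊥ := by
    intro i hi j hj
    by_contra h
    exact hi (Or.inr ⟨fun h' => hi (Or.inl h'), j, hj, h⟩)
  have hmi : ∀ i, i ∉ S ∪ S1 → b ≤ m i i := by
    intro i hi
    have h1 := le_iSup_value e A b m hm hfun i
    have h2 : b ≤ b ⊓ ⨆ j, m i j :=
      le_inf le_rfl ((le_inf le_rfl (hA i fun h => hi (Or.inl h))).trans h1)
    refine h2.trans ?_
    rw [inf_iSup_eq]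
    refine iSup_le fun j => ?_
    by_cases hj : j = i
    · subst hj
      exact inf_le_right
    · rw [hbot i hi j hj]
      exact bot_le
  classical
  set X : I → B := fun i => if i ∈ S ∪ S1 then ⊥ else C.c i with hX
  have hsub : Sub (EU U) (nm U (subN X)) (nm U (subN A)) := by
    rw [sub_subN]
    refine U.mono (le_iInf fun i => ?_) hb
    rw [le_himp_iff]
    by_cases hi : i ∈ S ∪ S1
    · simp only [hX, if_pos hi, inf_bot_eq, bot_le]
    · exact inf_le_left.trans (hA i fun h => hi (Or.inl h))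
  have hE := ((key U).1 hb).2.2 _ _ _ hsub (oMem_autN C U X)
    (isImage_subN U e A X m hm (hfun U hb))
  rw [eqFin_subN] at hE
  have hdis : b ⊓ af (fun i => (C.fl X i ⇨ ⨆ k, X k ⊓ m k i) ⊓
      ((⨆ k, X k ⊓ m k i) ⇨ C.fl X i)) = ⊥ := by
    apply af_inf_eq_bot
    intro s
    have hex : ∃ i, i ∉ (S ∪ S1) ∪ (↑s : Set I) := by
      by_contra h
      push Not at h
      exact hI ((hSS.union s.countable_toSet).mono fun i _ => h i)
    obtain ⟨i, hi⟩ := hex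
    have hi1 : i ∉ S ∪ S1 := fun h => hi (Or.inl h)
    have hi2 : i ∉ s := fun h => hi (Or.inr h)
    refine le_trans ?_ (le_iSup (fun i : {i : I // i ∉ s} => ((C.fl X i.1 ⇨ ⨆ k, X k ⊓ m k i.1) ⊓
      ((⨆ k, X k ⊓ m k i.1) ⇨ C.fl X i.1))ᶜ) ⟨i, hi2⟩)
    have hXi : X i = C.c i := if_neg hi1
    have hfl : C.fl X i = (C.c i)ᶜ := by
      show C.σ i (X i) = _
      rw [hXi, C.flip]
    show b ≤ ((C.fl X i ⇨ ⨆ k, X k ⊓ m k i) ⊓ ((⨆ k, X k ⊓ m k i) ⇨ C.fl X i))ᶜ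
    rw [hfl]
    refine nt2_alg (m := m i i) hXi ?_ (inf_le_left.trans (hmi i hi1))
      (le_iSup (fun k => X k ⊓ m k i) i)
    rw [inf_iSup_eq]
    refine iSup_le fun k => ?_
    by_cases hk : k ∈ S ∪ S1
    · simp only [hX, if_pos hk, bot_inf_eq, inf_bot_eq, bot_le]
    · by_cases hki : k = i
      · subst hki
        exact inf_le_right.trans inf_le_left
      · have := hbot k hk i fun h => hki h.symm
        refine le_trans ?_ (bot_le (a := X i))
        rw [← this]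
        exact inf_le_inf_left _ inf_le_right
  have := U.inf_mem.2 ⟨hb, hE⟩
  rw [hdis] at this
  exact U.bot_notMem this

end Pool.Agent.BVM
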