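import Pool.Agent.Lib_BVM.Auto
import Pool.Agent.Lib_BVM.Img

/-! # Piece NW0: local triviality in terms of Boolean values -/

namespace Pool.Agent.BVM

variable {B : Type} [CompleteBooleanAlgebra B] {I : Type}

/-- `b` forces that the function `e` from `A` to `I`, where `m i j` is the Boolean value of
`e i = j`, induces the automorphism `C.fl` on `A` -/
structure Loc (C : CohenAlg I B) (A : I → B) (b : B) (m : I → I → B) : Prop where
  dom : ∀ i j, b ⊓ m i j ≤ A i
  total : ∀ i, b ⊓ A i ≤ ⨆ j, m i j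
  disj : ∀ i j k, j ≠ k → b ⊓ m i j ⊓ m i k = ⊥
  ind : ∀ X : I → B, (∀ i, b ⊓ X i ≤ A i) →
    b ≤ af (fun j => (C.fl X j ⇨ ⨆ i, X i ⊓ m i j) ⊓ ((⨆ i, X i ⊓ m i j) ⇨ C.fl X j))

variable [LinearOrder I] [WellFoundedLT I]

theorem loc_of_model (C : CohenAlg I B) (e : Nm B) (A : I → B) (b : B)
    (m : I → I → B) (hm : ∀ (U : UF B) (i j : I), m i j ∈ U ↔
      OMem (EU U) (nm U e) (nm U (ordN B i)) (nm U (ordN B j)))
    (hf : ∀ U : UF B, b ∈ U → IsFun (EU U) (nm U e) (nm U (subN A)) (nm U (setN B I)))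
    (H : ∀ U : UF B, b ∈ U → ∀ x y z, Sub (EU U) x (nm U (subN A)) →
      OMem (EU U) (nm U (autN C)) x y → IsImage (EU U) z (nm U e) x → EqFin (EU U) y z) :
    Loc C A b m where
  dom := by
    intro i j
    refine le_of_uf fun U hU => ?_
    rw [UF.inf_mem, hm] at hU
    have := (IsFun.mem (eu_pair U) (eu_ext U) (hf U hU.1) hU.2).1
    rwa [mem_subN] at this
  total := le_iSup_value e A b m hm hf
  disj := value_disjoint e A b m hm hf
  ind := by
    intro X hX
    refine le_of_uf fun U hU => ?_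
    rw [← eqFin_subN]
    refine H U hU (nm U (subN X)) _ _ ?_ (oMem_autN C U X) (isImage_subN U e A X m hm (hf U hU))
    rw [sub_subN]
    refine U.mono (le_iInf fun i => ?_) hU
    rw [le_himp_iff]
    exact hX i

end Pool.Agent.BVM
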