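import Pool.Agent.Lib_BVM.Nw0

/-! # Piece NW1: first consequences of local triviality -/

namespace Pool.Agent.BVM

variable {B : Type} [CompleteBooleanAlgebra B] {I : Type}

theorem le_af_of_finset {g : I → B} {b : B} (s : Finset I) (H : ∀ i, i ∉ s → b ≤ g i) :
    b ≤ af g :=
  (le_iInf fun i : {i : I // i ∉ s} => H i.1 i.2).trans
    (le_iSup (fun s : Finset I => ⨅ i : {i : I // i ∉ s}, g i.1) s)

theorem inf_af_le {g h : I → B} {b : B} (H : ∀ i, b ⊓ g i ≤ h i) : b ⊓ af g ≤ af h := by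
  have h1 : b ≤ af (fun _ : I => b) := le_af_of_finset ∅ fun _ _ => le_rfl
  calc b ⊓ af g ≤ af (fun _ : I => b) ⊓ af g := inf_le_inf_right _ h1
    _ = af (fun i => b ⊓ g i) := (af_inf _ _).symm
    _ ≤ af h := af_mono H

theorem CohenAlg.fl_compl (C : CohenAlg I B) (X : I → B) :
    C.fl (fun i => (X i)ᶜ) = fun i => (C.fl X i)ᶜ := by
  funext i
  exact map_compl (C.σ i) (X i)

/-- a function inducing the automorphism is finite-to-one -/
theorem Loc.fiber {C : CohenAlg I B} {A : I → B} {b : B} {m : I → I → B} (L : Loc C A b m)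
    (y : I) : b ≤ af (fun i => (m i y)ᶜ) := by
  classical
  have h1 := L.ind (fun i => m i y) (fun i => L.dom i y)
  have h2 : b ≤ af (fun j => (⨆ i, m i y ⊓ m i j)ᶜ) := by
    refine le_af_of_finset {y} fun j hj => ?_
    rw [Finset.mem_singleton] at hj
    rw [le_compl_iff_disjoint_right, disjoint_iff, inf_iSup_eq]
    refine iSup_eq_bot.2 fun i => ?_
    rw [← inf_assoc]
    exact L.disj i y j fun h => hj h.symm
  have h3 : b ≤ af (fun j => (C.fl (fun i => m i y) j)ᶜ) := by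
    refine (le_inf h1 h2).trans ?_
    rw [← af_inf]
    refine af_mono fun j => le_of_uf fun U hU => ?_
    rw [UF.inf_mem, UF.inf_mem, UF.himp_mem, UF.compl_mem] at hU
    rw [UF.compl_mem]
    exact fun h => hU.2 (hU.1.1 h)
  have h4 := C.fl_compl (fun i => m i y)
  rw [← h4, C.af_fl] at h3
  exact h3

theorem Loc.fibers {C : CohenAlg I B} {A : I → B} {b : B} {m : I → I → B} (L : Loc C A b m)
    (s : Finset I) : b ≤ af (fun i => s.inf (fun y => (m i y)ᶜ)) := by
  classical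
  induction s using Finset.induction_on with
  | empty => exact le_af_of_finset ∅ fun i _ => by simp
  | insert a s ha ih =>
    refine (le_inf (L.fiber a) ih).trans ?_
    rw [← af_inf]
    exact af_mono fun i => by rw [Finset.inf_insert]

/-- no ground model set is moved infinitely often -/
theorem Loc.no_split {C : CohenAlg I B} {A : I → B} {b : B} {m : I → I → B} (L : Loc C A b m)
    (D : Set I) (c : B) (hc : c ≤ b)
    (h : ∀ s : Finset I, c ≤ ⨆ p : {p : I × I // p.1 ∈ D ∧ p.2 ∉ D ∧ p.2 ∉ s}, m p.1.1 p.1.2) :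
    c = ⊥ := by
  classical
  set X : I → B := fun i => if i ∈ D then A i else ⊥ with hX
  have hXA : ∀ i, b ⊓ X i ≤ A i := by
    intro i
    by_cases hi : i ∈ D
    · simp only [hX, if_pos hi]
      exact inf_le_right
    · simp only [hX, if_neg hi, inf_bot_eq, bot_le]
  have h1 := L.ind X hXA
  have h2 : c ≤ af (fun j => (⨆ i, X i ⊓ m i j) ⇨ C.fl X j) :=
    hc.trans (h1.trans (af_mono fun j => inf_le_right))
  have h3 : c ⊓ af (fun j => (⨆ i, X i ⊓ m i j) ⇨ C.fl X j) = ⊥ := by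
    apply af_inf_eq_bot
    intro s
    have h4 : c ≤ c ⊓ ⨆ p : {p : I × I // p.1 ∈ D ∧ p.2 ∉ D ∧ p.2 ∉ s}, m p.1.1 p.1.2 :=
      le_inf le_rfl (h s)
    refine h4.trans ?_
    rw [inf_iSup_eq]
    refine iSup_le fun p => ?_
    obtain ⟨⟨i, j⟩, hi, hj, hjs⟩ := p
    refine le_trans ?_ (le_iSup (fun j : {j : I // j ∉ s} =>
      ((⨆ i, X i ⊓ m i j.1) ⇨ C.fl X j.1)ᶜ) ⟨j, hjs⟩)
    have h5 : C.fl X j = ⊥ := by
      show C.σ j (X j) = ⊥
      have : X j = ⊥ := if_neg hj
      rw [this]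
      exact map_bot (C.σ j)
    show c ⊓ m i j ≤ ((⨆ i, X i ⊓ m i j) ⇨ C.fl X j)ᶜ
    rw [h5, himp_bot, compl_compl]
    refine le_trans ?_ (le_iSup (fun i => X i ⊓ m i j) i)
    have h6 : X i = A i := if_pos hi
    show c ⊓ m i j ≤ X i ⊓ m i j
    rw [h6]
    exact le_inf ((inf_le_inf_right _ hc).trans (L.dom i j)) inf_le_right
  rw [inf_eq_left.2 h2] at h3
  exact h3

end Pool.Agent.BVM
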