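import Pool.Agent.Lib_BVM.Nw1
import Pool.Agent.Lib_BVM.Nw2

/-! # Piece NW3: local triviality on a countable ground model set -/

namespace Pool.Agent.BVM

variable {B : Type} [CompleteBooleanAlgebra B] {I : Type}

/-- the function is the identity at almost all elements of `K` -/
theorem Loc.almost_id {C : CohenAlg I B} {A : I → B} {b : B} {m : I → I → B} (L : Loc C A b m)
    (hS : CSupp B) (K : Set I) (hK : K.Countable) :
    b ≤ af (fun i => ⨅ j : {j : I // i ∈ K ∧ j ≠ i}, (m i j.1)ᶜ) := by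
  classical
  set g : I → B := fun i => ⨅ j : {j : I // i ∈ K ∧ j ≠ i}, (m i j.1)ᶜ with hg
  set c : B := b ⊓ (af g)ᶜ with hc
  have hcb : c ≤ b := inf_le_left
  set P : Set (I × I) := {p | p.1 ∈ K ∧ p.2 ≠ p.1 ∧ b ⊓ m p.1 p.2 ≠ ⊥} with hP
  have hPc : P.Countable := by
    have h1 : P ⊆ ⋃ i ∈ K, (fun j => (i, j)) '' {j | b ⊓ m i j ≠ ⊥} := by
      rintro ⟨i, j⟩ ⟨hi, -, hj⟩
      exact Set.mem_biUnion hi ⟨j, hj, rfl⟩
    refine (hK.biUnion fun i _ => Set.Countable.image ?_ _).mono h1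
    refine C.ccc.countable_of_disjoint (fun j => b ⊓ m i j) fun j k hjk => ?_
    rw [inf_inf_inf_comm, inf_idem, ← inf_assoc]
    exact L.disj i j k hjk
  have key : ∀ s : Finset I,
      c ≤ ⨆ p : {p : I × I // p ∈ P ∧ p.1 ∉ s ∧ p.2 ∉ s}, m p.1.1 p.1.2 := by
    intro s
    set h : I → B := fun i => ⨅ j : {j : I // i ∈ K ∧ j ≠ i ∧ j ∉ s}, (m i j.1)ᶜ with hh
    have h1 : b ⊓ af h ≤ af g := by
      refine (inf_le_inf_right _ (L.fibers s)).trans ?_
      rw [← af_inf]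
      refine af_mono fun i => le_iInf fun j => ?_
      by_cases hj : j.1 ∈ s
      · exact inf_le_left.trans (Finset.inf_le (f := fun y => (m i y)ᶜ) hj)
      · exact inf_le_right.trans (iInf_le (fun j : {j : I // i ∈ K ∧ j ≠ i ∧ j ∉ s} =>
          (m i j.1)ᶜ) ⟨j.1, j.2.1, j.2.2, hj⟩)
    have h2 : c ⊓ af h = ⊥ := by
      rw [hc, inf_right_comm, ← disjoint_iff]
      exact disjoint_compl_right.mono_left h1
    have h3 : c ⊓ ⨅ i : {i : I // i ∉ s}, h i.1 = ⊥ := by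
      refine le_bot_iff.1 ((inf_le_inf_left c ?_).trans h2.le)
      exact le_iSup (fun s : Finset I => ⨅ i : {i : I // i ∉ s}, h i.1) s
    have h4 : c ≤ (⨅ i : {i : I // i ∉ s}, h i.1)ᶜ :=
      le_compl_iff_disjoint_right.2 (disjoint_iff.2 h3)
    rw [compl_iInf] at h4
    refine (le_inf hcb h4).trans ?_
    rw [inf_iSup_eq]
    refine iSup_le fun i => ?_
    simp only [hh]
    rw [compl_iInf, inf_iSup_eq]
    refine iSup_le fun j => ?_
    rw [compl_compl]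
    by_cases hij : b ⊓ m i.1 j.1 = ⊥
    · rw [hij]
      exact bot_le
    · exact inf_le_right.trans (le_iSup (fun p : {p : I × I // p ∈ P ∧ p.1 ∉ s ∧ p.2 ∉ s} =>
        m p.1.1 p.1.2) ⟨(i.1, j.1), ⟨j.2.1, j.2.2.1, hij⟩, i.2, j.2.2.2⟩)
  obtain ⟨D, hD⟩ := exists_split hS P hPc (fun p hp => hp.2.1.symm) m c key
  have h0 : c = ⊥ := L.no_split D c hcb hD
  have h1 := le_compl_iff_disjoint_right.2 (disjoint_iff.2 (hc ▸ h0))
  rwa [compl_compl] at h1

theorem Loc.half {C : CohenAlg I B} {A : I → B} {b : B} {m : I → I → B} (L : Loc C A b m)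
    (hS : CSupp B) (K : Set I) (hK : K.Countable) (d : I → B) (hd : ∀ i, C.σ i (d i) = (d i)ᶜ) :
    b ≤ af (fun i => ⨅ _ : i ∈ K, (A i ⊓ d i)ᶜ) := by
  classical
  set X : I → B := fun i => if i ∈ K then A i ⊓ d i else ⊥ with hX
  have hXA : ∀ i, b ⊓ X i ≤ A i := by
    intro i
    by_cases hi : i ∈ K
    · simp only [hX, if_pos hi]
      exact inf_le_right.trans inf_le_left
    · simp only [hX, if_neg hi, inf_bot_eq, bot_le]
  have h1 := L.ind X hXA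
  have h2 := L.almost_id hS K hK
  have h3 : b ≤ b ⊓ af (fun j => ((C.fl X j ⇨ ⨆ i, X i ⊓ m i j) ⊓
      ((⨆ i, X i ⊓ m i j) ⇨ C.fl X j)) ⊓ ⨅ k : {k : I // j ∈ K ∧ k ≠ j}, (m j k.1)ᶜ) := by
    rw [af_inf]
    exact le_inf le_rfl (le_inf h1 h2)
  refine h3.trans (inf_af_le fun j => ?_)
  refine le_iInf fun hj => le_of_uf fun V hV => ?_
  rw [UF.inf_mem, UF.inf_mem, UF.inf_mem, UF.himp_mem, UF.himp_mem] at hV
  obtain ⟨hb, ⟨-, hZ⟩, hid⟩ := hV
  rw [UF.compl_mem]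
  intro hAd
  have hXj : X j = A j ⊓ d j := if_pos hj
  have h4 : b ⊓ A j ⊓ (⨅ k : {k : I // j ∈ K ∧ k ≠ j}, (m j k.1)ᶜ) ≤ m j j := by
    refine (inf_le_inf_right _ (L.total j)).trans ?_
    rw [iSup_inf_eq]
    refine iSup_le fun k => ?_
    by_cases hk : k = j
    · subst hk
      exact inf_le_left
    · have h5 : (⨅ k : {k : I // j ∈ K ∧ k ≠ j}, (m j k.1)ᶜ) ≤ (m j k)ᶜ :=
        iInf_le (fun k : {k : I // j ∈ K ∧ k ≠ j} => (m j k.1)ᶜ) ⟨k, hj, hk⟩
      refine (inf_le_inf_left _ h5).trans ?_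
      rw [inf_compl_eq_bot]
      exact bot_le
  have h5 : m j j ∈ V := V.mono h4
    (V.inf_mem.2 ⟨V.inf_mem.2 ⟨hb, V.mono inf_le_left hAd⟩, hid⟩)
  have h6 : (⨆ i, X i ⊓ m i j) ∈ V :=
    V.iSup_of j (V.inf_mem.2 ⟨by rw [hXj]; exact hAd, h5⟩)
  have h7 : C.fl X j ∈ V := hZ h6
  have h8 : C.fl X j ≤ (d j)ᶜ := by
    show C.σ j (X j) ≤ _
    rw [hXj, ← hd j]
    exact (C.σ j).monotone inf_le_right
  exact V.compl_mem.1 (V.mono h8 h7) (V.mono inf_le_right hAd)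

/-- the set on which the automorphism is trivial meets `K` in a finite set -/
theorem Loc.finite_inter {C : CohenAlg I B} {A : I → B} {b : B} {m : I → I → B}
    (L : Loc C A b m) (hS : CSupp B) (K : Set I) (hK : K.Countable) :
    b ≤ af (fun i => ⨅ _ : i ∈ K, (A i)ᶜ) := by
  have h1 := L.half hS K hK C.c C.flip
  have h2 := L.half hS K hK (fun i => (C.c i)ᶜ) fun i => by
    rw [map_compl, C.flip]
  refine (le_inf h1 h2).trans ?_
  rw [← af_inf]
  refine af_mono fun i => le_iInf fun hi => le_of_uf fun V hV => ?_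
  rw [UF.inf_mem] at hV
  have h3 := V.of_iInf hV.1 hi
  have h4 := V.of_iInf hV.2 hi
  rw [UF.compl_mem, UF.inf_mem] at h3 h4
  rw [UF.compl_mem]
  rw [UF.compl_mem] at h4
  intro hA
  by_cases hcV : C.c i ∈ V
  · exact h3 ⟨hA, hcV⟩
  · exact h4 ⟨hA, hcV⟩

end Pool.Agent.BVM
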