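import Pool.Agent.Lib_BVM.Names
import Pool.Agent.Lib_BVM.FDef

/-! # Piece OMEGA: the set of natural numbers of the model -/

namespace Pool.Agent.BVM

variable {B : Type} [CompleteBooleanAlgebra B]

/-- the elements of a natural number of the model -/
theorem omega_mem_ordN (U : UF B) (k : ℕ) (z : Mod U) :
    EU U z (nm U (ordN B k)) ↔ ∃ j, j < k ∧ z = nm U (ordN B j) := by
  obtain ⟨x, rfl⟩ := nm_surj U z
  rw [EU_nm, bmem_ordN, UF.iSup_finite]
  constructor
  · rintro ⟨⟨j, hj⟩, h⟩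
    exact ⟨j, hj, (nm_eq U _ _).2 h⟩
  · rintro ⟨j, hj, h⟩
    exact ⟨⟨j, hj⟩, (nm_eq U _ _).1 h⟩

theorem omega_ord_mem (U : UF B) (k : ℕ) : EU U (nm U (ordN B k)) (nm U (setN B ℕ)) :=
  (mem_subN U).2 U.top_mem

theorem omega_succ (U : UF B) (k : ℕ) (z : Mod U) :
    EU U z (nm U (ordN B (k + 1))) ↔ EU U z (nm U (ordN B k)) ∨ z = nm U (ordN B k) := by
  rw [omega_mem_ordN, omega_mem_ordN]
  constructor
  · rintro ⟨j, hj, h⟩
    rcases Nat.lt_succ_iff_lt_or_eq.1 hj with h1 | h1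
    · exact Or.inl ⟨j, h1, h⟩
    · exact Or.inr (by rw [h, h1])
  · rintro (⟨j, hj, h⟩ | h)
    · exact ⟨j, hj.trans (Nat.lt_succ_self k), h⟩
    · exact ⟨k, Nat.lt_succ_self k, h⟩

theorem omega_zero (U : UF B) (z : Mod U) : ¬ EU U z (nm U (ordN B 0)) := by
  rw [omega_mem_ordN]
  rintro ⟨j, hj, -⟩
  exact absurd hj (Nat.not_lt_zero j)

theorem omega_inductive (U : UF B) : Inductive (EU U) (nm U (setN B ℕ)) := by
  refine ⟨⟨nm U (ordN B 0), omega_ord_mem U 0, omega_zero U⟩, fun X hX => ?_⟩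
  have h := FDef.ball (B := B) (FDef.ex 2 (FDef.and (FDef.mem 2 1) (FDef.all 3
    (FDef.iff (FDef.mem 3 2) (FDef.or (FDef.mem 3 0) (FDef.eq 3 0)))))) 0
    (fun _ => setN B ℕ) (ordN B (I := ℕ)) (fun _ => ⊤) ⊤ ?_ U U.top_mem X hX
  · simpa [Function.update] using h
  · intro U' i _ _
    refine ⟨nm U' (ordN B (i + 1)), ?_⟩
    have h1 := omega_ord_mem U' (i + 1)
    have h2 := omega_succ U' i
    simpa [Function.update] using And.intro h1 h2

theorem omega_ord_mem_of_inductive (U : UF B) {w : Mod U} (h : Inductive (EU U) w) (k : ℕ) :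
    EU U (nm U (ordN B k)) w := by
  induction k with
  | zero =>
    obtain ⟨⟨e, he, h0⟩, -⟩ := h
    have : e = nm U (ordN B 0) := eu_ext U _ _ fun z =>
      ⟨fun hz => (h0 z hz).elim, fun hz => (omega_zero U z hz).elim⟩
    rwa [← this]
  | succ k ih =>
    obtain ⟨s, hs, h1⟩ := h.2 _ ih
    have : s = nm U (ordN B (k + 1)) := eu_ext U _ _ fun z => by rw [h1, omega_succ]
    rwa [← this]

/-- `setN B ℕ` is inductive: `ordN 0` is empty. Let `x` be a name with `bmem x (setN B ℕ) ∈ U`; take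
a name `s` with `s = x ∪ {x}` in the model (`eu_pair`, `eu_union`, the set `⋃ {x, {x}}`), and let
`f` be the Boolean value of `∀ z, z ∈ s ↔ z ∈ x ∨ z = x` (`FDef.exists_bval`). Then
`f ⊓ beq x (ordN k) ≤ beq s (ordN (k + 1))` by `le_of_uf` and extensionality
(`bmem z (ordN (k+1)) = ⨆ j < k+1, beq z (ordN j)`, a finite supremum), so
`f ⊓ bmem x (setN B ℕ) ≤ bmem s (setN B ℕ)`.

It is the least one: let `w'` be a name and `g` the Boolean value of `Inductive w'`; then
`g ≤ bmem (ordN k) w'` by induction on `k` (`le_of_uf`, extensionality), hence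
`g ⊓ bmem x (setN B ℕ) ≤ bmem x w'`. -/
theorem isOmega_setN (U : UF B) : IsOmega (EU U) (nm U (setN B ℕ)) := by
  refine ⟨omega_inductive U, fun W hW X hX => ?_⟩
  obtain ⟨w, rfl⟩ := nm_surj U W
  obtain ⟨g, hg⟩ := FDef.exists_bval (B := B) (FDef.inductive' 1)
  have h := FDef.ball (B := B) (FDef.mem 0 1) 0 (fun _ => w) (ordN B (I := ℕ)) (fun _ => ⊤)
    (g (fun _ => w)) ?_ U ((hg U _).2 hW) X hX
  · simpa [Function.update] using h
  · intro U' i hc _
    have h1 := omega_ord_mem_of_inductive U' ((hg U' _).1 hc) i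
    simpa [Function.update] using h1

theorem IsOmega.eq_setN (U : UF B) {w : Mod U} (h : IsOmega (EU U) w) :
    w = nm U (setN B ℕ) :=
  eu_ext U _ _ fun z => ⟨h.2 _ (isOmega_setN U).1 z, (isOmega_setN U).2 _ h.1 z⟩

end Pool.Agent.BVM
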