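import Pool.Agent.Lib_BVM.Los

/-! # Piece ZF1: extensionality, foundation, pairing, union -/

namespace Pool.Agent.BVM

variable {B : Type} [CompleteBooleanAlgebra B]

/-- index type, elements and values of a name -/
def Nm.I : Nm B → Type
  | .mk ι _ _ => ι

/-- the elements of a name -/
def Nm.el : (x : Nm B) → x.I → Nm B
  | .mk _ a _ => a

/-- the values of a name -/
def Nm.val : (x : Nm B) → x.I → B
  | .mk _ _ b => b

theorem Nm.eta (x : Nm B) : Nm.mk x.I x.el x.val = x := by cases x; rfl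

/-- `beq_eq` and `all_mem_iff` -/
theorem eu_ext (U : UF B) (x y : Mod U) (h : ∀ z, EU U z x ↔ EU U z y) : x = y := by
  obtain ⟨x, rfl⟩ := nm_surj U x
  obtain ⟨y, rfl⟩ := nm_surj U y
  rw [nm_eq, beq_eq, UF.inf_mem]
  constructor
  · rw [all_mem_iff U ((extl_mem_left x).himp (extl_mem_left y))]
    intro z
    rw [U.himp_mem]
    intro hz
    exact (EU_nm U z y).1 ((h _).1 ((EU_nm U z x).2 hz))
  · rw [all_mem_iff U ((extl_mem_left y).himp (extl_mem_left x))]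
    intro z
    rw [U.himp_mem]
    intro hz
    exact (EU_nm U z x).1 ((h _).2 ((EU_nm U z y).2 hz))

theorem zf1_found (x y : Nm B) :
    bmem y x ⊓ (⨅ y, bmem y x ⇨ ⨆ z, bmem z y ⊓ bmem z x) ≤ ⊥ := by
  obtain ⟨c, hc⟩ : ∃ c, c = ⨅ y, bmem y x ⇨ ⨆ z, bmem z y ⊓ bmem z x := ⟨_, rfl⟩
  have hc1 : ∀ y, c ≤ bmem y x ⇨ ⨆ z, bmem z y ⊓ bmem z x := by
    intro y
    rw [hc]
    exact iInf_le _ y
  rw [← hc]
  clear hc
  induction y with
  | mk ι a b ih =>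
    have h1 : bmem (.mk ι a b) x ⊓ c ≤ ⨆ i, b i ⊓ bmem (a i) x := by
      rw [← Extl.iSup_mem (extl_mem_left x) a b, inf_comm]
      exact le_himp_iff.1 (hc1 _)
    calc bmem (.mk ι a b) x ⊓ c ≤ (⨆ i, b i ⊓ bmem (a i) x) ⊓ c := le_inf h1 inf_le_right
      _ = ⨆ i, (b i ⊓ bmem (a i) x) ⊓ c := iSup_inf_eq _ _
      _ ≤ ⊥ := iSup_le fun i => le_trans (inf_le_inf_right _ inf_le_right) (ih i)

/-- Let `x = nm U x'`, `c = ⨅ y, bmem y x' ⇨ ⨆ z, bmem z y ⊓ bmem z x'` (every element of `x` meets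
`x`). Show `bmem y x' ⊓ c = ⊥` for every name `y` by induction on `y = mk ι a b`:
`bmem y x' ⊓ c ≤ ⨆ z, bmem z y ⊓ bmem z x' = ⨆ i, b i ⊓ bmem (a i) x'`, and
`bmem (a i) x' ⊓ c = ⊥` by induction. So if `E y x` then `c ∉ U`, and `ex_mem_iff` gives the
element without common elements with `x`. -/
theorem eu_found (U : UF B) (x : Mod U) (h : ∃ y, EU U y x) :
    ∃ y, EU U y x ∧ ∀ z, EU U z y → ¬ EU U z x := by
  obtain ⟨x, rfl⟩ := nm_surj U x
  obtain ⟨y, hy⟩ := h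
  obtain ⟨y, rfl⟩ := nm_surj U y
  rw [EU_nm] at hy
  by_contra hcon
  push Not at hcon
  have hf : Extl (fun y => bmem y x ⇨ ⨆ z, bmem z y ⊓ bmem z x) :=
    (extl_mem_left x).himp (Extl.iSup fun z => (extl_mem_right z).inf (Extl.const _))
  have h1 : (⨅ y, bmem y x ⇨ ⨆ z, bmem z y ⊓ bmem z x) ∈ U := by
    rw [all_mem_iff U hf]
    intro y'
    rw [U.himp_mem]
    intro hy'
    obtain ⟨z, hz1, hz2⟩ := hcon (nm U y') ((EU_nm U _ _).2 hy')
    obtain ⟨z, rfl⟩ := nm_surj U z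
    rw [EU_nm] at hz1 hz2
    exact U.iSup_of z ((U.inf_mem).2 ⟨hz1, hz2⟩)
  exact U.bot_notMem (U.mono (zf1_found x y) ((U.inf_mem).2 ⟨hy, h1⟩))

/-- the name of the unordered pair -/
def upN (x y : Nm B) : Nm B := .mk Bool (fun b => cond b x y) (fun _ => ⊤)

theorem isUPair_upN (U : UF B) (x y : Nm B) :
    IsUPair (EU U) (nm U (upN x y)) (nm U x) (nm U y) := by
  intro w
  obtain ⟨w, rfl⟩ := nm_surj U w
  rw [EU_nm, nm_eq, nm_eq, upN, bmem_mk', U.iSup_finite]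
  simp only [top_inf_eq]
  constructor
  · rintro ⟨b, hb⟩
    cases b
    · exact Or.inr hb
    · exact Or.inl hb
  · rintro (h | h)
    · exact ⟨true, h⟩
    · exact ⟨false, h⟩

theorem eu_pair (U : UF B) (x y : Mod U) : ∃ z, ∀ w, EU U w z ↔ w = x ∨ w = y := by
  obtain ⟨x, rfl⟩ := nm_surj U x
  obtain ⟨y, rfl⟩ := nm_surj U y
  exact ⟨_, isUPair_upN U x y⟩

theorem zf1_bmem_eta (z x : Nm B) : bmem z x = ⨆ k, x.val k ⊓ beq z (x.el k) := by
  cases x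
  rfl

/-- the name `mk (Σ i, (el i).I) (fun ⟨i, k⟩ => (el i).el k) (fun ⟨i, k⟩ => val i ⊓ (el i).val k)` -/
theorem eu_union (U : UF B) (x : Mod U) : ∃ y, ∀ z, EU U z y ↔ ∃ w, EU U w x ∧ EU U z w := by
  obtain ⟨x, rfl⟩ := nm_surj U x
  cases x with
  | mk ι a b =>
    refine ⟨nm U (.mk (Σ i, (a i).I) (fun p => (a p.1).el p.2)
      (fun p => b p.1 ⊓ (a p.1).val p.2)), fun z => ?_⟩
    obtain ⟨z, rfl⟩ := nm_surj U z
    have h1 : bmem z (.mk (Σ i, (a i).I) (fun p => (a p.1).el p.2)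
        (fun p => b p.1 ⊓ (a p.1).val p.2)) = ⨆ w, bmem w (.mk ι a b) ⊓ bmem z w := by
      rw [Extl.iSup_mem (extl_mem_right z) a b, bmem_mk', iSup_sigma]
      refine iSup_congr fun i => ?_
      rw [zf1_bmem_eta z (a i), inf_iSup_eq]
      refine iSup_congr fun k => ?_
      rw [inf_assoc]
    rw [EU_nm, h1, ex_mem_iff U ((extl_mem_left _).inf (extl_mem_right z))]
    constructor
    · rintro ⟨w, hw⟩
      rw [U.inf_mem] at hw
      exact ⟨nm U w, (EU_nm U _ _).2 hw.1, (EU_nm U _ _).2 hw.2⟩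
    · rintro ⟨w, hw1, hw2⟩
      obtain ⟨w, rfl⟩ := nm_surj U w
      exact ⟨w, (U.inf_mem).2 ⟨(EU_nm U _ _).1 hw1, (EU_nm U _ _).1 hw2⟩⟩

end Pool.Agent.BVM
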