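import Pool.Agent.Lib_BVM.Zf1

/-! # Piece ZF2: power set, separation, replacement -/

namespace Pool.Agent.BVM

variable {B : Type} [CompleteBooleanAlgebra B]

/-- membership in a name cut down by an extensional function -/
theorem zf2_bmem_cut {ι : Type} (a : ι → Nm B) (b : ι → B) {f : Nm B → B} (hf : Extl f)
    (z : Nm B) :
    bmem z (.mk ι a (fun i => b i ⊓ f (a i))) = bmem z (.mk ι a b) ⊓ f z := by
  rw [bmem_mk', bmem_mk', iSup_inf_eq]
  refine iSup_congr fun i => ?_
  apply le_antisymm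
  · refine le_inf (le_inf (inf_le_left.trans inf_le_left) inf_le_right) ?_
    have h1 := hf (a i) z
    rw [beq_symm] at h1
    exact le_trans (le_inf inf_le_right (inf_le_left.trans inf_le_right)) h1
  · refine le_inf (le_inf (inf_le_left.trans inf_le_left) ?_) (inf_le_left.trans inf_le_right)
    exact le_trans (le_inf (inf_le_left.trans inf_le_right) inf_le_right) (hf z (a i))

/-- With `x = mk ι a b` the name
`mk (ι → B) (fun g => mk ι a (fun i => b i ⊓ g i)) (fun _ => ⊤)`. If `E z' z → E z' x` for all `z'`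
then `z = nm (mk ι a (fun i => b i ⊓ bmem (a i) z))` by extensionality. -/
theorem eu_power (U : UF B) (x : Mod U) : ∃ y, ∀ z, EU U z y ↔ ∀ w, EU U w z → EU U w x := by
  obtain ⟨x, rfl⟩ := nm_surj U x
  obtain ⟨ι, a, b⟩ := x
  refine ⟨nm U (.mk (ι → B) (fun g => .mk ι a (fun i => b i ⊓ g i)) (fun _ => ⊤)), fun z => ?_⟩
  obtain ⟨z, rfl⟩ := nm_surj U z
  rw [EU_nm]
  constructor
  · intro hz w hw
    obtain ⟨w, rfl⟩ := nm_surj U w
    rw [EU_nm] at hw ⊢
    refine U.mono ?_ (UF.inf_mem (U := U) |>.2 ⟨hz, hw⟩)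
    rw [bmem_mk', iSup_inf_eq]
    refine iSup_le fun g => ?_
    have h1 : beq z (.mk ι a (fun i => b i ⊓ g i)) ⊓ bmem w z ≤
        bmem w (.mk ι a (fun i => b i ⊓ g i)) := bmem_congr_right _ _ _
    refine le_trans (inf_le_inf_right _ inf_le_right) (h1.trans ?_)
    rw [bmem_mk', bmem_mk']
    exact iSup_mono fun i => inf_le_inf_right _ inf_le_left
  · intro h
    have h1 : nm U z = nm U (.mk ι a (fun i => b i ⊓ bmem (a i) z)) := by
      apply eu_ext
      intro w
      obtain ⟨w, rfl⟩ := nm_surj U w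
      rw [EU_nm, EU_nm, zf2_bmem_cut a b (extl_mem_left z), UF.inf_mem]
      refine ⟨fun hw => ⟨?_, hw⟩, fun hw => hw.2⟩
      have := h (nm U w)
      rw [EU_nm, EU_nm] at this
      exact this hw
    rw [nm_eq] at h1
    refine U.mono ?_ h1
    rw [bmem_mk']
    refine le_trans ?_ (le_iSup _ (fun i => bmem (a i) z))
    exact le_inf le_top le_rfl

/-- With `x = mk ι a b`, `v = nm ∘ v'` the name
`mk ι a (fun i => b i ⊓ bval φ (update v' 0 (a i)))`. -/
theorem eu_sep (U : UF B) (φ : Fml) (v : ℕ → Mod U) (x : Mod U) :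
    ∃ y, ∀ z, EU U z y ↔ EU U z x ∧ Sat (EU U) φ (Function.update v 0 z) := by
  obtain ⟨x, rfl⟩ := nm_surj U x
  obtain ⟨ι, a, b⟩ := x
  choose v' hv' using fun n => nm_surj U (v n)
  refine ⟨nm U (.mk ι a (fun i => b i ⊓ bval φ (Function.update v' 0 (a i)))), fun z => ?_⟩
  obtain ⟨z, rfl⟩ := nm_surj U z
  have hu : (fun i => nm U (Function.update v' 0 z i)) = Function.update v 0 (nm U z) := by
    funext i
    by_cases hi : i = 0
    · subst hi; simp
    · simp [Function.update_of_ne hi, hv']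
  rw [EU_nm, EU_nm, ← hu, ← los, ← UF.inf_mem]
  exact iff_of_eq (congrArg (fun t => t ∈ U)
    (zf2_bmem_cut a b (f := fun y => bval φ (Function.update v' 0 y)) (bval_extl1 φ v' 0) z))

/-- the two variable substitution is extensional in the first variable -/
theorem zf2_extl (φ : Fml) (v : ℕ → Nm B) (z : Nm B) :
    Extl (fun x => bval φ (Function.update (Function.update v 0 x) 1 z)) := by
  have h := bval_extl1 φ (Function.update v 1 z) 0
  have e : ∀ x, Function.update (Function.update v 0 x) 1 z =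
      Function.update (Function.update v 1 z) 0 x := fun x =>
    Function.update_comm (by decide) _ _ _
  intro x y
  simp only [e]
  exact h x y

/-- With `x = mk ι a b`, `v = nm ∘ v'`: by fullness choose names `y i` with
`g i (y i) = ⨆ z, g i z`, where `g i z = bval φ (update (update v' 0 (a i)) 1 z)`, and take the name
`mk ι y (fun i => b i ⊓ g i (y i))`. By `los` and `all_mem_iff` the Boolean value
`F = ⨅ u, ⨅ z, ⨅ z', bmem u x ⊓ g u z ⊓ g u z' ⇨ beq z z'` belongs to `U`
(`g u z = bval φ (update (update v' 0 u) 1 z)`), and `b i ⊓ F ⊓ g i z ≤ g i (y i) ⊓ beq z (y i)`. -/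
theorem eu_repl (U : UF B) (φ : Fml) (v : ℕ → Mod U) (x : Mod U)
    (h : ∀ y, EU U y x → ∃! z, Sat (EU U) φ (Function.update (Function.update v 0 y) 1 z)) :
    ∃ w, ∀ z, EU U z w ↔
      ∃ y, EU U y x ∧ Sat (EU U) φ (Function.update (Function.update v 0 y) 1 z) := by
  obtain ⟨x, rfl⟩ := nm_surj U x
  obtain ⟨ι, a, b⟩ := x
  choose v' hv' using fun n => nm_surj U (v n)
  -- the Boolean value of the formula
  let G : Nm B → Nm B → B := fun u z => bval φ (Function.update (Function.update v' 0 u) 1 z)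
  have hGdef : ∀ u z, G u z = bval φ (Function.update (Function.update v' 0 u) 1 z) :=
    fun _ _ => rfl
  have hG1 : ∀ z, Extl (fun u => G u z) := fun z => zf2_extl φ v' z
  have hG2 : ∀ u, Extl (fun z => G u z) := fun u => bval_extl1 φ _ 1
  have hlos : ∀ u z, G u z ∈ U ↔
      Sat (EU U) φ (Function.update (Function.update v 0 (nm U u)) 1 (nm U z)) := by
    intro u z
    rw [hGdef, los]
    refine iff_of_eq (congrArg (Sat (EU U) φ) ?_)
    funext i
    by_cases hi : i = 1
    · subst hi; simp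
    · by_cases hj : i = 0
      · subst hj; simp
      · simp [Function.update_of_ne hi, Function.update_of_ne hj, hv']
  clear_value G
  clear hGdef
  choose y hy using fun i => fullness (hG2 (a i))
  let X : Nm B := .mk ι a b
  have hF : (⨅ z, ⨅ z', ⨅ u, bmem u X ⊓ G u z ⊓ G u z' ⇨ beq z z') ∈ U := by
    rw [all_mem_iff U]
    · intro z
      rw [all_mem_iff U]
      · intro z'
        rw [all_mem_iff U]
        · intro u
          rw [UF.himp_mem, UF.inf_mem, UF.inf_mem]
          rintro ⟨⟨h1, h2⟩, h3⟩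
          rw [hlos] at h2 h3
          rw [← nm_eq]
          rw [← EU_nm] at h1
          exact (h _ h1).unique h2 h3
        · exact Extl.himp (Extl.inf (Extl.inf (extl_mem_left X) (hG1 z)) (hG1 z'))
            (Extl.const _)
      · refine Extl.iInf fun u => Extl.himp (Extl.inf (Extl.const _) (hG2 u)) ?_
        have := extl_eq z
        intro p q
        have := this p q
        simp only [beq_symm p z, beq_symm q z] at this
        exact this
    · refine Extl.iInf fun z' => Extl.iInf fun u => Extl.himp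
        (Extl.inf (Extl.inf (Extl.const _) (hG2 u)) (Extl.const _)) (extl_eq z')
  set F := (⨅ z, ⨅ z', ⨅ u, bmem u X ⊓ G u z ⊓ G u z' ⇨ beq z z') with hFdef
  refine ⟨nm U (.mk ι y (fun i => b i ⊓ G (a i) (y i))), fun z => ?_⟩
  obtain ⟨z, rfl⟩ := nm_surj U z
  have hb : (⨆ u, bmem u X ⊓ G u z) = ⨆ i, b i ⊓ G (a i) z := (hG1 z).iSup_mem a b
  rw [EU_nm, bmem_mk']
  constructor
  · intro hz
    have h1 : (⨆ u, bmem u X ⊓ G u z) ∈ U := by
      rw [hb]
      refine U.mono (iSup_mono fun i => ?_) hz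
      have h2 := hG2 (a i) (y i) z
      rw [beq_symm] at h2
      refine le_inf (inf_le_left.trans inf_le_left) (le_trans ?_ h2)
      exact le_inf inf_le_right (inf_le_left.trans inf_le_right)
    rw [ex_mem_iff U (Extl.inf (extl_mem_left X) (hG1 z))] at h1
    obtain ⟨u, hu⟩ := h1
    rw [UF.inf_mem, hlos, ← EU_nm] at hu
    exact ⟨_, hu⟩
  · rintro ⟨u, hu, hs⟩
    obtain ⟨u, rfl⟩ := nm_surj U u
    rw [EU_nm] at hu
    rw [← hlos] at hs
    have h1 : (⨆ u, bmem u X ⊓ G u z) ⊓ F ∈ U :=
      UF.inf_mem (U := U) |>.2 ⟨U.mono (le_iSup (fun u => bmem u X ⊓ G u z) u)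
        (UF.inf_mem (U := U) |>.2 ⟨hu, hs⟩), hF⟩
    refine U.mono ?_ h1
    rw [hb, iSup_inf_eq]
    refine iSup_mono fun i => ?_
    have h2 : G (a i) z ≤ G (a i) (y i) := by
      rw [hy i]
      exact le_iSup (fun z => G (a i) z) z
    have h3 : F ≤ bmem (a i) X ⊓ G (a i) z ⊓ G (a i) (y i) ⇨ beq z (y i) :=
      (iInf_le _ z).trans ((iInf_le _ (y i)).trans (iInf_le _ (a i)))
    have h4 : b i ≤ bmem (a i) X := bmem_mk a b i
    refine le_inf (inf_le_left.trans (inf_le_inf_left _ h2)) ?_
    have h5 : F ⊓ (bmem (a i) X ⊓ G (a i) z ⊓ G (a i) (y i)) ≤ beq z (y i) := by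
      rw [← le_himp_iff]
      exact h3
    refine le_trans (le_inf inf_le_right (le_inf (le_inf ?_ ?_) ?_)) h5
    · exact (inf_le_left.trans inf_le_left).trans h4
    · exact inf_le_left.trans inf_le_right
    · exact (inf_le_left.trans inf_le_right).trans h2

end Pool.Agent.BVM
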