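import Mathlib

/-!
# Models of ZFC

`Fml`: first order formulas of set theory; `Sat E φ v`: satisfaction in a structure `(M, E)`.
`ModelZFC E`: the structure `(M, E)` satisfies all axioms of ZFC.
The remaining definitions express standard set theoretic notions inside a structure `(M, E)`.
-/

namespace Pool.Agent.BVM

/-! ### Structures for the language of set theory -/

/-- First order formulas in the language `{∈, =}`; variables are natural numbers. -/
inductive Fml : Type
  | mem (i j : ℕ) : Fml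
  | eq (i j : ℕ) : Fml
  | neg (φ : Fml) : Fml
  | and (φ ψ : Fml) : Fml
  | all (i : ℕ) (φ : Fml) : Fml

/-- Satisfaction of a formula in the structure `(M, E)` under the assignment `v`. -/
def Sat {M : Type 1} (E : M → M → Prop) : Fml → (ℕ → M) → Prop
  | .mem i j, v => E (v i) (v j)
  | .eq i j, v => v i = v j
  | .neg φ, v => ¬ Sat E φ v
  | .and φ ψ, v => Sat E φ v ∧ Sat E ψ v
  | .all i φ, v => ∀ x : M, Sat E φ (Function.update v i x)

/-- The axioms of ZFC for the structure `(M, E)` (`E x y` is read `x ∈ y`). -/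
structure ModelZFC {M : Type 1} (E : M → M → Prop) : Prop where
  nonempty : Nonempty M
  ext : ∀ x y, (∀ z, E z x ↔ E z y) → x = y
  found : ∀ x, (∃ y, E y x) → ∃ y, E y x ∧ ∀ z, E z y → ¬ E z x
  pair : ∀ x y, ∃ z, ∀ w, E w z ↔ w = x ∨ w = y
  union : ∀ x, ∃ y, ∀ z, E z y ↔ ∃ w, E w x ∧ E z w
  power : ∀ x, ∃ y, ∀ z, E z y ↔ ∀ w, E w z → E w x
  infinity : ∃ x, (∃ e, E e x ∧ ∀ z, ¬ E z e) ∧
    ∀ y, E y x → ∃ s, E s x ∧ ∀ z, E z s ↔ E z y ∨ z = y
  sep : ∀ (φ : Fml) (v : ℕ → M) (x : M), ∃ y, ∀ z,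
    E z y ↔ E z x ∧ Sat E φ (Function.update v 0 z)
  repl : ∀ (φ : Fml) (v : ℕ → M) (x : M),
    (∀ y, E y x → ∃! z, Sat E φ (Function.update (Function.update v 0 y) 1 z)) →
    ∃ w, ∀ z, E z w ↔ ∃ y, E y x ∧ Sat E φ (Function.update (Function.update v 0 y) 1 z)
  choice : ∀ x, (∀ y, E y x → ∃ z, E z y) →
    (∀ y y', E y x → E y' x → (∃ z, E z y ∧ E z y') → y = y') →
    ∃ c, ∀ y, E y x → ∃! z, E z c ∧ E z y

/-! ### Notions inside a structure -/

section Notions

variable {M : Type 1} (E : M → M → Prop)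

/-- `x ⊆ y` -/
def Sub (x y : M) : Prop := ∀ z, E z x → E z y

/-- `p = {x, y}` -/
def IsUPair (p x y : M) : Prop := ∀ w, E w p ↔ w = x ∨ w = y

/-- `p = (x, y) = {{x}, {x, y}}` -/
def IsOPair (p x y : M) : Prop := ∀ w, E w p ↔ IsUPair E w x x ∨ IsUPair E w x y

/-- `(x, y) ∈ f` -/
def OMem (f x y : M) : Prop := ∃ p, E p f ∧ IsOPair E p x y

/-- `f` is a function with domain `a` and values in `b` (a set of ordered pairs) -/
def IsFun (f a b : M) : Prop :=
  (∀ p, E p f → ∃ x y, E x a ∧ E y b ∧ IsOPair E p x y) ∧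
  ∀ x, E x a → ∃! y, OMem E f x y

/-- `f` is an injective function from `a` to `b` -/
def IsInj (f a b : M) : Prop :=
  IsFun E f a b ∧ ∀ x x' y, OMem E f x y → OMem E f x' y → x = x'

/-- `w` contains the empty set and is closed under `x ↦ x ∪ {x}` -/
def Inductive (w : M) : Prop :=
  (∃ e, E e w ∧ ∀ z, ¬ E z e) ∧ ∀ x, E x w → ∃ s, E s w ∧ ∀ z, E z s ↔ E z x ∨ z = x

/-- `w` is the set of natural numbers -/
def IsOmega (w : M) : Prop := Inductive E w ∧ ∀ w', Inductive E w' → Sub E w w'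

/-- `x` is finite: it injects into a natural number -/
def Fin (x : M) : Prop := ∃ w n f, IsOmega E w ∧ E n w ∧ IsInj E f x n

/-- `x` is countable: it injects into the set of natural numbers -/
def Ctbl (x : M) : Prop := ∃ w f, IsOmega E w ∧ IsInj E f x w

/-- `x` is an ordinal: a transitive set all of whose elements are transitive -/
def IsOrd (x : M) : Prop := (∀ y, E y x → Sub E y x) ∧ ∀ y, E y x → ∀ z, E z y → Sub E z y

/-- `x` is the least uncountable ordinal `ω₁` -/
def IsOmegaOne (x : M) : Prop := IsOrd E x ∧ ¬ Ctbl E x ∧ ∀ y, E y x → Ctbl E y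

/-- `d = x \ y` -/
def IsDiff (d x y : M) : Prop := ∀ z, E z d ↔ E z x ∧ ¬ E z y

/-- `x ⊆ y` modulo finite sets: `x \ y` is finite -/
def SubFin (x y : M) : Prop := ∃ d, IsDiff E d x y ∧ Fin E d

/-- `x = y` modulo finite sets -/
def EqFin (x y : M) : Prop := SubFin E x y ∧ SubFin E y x

/-- `y = e[x] = {e(t) : t ∈ x}` -/
def IsImage (y e x : M) : Prop := ∀ z, E z y ↔ ∃ t, E t x ∧ OMem E e t z

/-- The set `r` of ordered pairs induces an automorphism of the Boolean algebra `P(l) / Fin`: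
the correspondence `[a] ↦ [b]` for `(a, b) ∈ r` is defined on all classes, reaches all classes, and
preserves and reflects the order (so it is well defined, bijective, and an automorphism). -/
def InducesAut (r l : M) : Prop :=
  (∀ a b, OMem E r a b → Sub E a l ∧ Sub E b l) ∧
  (∀ a, Sub E a l → ∃ b, OMem E r a b) ∧
  (∀ b, Sub E b l → ∃ a, OMem E r a b) ∧
  ∀ a b a' b', OMem E r a b → OMem E r a' b' → (SubFin E a a' ↔ SubFin E b b')

/-- The automorphism of `P(l) / Fin` induced by `r` is trivial on `a ⊆ l`: there is a function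
`e : a → l` such that `[b] ↦ [e[b]]` for every `b ⊆ a`. -/
def TrivialOn (r l a : M) : Prop :=
  ∃ e, IsFun E e a l ∧ ∀ b c d, Sub E b a → OMem E r b c → IsImage E d e b → EqFin E c d

end Notions

end Pool.Agent.BVM
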